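import Pool.Agent.Q91.JC.On3

namespace Q91.JC

open MeasureTheory Finset

open scoped Classical in
/-- the number of `(X, κ)` with `w` nearly in the direction of the point of `Wf X + u1` -/
noncomputable def cnt {d N : ℕ} (Xs : Finset (ZP d)) (Wf : ZP d → ZP d) (θ0 : Fin d → ℝ) (δ : ℝ)
    (u1 w : ZP d) (H : ℝ) : ℝ :=
  (((Xs ×ˢ (Finset.univ : Finset (Fin d → Fin N))).filter (fun z => ∀ i,
      |(w.2 i : ℝ) - w.1 * pt (Wf z.1 + u1) (grid θ0 δ N z.2) i| ≤ H)).card : ℝ)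

theorem cnt_nonneg {d N : ℕ} (Xs : Finset (ZP d)) (Wf : ZP d → ZP d) (θ0 : Fin d → ℝ) (δ : ℝ)
    (u1 w : ZP d) (H : ℝ) : 0 ≤ cnt (N := N) Xs Wf θ0 δ u1 w H := Nat.cast_nonneg _

theorem cnt_triv {d N : ℕ} (Xs : Finset (ZP d)) (Wf : ZP d → ZP d) (θ0 : Fin d → ℝ) (δ : ℝ)
    (u1 w : ZP d) (H : ℝ) :
    cnt (N := N) Xs Wf θ0 δ u1 w H ≤ (Xs.card : ℝ) * (N : ℝ) ^ d := by
  have h1 : cnt (N := N) Xs Wf θ0 δ u1 w H ≤
      ((Xs ×ˢ (Finset.univ : Finset (Fin d → Fin N))).card : ℝ) := by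
    unfold cnt
    exact_mod_cast Finset.card_filter_le _ _
  refine h1.trans (le_of_eq ?_)
  rw [Finset.card_product, Finset.card_univ, Fintype.card_fun, Fintype.card_fin,
      Fintype.card_fin]
  push_cast; ring

/-- numerical part of the bound for one `w` -/
theorem cl_num (d : ℕ) (Qr R T Θ δ h Nr Xc c : ℝ) (P : Prop) [Decidable P] (hQ : 0 < Qr) (hR : 0 < R)
    (hT : 0 ≤ T) (hΘ : 0 ≤ Θ) (hδ : 0 < δ) (hδ1 : δ ≤ 1) (hh : 0 < h) (hN : 0 < Nr)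
    (hX : Qr * (Qr * R / 4) ^ d ≤ Xc)
    (h1 : c ≤ Qr * (6 * Qr * h + 8 * T + 2 * Θ + 1) ^ d * Nr ^ d)
    (h2 : c ≤ Qr * (6 * Qr * h + 8 * T + 2 * Θ + 1) ^ d * (12 * Qr * h / δ * Nr) ^ d)
    (hP : P → 4 * T + Θ + 1 ≤ Qr * h) :
    c ≤ Xc * Nr ^ d * (if P then 1 else ((4 * T + Θ + 1) / δ) ^ d) * (384 * (h / R)) ^ d := by
  have hXc : 0 ≤ Xc := le_trans (by positivity) hX
  have hT' : 0 < 4 * T + Θ + 1 := by positivity
  have hK1 : 1 ≤ ((4 * T + Θ + 1) / δ) ^ d := by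
    apply one_le_pow₀
    rw [le_div_iff₀ hδ]; linarith
  have hK0 : 1 ≤ (if P then (1 : ℝ) else ((4 * T + Θ + 1) / δ) ^ d) := by
    split_ifs
    · exact le_rfl
    · exact hK1
  rcases le_or_gt (4 * T + Θ + 1) (Qr * h) with h3 | h3
  · calc c ≤ Qr * (6 * Qr * h + 8 * T + 2 * Θ + 1) ^ d * Nr ^ d := h1
      _ ≤ Qr * (8 * (Qr * h)) ^ d * Nr ^ d := by
        apply mul_le_mul_of_nonneg_right _ (by positivity)
        apply mul_le_mul_of_nonneg_left _ hQ.le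
        apply pow_le_pow_left₀ (by positivity)
        linarith
      _ = Qr * (Qr * R / 4) ^ d * Nr ^ d * 1 * (32 * (h / R)) ^ d := by
        have key : 8 * (Qr * h) = (Qr * R / 4) * (32 * (h / R)) := by field_simp; norm_num
        rw [key, mul_pow]; ring
      _ ≤ Xc * Nr ^ d * (if P then 1 else ((4 * T + Θ + 1) / δ) ^ d) * (384 * (h / R)) ^ d := by
        apply mul_le_mul _ _ (by positivity) (by positivity)
        · apply mul_le_mul _ hK0 (by positivity) (by positivity)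
          exact mul_le_mul_of_nonneg_right hX (by positivity)
        · apply pow_le_pow_left₀ (by positivity)
          have : 0 < h / R := by positivity
          linarith
  · have hnP : ¬ P := fun hp => absurd (hP hp) (not_le.mpr h3)
    rw [if_neg hnP]
    calc c ≤ Qr * (6 * Qr * h + 8 * T + 2 * Θ + 1) ^ d * (12 * Qr * h / δ * Nr) ^ d := h2
      _ ≤ Qr * (8 * (4 * T + Θ + 1)) ^ d * (12 * Qr * h / δ * Nr) ^ d := by
        apply mul_le_mul_of_nonneg_right _ (by positivity)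
        apply mul_le_mul_of_nonneg_left _ hQ.le
        apply pow_le_pow_left₀ (by positivity)
        linarith
      _ = Qr * (Qr * R / 4) ^ d * Nr ^ d * ((4 * T + Θ + 1) / δ) ^ d * (384 * (h / R)) ^ d := by
        have key : (8 * (4 * T + Θ + 1)) * (12 * Qr * h / δ * Nr) =
            (Qr * R / 4) * Nr * ((4 * T + Θ + 1) / δ) * (384 * (h / R)) := by
          field_simp; norm_num
        rw [mul_assoc, ← mul_pow, key, mul_pow, mul_pow, mul_pow]; ring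
      _ ≤ Xc * Nr ^ d * ((4 * T + Θ + 1) / δ) ^ d * (384 * (h / R)) ^ d := by
        apply mul_le_mul_of_nonneg_right _ (by positivity)
        apply mul_le_mul_of_nonneg_right _ (by positivity)
        exact mul_le_mul_of_nonneg_right hX (by positivity)

open scoped Classical in
/-- the bound for one large `w` -/
theorem cnt_large (hXC : S_XC) (hCL : S_CL) {d m : ℕ} (A : Matrix (Fin (d + 1)) (Fin m) ℝ)
    (x0 θ0 : Fin d → ℝ) (R ψ0 L T Θ δ : ℝ)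
    (kmax N Q : ℕ) (Wf : ZP d → ZP d) (Xs : Finset (ZP d))
    (hR : 0 < R) (hR1 : R ≤ 1) (hx0 : ∀ i, |x0 i| ≤ 1) (hL : 0 < L) (hT : 1 ≤ T)
    (hΘ : 0 ≤ Θ) (hδ : 0 < δ) (hδ1 : δ ≤ 1)
    (hN : N = 2 ^ kmax) (hQ : 1 ≤ Q) (hQ1 : 8 * L / R ≤ Q) (hQ2 : (Q : ℝ) ≤ 16 * L / R)
    (h16 : 16 * (2 * T + Θ) ≤ Q * R)
    (hX : ∀ X, X ∈ Xs ↔ ((Q : ℤ) ≤ X.1 ∧ X.1 < 2 * Q ∧ ∀ i, |(X.2 i : ℝ) - X.1 * x0 i| ≤ Q * R / 4))
    (hW : ∀ X ∈ Xs, |((Wf X).1 : ℝ) - X.1| ≤ T ∧ ∀ i, |((Wf X).2 i : ℝ) - X.2 i| ≤ T)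
    (hgrid : ∀ (κ : Fin d → Fin N) (i : Fin d), |grid θ0 δ N κ i| ≤ Θ)
    (k j : ℕ) (hk : k ≤ kmax) (hj : j + 7 ≤ k) (u1 w : ZP d) (hu1 : u1 ∈ GG A x0 R L ψ0)
    (hw : ¬ BN x0 R (L / 2 ^ j) w) :
    cnt (N := N) Xs Wf θ0 δ u1 w (3 * Q * (R / 2 ^ k)) ≤ (Xs.card : ℝ) * (N : ℝ) ^ d *
      (if 2 ^ k * (4 * T + Θ + 1) ≤ Q * R then 1 else ((4 * T + Θ + 1) / δ) ^ d) *
        (36864 * (2 ^ j / 2 ^ k)) ^ d := by
  have hQ0 : 0 < (Q : ℝ) := by exact_mod_cast hQ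
  have hQR : 8 * L ≤ Q * R := by rwa [div_le_iff₀ hR] at hQ1
  have hQR2 : Q * R ≤ 16 * L := by rwa [le_div_iff₀ hR] at hQ2
  have hQRpos : 0 < (Q : ℝ) * R := mul_pos hQ0 hR
  have hQRQ : (Q : ℝ) * R ≤ Q := by
    calc (Q : ℝ) * R ≤ Q * 1 := mul_le_mul_of_nonneg_left hR1 hQ0.le
      _ = Q := mul_one _
  have hTQ32 : 32 * T ≤ Q := by linarith
  have hLQ : L ≤ Q * R / 8 := by linarith
  have h4QR : 4 ≤ Q * R := by linarith
  have hK : 0 ≤ (if 2 ^ k * (4 * T + Θ + 1) ≤ Q * R then (1 : ℝ)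
      else ((4 * T + Θ + 1) / δ) ^ d) := by
    split_ifs <;> positivity
  -- powers
  have h2j : 0 < (2 : ℝ) ^ j := by positivity
  have h2k : 0 < (2 : ℝ) ^ k := by positivity
  have h128 : 128 * (2 : ℝ) ^ j ≤ 2 ^ k := by
    calc 128 * (2 : ℝ) ^ j = 2 ^ (j + 7) := by rw [pow_add]; norm_num; ring
      _ ≤ 2 ^ k := pow_le_pow_right₀ (by norm_num) hj
  -- facts for members
  have key : ∀ z ∈ Xs ×ˢ (Finset.univ : Finset (Fin d → Fin N)),
      0 < (((Wf z.1 + u1).1 : ℤ) : ℝ) ∧ (((Wf z.1 + u1).1 : ℤ) : ℝ) ≤ 3 * Q ∧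
      ∀ i, |pt (Wf z.1 + u1) (grid θ0 δ N z.2) i - x0 i| ≤ 2 / 3 * R := by
    intro z hz
    have hz1 : z.1 ∈ Xs := (Finset.mem_product.mp hz).1
    obtain ⟨a1, a2, a3⟩ := (hX z.1).mp hz1
    obtain ⟨b1, b2, b3⟩ := elem_bounds A x0 (grid θ0 δ N z.2) R ψ0 L T Θ Q z.1 (Wf z.1) u1 hR hx0
      a1 a2 a3 (hW z.1 hz1) hTQ32 h16 hLQ (by linarith) (hgrid z.2) hu1
    refine ⟨lt_of_lt_of_le (by positivity) b1, b2, fun i => ?_⟩
    exact pt_bound _ _ x0 Q R hQ0 hR b1 i (b3 i)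
  rcases ((Xs ×ˢ (Finset.univ : Finset (Fin d → Fin N))).filter (fun z => ∀ i,
      |(w.2 i : ℝ) - w.1 * pt (Wf z.1 + u1) (grid θ0 δ N z.2) i| ≤
        3 * Q * (R / 2 ^ k))).eq_empty_or_nonempty with h0 | ⟨z0, hz0⟩
  · unfold cnt
    rw [h0, Finset.card_empty, Nat.cast_zero]
    positivity
  · obtain ⟨hz0m, hz0c⟩ := Finset.mem_filter.mp hz0
    obtain ⟨c1, c2, c3⟩ := key z0 hz0m
    have h3 : 3 * Q * (R / 2 ^ k) ≤ 3 / 8 * (L / 2 ^ j) := by
      rw [show 3 * (Q : ℝ) * (R / 2 ^ k) = 3 * (Q * R) / 2 ^ k by ring,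
        show 3 / 8 * (L / 2 ^ j) = (3 * L) / (8 * 2 ^ j) by field_simp]
      rw [div_le_div_iff₀ h2k (by positivity)]
      have e1 : 3 * ((Q : ℝ) * R) * (8 * 2 ^ j) ≤ 3 * (16 * L) * (8 * 2 ^ j) := by
        apply mul_le_mul_of_nonneg_right _ (by positivity)
        linarith
      have e2 : 3 * L * (128 * 2 ^ j) ≤ 3 * L * 2 ^ k :=
        mul_le_mul_of_nonneg_left h128 (by positivity)
      calc 3 * ((Q : ℝ) * R) * (8 * 2 ^ j) ≤ 3 * (16 * L) * (8 * 2 ^ j) := e1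
        _ = 3 * L * (128 * 2 ^ j) := by ring
        _ ≤ _ := e2
    have hLj : 0 < L / 2 ^ j := by positivity
    -- R |w.1| > L/2^(j+1)
    have hw1 : L / 2 ^ j / 2 < R * |(w.1 : ℝ)| := by
      unfold BN at hw
      rw [not_and_or] at hw
      rcases hw with hw | hw
      · push Not at hw; linarith
      · push Not at hw
        obtain ⟨i, hi⟩ := hw
        have e1 := hz0c i
        have e2 := c3 i
        have e3 : |(w.2 i : ℝ) - w.1 * x0 i| ≤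
            |(w.2 i : ℝ) - w.1 * pt (Wf z0.1 + u1) (grid θ0 δ N z0.2) i| +
            |(w.1 : ℝ)| * |pt (Wf z0.1 + u1) (grid θ0 δ N z0.2) i - x0 i| := by
          rw [← abs_mul]
          have := abs_add_le ((w.2 i : ℝ) - w.1 * pt (Wf z0.1 + u1) (grid θ0 δ N z0.2) i)
            ((w.1 : ℝ) * (pt (Wf z0.1 + u1) (grid θ0 δ N z0.2) i - x0 i))
          refine le_trans (le_of_eq ?_) this
          congr 1; ring
        have e4 : |(w.1 : ℝ)| * |pt (Wf z0.1 + u1) (grid θ0 δ N z0.2) i - x0 i| ≤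
            |(w.1 : ℝ)| * (2 / 3 * R) := mul_le_mul_of_nonneg_left e2 (abs_nonneg _)
        have e5 : 0 ≤ R * |(w.1 : ℝ)| := by positivity
        linarith
    have hw0 : 0 < |(w.1 : ℝ)| := by
      by_contra hcon
      have : |(w.1 : ℝ)| = 0 := le_antisymm (not_lt.mp hcon) (abs_nonneg _)
      rw [this, mul_zero] at hw1
      linarith
    have hwne : (w.1 : ℝ) ≠ 0 := by
      intro hcon; rw [hcon, abs_zero] at hw0; exact lt_irrefl _ hw0
    obtain ⟨h, hh⟩ : ∃ h : ℝ, h = 96 * R * (2 ^ j / 2 ^ k) := ⟨_, rfl⟩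
    have hh0 : 0 < h := by rw [hh]; positivity
    have hh1 : h ≤ 3 / 4 := by
      have e1 : (2 : ℝ) ^ j / 2 ^ k ≤ 1 / 128 := by
        rw [div_le_div_iff₀ h2k (by norm_num)]; linarith
      have e2 : 96 * R * (2 ^ j / 2 ^ k) ≤ 96 * 1 * (1 / 128) := by
        apply mul_le_mul _ e1 (by positivity) (by norm_num)
        linarith
      rw [hh]; linarith
    have hclose : ∀ z ∈ (Xs ×ˢ (Finset.univ : Finset (Fin d → Fin N))).filter (fun z => ∀ i,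
      |(w.2 i : ℝ) - w.1 * pt (Wf z.1 + u1) (grid θ0 δ N z.2) i| ≤
        3 * Q * (R / 2 ^ k)), ∀ i,
        |pt (Wf z.1 + u1) (grid θ0 δ N z.2) i - (w.2 i : ℝ) / w.1| ≤ h := by
      intro z hz i
      have e1 := (Finset.mem_filter.mp hz).2 i
      have e2 : pt (Wf z.1 + u1) (grid θ0 δ N z.2) i - (w.2 i : ℝ) / w.1 =
          -((w.2 i : ℝ) - w.1 * pt (Wf z.1 + u1) (grid θ0 δ N z.2) i) / w.1 := by
        field_simp; ring
      rw [e2, abs_div, abs_neg, div_le_iff₀ hw0]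
      refine e1.trans ?_
      rw [hh]
      have e3 : L / 2 ^ j / 2 * (96 * (2 ^ j / 2 ^ k)) ≤ R * |(w.1 : ℝ)| * (96 * (2 ^ j / 2 ^ k)) :=
        mul_le_mul_of_nonneg_right hw1.le (by positivity)
      have e4 : L / 2 ^ j / 2 * (96 * (2 ^ j / 2 ^ k)) = 48 * L / 2 ^ k := by
        field_simp; ring
      have e5 : 3 * (Q : ℝ) * (R / 2 ^ k) ≤ 48 * L / 2 ^ k := by
        rw [show 3 * (Q : ℝ) * (R / 2 ^ k) = 3 * (Q * R) / 2 ^ k by ring]
        apply div_le_div_of_nonneg_right _ h2k.le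
        linarith
      calc 3 * (Q : ℝ) * (R / 2 ^ k) ≤ 48 * L / 2 ^ k := e5
        _ ≤ R * |(w.1 : ℝ)| * (96 * (2 ^ j / 2 ^ k)) := by rw [← e4]; exact e3
        _ = _ := by ring
    have hy : ∀ i, |(w.2 i : ℝ) / w.1| ≤ 3 := by
      intro i
      have e1 := hclose z0 hz0 i
      have e2 := c3 i
      have e3 := hx0 i
      have g1 := abs_le.mp e1
      have g2 := abs_le.mp e2
      have g3 := abs_le.mp e3
      rw [abs_le]
      constructor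
      · linarith [g1.1, g1.2, g2.1, g2.2, g3.1, g3.2]
      · linarith [g1.1, g1.2, g2.1, g2.2, g3.1, g3.2]
    have hN1 : 1 ≤ N := by rw [hN]; exact Nat.one_le_two_pow
    have hN0 : 0 < (N : ℝ) := by exact_mod_cast hN1
    obtain ⟨hc1, hc2⟩ := hCL d Q N Xs Wf u1 θ0 (fun i => (w.2 i : ℝ) / w.1) δ T Θ h hQ hN1 hδ
      (by linarith) hΘ hh0 (fun X hXm => ⟨((hX X).mp hXm).1, ((hX X).mp hXm).2.1⟩) hW hgrid hy
    have hsub : cnt (N := N) Xs Wf θ0 δ u1 w (3 * Q * (R / 2 ^ k)) ≤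
        ((((Xs ×ˢ (Finset.univ : Finset (Fin d → Fin N))).filter (fun z => ∀ i,
      |((Wf z.1).2 i : ℝ) + u1.2 i + grid θ0 δ N z.2 i -
        (((Wf z.1).1 : ℝ) + u1.1) * ((w.2 i : ℝ) / w.1)| ≤ 3 * Q * h)).card : ℕ) : ℝ) := by
      unfold cnt
      have : ((Xs ×ˢ (Finset.univ : Finset (Fin d → Fin N))).filter (fun z => ∀ i,
      |(w.2 i : ℝ) - w.1 * pt (Wf z.1 + u1) (grid θ0 δ N z.2) i| ≤
        3 * Q * (R / 2 ^ k))) ⊆ ((Xs ×ˢ (Finset.univ : Finset (Fin d → Fin N))).filter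
          (fun z => ∀ i, |((Wf z.1).2 i : ℝ) + u1.2 i + grid θ0 δ N z.2 i -
        (((Wf z.1).1 : ℝ) + u1.1) * ((w.2 i : ℝ) / w.1)| ≤ 3 * Q * h)) := by
        intro z hz
        have hzm := (Finset.mem_filter.mp hz).1
        refine Finset.mem_filter.mpr ⟨hzm, fun i => ?_⟩
        obtain ⟨b1, b2, b3⟩ := key z hzm
        have e1 := hclose z hz i
        have e2 : ((Wf z.1).2 i : ℝ) + u1.2 i + grid θ0 δ N z.2 i -
            (((Wf z.1).1 : ℝ) + u1.1) * ((w.2 i : ℝ) / w.1) =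
            (((Wf z.1 + u1).1 : ℤ) : ℝ) * (pt (Wf z.1 + u1) (grid θ0 δ N z.2) i -
              (w.2 i : ℝ) / w.1) := by
          have e3 : (((Wf z.1 + u1).1 : ℤ) : ℝ) * pt (Wf z.1 + u1) (grid θ0 δ N z.2) i =
              ((Wf z.1).2 i : ℝ) + u1.2 i + grid θ0 δ N z.2 i := by
            unfold pt
            rw [mul_div_cancel₀ _ b1.ne', Prod.snd_add, Pi.add_apply, Int.cast_add]
          rw [mul_sub, e3, Prod.fst_add, Int.cast_add]
        rw [e2, abs_mul, abs_of_pos b1]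
        exact mul_le_mul b2 e1 (abs_nonneg _) (by positivity)
      exact_mod_cast Finset.card_le_card this
    obtain ⟨-, hXcard⟩ := hXC d Q x0 R hQ h4QR
    have hXcard' : (Q : ℝ) * (Q * R / 4) ^ d ≤ (Xs.card : ℝ) := by
      have e1 : ({X : ZP d | (Q : ℤ) ≤ X.1 ∧ X.1 < 2 * Q ∧
        ∀ i, |(X.2 i : ℝ) - X.1 * x0 i| ≤ Q * R / 4}) = (Xs : Set (ZP d)) := by
        ext X; exact (hX X).symm
      rw [e1, Set.ncard_coe_finset] at hXcard
      exact hXcard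
    have hδN : δ ≤ 6 * Q * h * N := by
      have e1 : (2 : ℝ) ^ k ≤ N := by
        rw [hN]; push_cast
        exact pow_le_pow_right₀ (by norm_num) hk
      have e2 : 96 * R ≤ h * N := by
        rw [hh]
        calc 96 * R = 96 * R * 1 := (mul_one _).symm
          _ ≤ 96 * R * (2 ^ j / 2 ^ k * N) := by
            apply mul_le_mul_of_nonneg_left _ (by positivity)
            rw [div_mul_eq_mul_div, le_div_iff₀ h2k, one_mul]
            calc (2 : ℝ) ^ k ≤ N := e1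
              _ ≤ 2 ^ j * N := le_mul_of_one_le_left hN0.le (one_le_pow₀ (by norm_num))
          _ = _ := by ring
      have e3 : 6 * (Q : ℝ) * (96 * R) ≤ 6 * Q * (h * N) :=
        mul_le_mul_of_nonneg_left e2 (by positivity)
      calc δ ≤ 6 * (Q : ℝ) * (96 * R) := by linarith
        _ ≤ 6 * Q * (h * N) := e3
        _ = _ := by ring
    have hfin := cl_num d Q R T Θ δ h N Xs.card _ (2 ^ k * (4 * T + Θ + 1) ≤ Q * R) hQ0 hR
      (by linarith) hΘ hδ hδ1 hh0 hN0 hXcard' hc1 (hc2 hδN) (by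
        intro hP
        rw [hh]
        have e1 : (Q : ℝ) * (96 * R * (2 ^ j / 2 ^ k)) = (96 * 2 ^ j) * (Q * R) / 2 ^ k := by ring
        rw [e1, le_div_iff₀ h2k]
        have e2 : 1 ≤ 96 * (2 : ℝ) ^ j := by
          have : (1 : ℝ) ≤ 2 ^ j := one_le_pow₀ (by norm_num)
          linarith
        calc (4 * T + Θ + 1) * 2 ^ k = 2 ^ k * (4 * T + Θ + 1) := by ring
          _ ≤ Q * R := hP
          _ ≤ 96 * 2 ^ j * (Q * R) := le_mul_of_one_le_left hQRpos.le e2)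
    refine hsub.trans (hfin.trans (le_of_eq ?_))
    congr 2
    rw [hh]; field_simp; ring

end Q91.JC
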