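import Pool.Agent.Q91.JC.Avg1

namespace Q91.JC

open MeasureTheory Finset

open scoped Classical in
/-- reduction to single differences -/
theorem pairs_le {d m N : ℕ} (A : Matrix (Fin (d + 1)) (Fin m) ℝ) (x0 θ0 : Fin d → ℝ)
    (R ψ0 L T Θ δ H ρ : ℝ) (Q : ℕ) (Wf : ZP d → ZP d) (Xs G G2 : Finset (ZP d))
    (hR : 0 < R) (hx0 : ∀ i, |x0 i| ≤ 1) (hT : 0 ≤ T)
    (hQ : 1 ≤ Q) (hTQ32 : 32 * T ≤ Q) (hLQ : L ≤ Q * R / 8)
    (h16 : 16 * (2 * T + Θ) ≤ Q * R)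
    (hG : ∀ u, u ∈ G ↔ u ∈ GG A x0 R L ψ0)
    (hG2 : ∀ u, u ∈ G2 ↔ u ∈ GG A x0 R (2 * L) (2 * ψ0))
    (hX : ∀ X, X ∈ Xs ↔ ((Q : ℤ) ≤ X.1 ∧ X.1 < 2 * Q ∧ ∀ i, |(X.2 i : ℝ) - X.1 * x0 i| ≤ Q * R / 4))
    (hW : ∀ X ∈ Xs, |((Wf X).1 : ℝ) - X.1| ≤ T ∧ ∀ i, |((Wf X).2 i : ℝ) - X.2 i| ≤ T)
    (hgrid : ∀ (κ : Fin d → Fin N) (i : Fin d), |grid θ0 δ N κ i| ≤ Θ)
    (hH : 3 * Q * ρ ≤ H) :
    ∑ z ∈ Xs ×ˢ (Finset.univ : Finset (Fin d → Fin N)), ∑ u1 ∈ G,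
      ((G.filter (fun u => ∀ i, |pt (Wf z.1 + u) (grid θ0 δ N z.2) i -
        pt (Wf z.1 + u1) (grid θ0 δ N z.2) i| ≤ ρ)).card : ℝ) ≤
    ∑ u1 ∈ G, ∑ w ∈ G2, cnt (N := N) Xs Wf θ0 δ u1 w H := by
  have hQ0 : 0 < (Q : ℝ) := by exact_mod_cast hQ
  rw [Finset.sum_comm]
  apply Finset.sum_le_sum
  intro u1 hu1
  have step1 : ∀ z ∈ Xs ×ˢ (Finset.univ : Finset (Fin d → Fin N)),
      ((G.filter (fun u => ∀ i, |pt (Wf z.1 + u) (grid θ0 δ N z.2) i -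
        pt (Wf z.1 + u1) (grid θ0 δ N z.2) i| ≤ ρ)).card : ℝ) ≤
      ∑ w ∈ G2, (if ∀ i, |(w.2 i : ℝ) - w.1 * pt (Wf z.1 + u1) (grid θ0 δ N z.2) i| ≤ H
        then (1 : ℝ) else 0) := by
    intro z hz
    rw [← Finset.sum_filter, Finset.sum_const, nsmul_eq_mul, mul_one]
    have hz1 : z.1 ∈ Xs := (Finset.mem_product.mp hz).1
    obtain ⟨a1, a2, a3⟩ := (hX z.1).mp hz1
    have hle : (G.filter (fun u => ∀ i, |pt (Wf z.1 + u) (grid θ0 δ N z.2) i -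
        pt (Wf z.1 + u1) (grid θ0 δ N z.2) i| ≤ ρ)).card ≤
        (G2.filter (fun w => ∀ i, |(w.2 i : ℝ) - w.1 * pt (Wf z.1 + u1) (grid θ0 δ N z.2) i| ≤
          H)).card := by
      apply Finset.card_le_card_of_injOn (fun u => u - u1)
      · intro u hu
        obtain ⟨hu1', hu2'⟩ := Finset.mem_filter.mp hu
        obtain ⟨b1, b2, b3⟩ := elem_bounds A x0 (grid θ0 δ N z.2) R ψ0 L T Θ Q z.1 (Wf z.1) u hR hx0
          a1 a2 a3 (hW z.1 hz1) hTQ32 h16 hLQ hT (hgrid z.2) ((hG u).mp hu1')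
        obtain ⟨c1, c2, c3⟩ := elem_bounds A x0 (grid θ0 δ N z.2) R ψ0 L T Θ Q z.1 (Wf z.1) u1 hR hx0
          a1 a2 a3 (hW z.1 hz1) hTQ32 h16 hLQ hT (hgrid z.2) ((hG u1).mp hu1)
        have b0 : 0 < (((Wf z.1 + u).1 : ℤ) : ℝ) := lt_of_lt_of_le (by positivity) b1
        have c0 : 0 < (((Wf z.1 + u1).1 : ℤ) : ℝ) := lt_of_lt_of_le (by positivity) c1
        refine Finset.mem_coe.mpr (Finset.mem_filter.mpr ⟨?_, fun i => ?_⟩)
        · rw [hG2]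
          obtain ⟨g1, g2⟩ := (hG u).mp hu1'
          obtain ⟨g3, g4⟩ := (hG u1).mp hu1
          refine ⟨?_, ?_⟩
          · have := g1.sub hR.le g3
            rwa [← two_mul] at this
          · have := g2.sub g4 (fun j => lamz_sub A u u1 j)
            rwa [← two_mul] at this
        · have e1 := hu2' i
          have e2 : (((u - u1).2 i : ℤ) : ℝ) - ((u - u1).1 : ℤ) *
              pt (Wf z.1 + u1) (grid θ0 δ N z.2) i =
              (((Wf z.1 + u).1 : ℤ) : ℝ) * (pt (Wf z.1 + u) (grid θ0 δ N z.2) i -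
                pt (Wf z.1 + u1) (grid θ0 δ N z.2) i) := by
            have e3 : (((Wf z.1 + u).1 : ℤ) : ℝ) * pt (Wf z.1 + u) (grid θ0 δ N z.2) i =
                ((Wf z.1).2 i : ℝ) + u.2 i + grid θ0 δ N z.2 i := by
              unfold pt
              rw [mul_div_cancel₀ _ b0.ne', Prod.snd_add, Pi.add_apply, Int.cast_add]
            have e4 : (((Wf z.1 + u1).1 : ℤ) : ℝ) * pt (Wf z.1 + u1) (grid θ0 δ N z.2) i =
                ((Wf z.1).2 i : ℝ) + u1.2 i + grid θ0 δ N z.2 i := by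
              unfold pt
              rw [mul_div_cancel₀ _ c0.ne', Prod.snd_add, Pi.add_apply, Int.cast_add]
            rw [mul_sub, e3]
            simp only [Prod.fst_add, Prod.snd_sub, Prod.fst_sub, Pi.sub_apply, Int.cast_sub,
              Int.cast_add] at e4 ⊢
            linarith
          rw [e2, abs_mul, abs_of_pos b0]
          calc (((Wf z.1 + u).1 : ℤ) : ℝ) * |pt (Wf z.1 + u) (grid θ0 δ N z.2) i -
                pt (Wf z.1 + u1) (grid θ0 δ N z.2) i| ≤ 3 * Q * ρ :=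
                mul_le_mul b2 e1 (abs_nonneg _) (by positivity)
            _ ≤ H := hH
      · intro u _ u' _ huu
        exact sub_left_injective huu
    exact_mod_cast hle
  refine (Finset.sum_le_sum step1).trans (le_of_eq ?_)
  rw [Finset.sum_comm]
  apply Finset.sum_congr rfl
  intro w _
  rw [← Finset.sum_filter, Finset.sum_const, nsmul_eq_mul, mul_one]
  rfl

theorem shell_cases {d : ℕ} (x0 : Fin d → ℝ) (R L : ℝ) (w : ZP d) (h : BN x0 R (2 * L) w) :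
    ∀ J : ℕ, (∃ j < J, BN x0 R (2 * (L / 2 ^ j)) w ∧ ¬ BN x0 R (L / 2 ^ j) w) ∨
      BN x0 R (2 * (L / 2 ^ J)) w := by
  intro J
  induction J with
  | zero => right; rw [pow_zero, div_one]; exact h
  | succ J ih =>
    rcases ih with ⟨j, hj, h1⟩ | h1
    · left; exact ⟨j, Nat.lt_succ_of_lt hj, h1⟩
    · by_cases h2 : BN x0 R (L / 2 ^ J) w
      · right
        have : 2 * (L / 2 ^ (J + 1)) = L / 2 ^ J := by rw [pow_succ]; field_simp
        rw [this]; exact h2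
      · left; exact ⟨J, Nat.lt_succ_self J, h1, h2⟩

open scoped Classical in
/-- splitting a sum over `G2` in shells -/
theorem shells {d : ℕ} (x0 : Fin d → ℝ) (R L : ℝ) (J : ℕ) (G2 : Finset (ZP d)) (f : ZP d → ℝ)
    (b : ℕ → ℝ) (b0 : ℝ) (M : ℕ → ℝ)
    (hG2 : ∀ w ∈ G2, BN x0 R (2 * L) w) (hb : ∀ j < J, 0 ≤ b j)
    (hlarge : ∀ j < J, ∀ w ∈ G2, ¬ BN x0 R (L / 2 ^ j) w → f w ≤ b j)
    (hsmall : ∀ w ∈ G2, f w ≤ b0) (hb0 : 0 ≤ b0)
    (hM : ∀ j ≤ J, ∀ S ⊆ G2, (∀ w ∈ S, BN x0 R (2 * (L / 2 ^ j)) w) → (S.card : ℝ) ≤ M j) :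
    ∑ w ∈ G2, f w ≤ ∑ j ∈ range J, M j * b j + M J * b0 := by
  have h1 : ∀ w ∈ G2, f w ≤ ∑ j ∈ range J, (if BN x0 R (2 * (L / 2 ^ j)) w then b j else 0) +
      (if BN x0 R (2 * (L / 2 ^ J)) w then b0 else 0) := by
    intro w hw
    have hnn : ∀ j ∈ range J, 0 ≤ (if BN x0 R (2 * (L / 2 ^ j)) w then b j else 0) := by
      intro j hj
      split_ifs
      · exact hb j (Finset.mem_range.mp hj)
      · exact le_rfl
    rcases shell_cases x0 R L w (hG2 w hw) J with ⟨j, hj, h2, h3⟩ | h2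
    · have h4 := hlarge j hj w hw h3
      have h5 := Finset.single_le_sum hnn (Finset.mem_range.mpr hj)
      rw [if_pos h2] at h5
      have h6 : 0 ≤ (if BN x0 R (2 * (L / 2 ^ J)) w then b0 else 0) := by
        split_ifs
        · exact hb0
        · exact le_rfl
      linarith
    · rw [if_pos h2]
      have h4 := hsmall w hw
      have h5 := Finset.sum_nonneg hnn
      linarith
  refine (Finset.sum_le_sum h1).trans ?_
  rw [Finset.sum_add_distrib, Finset.sum_comm]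
  have h2 : ∀ j ≤ J, ∀ c : ℝ, 0 ≤ c →
      ∑ w ∈ G2, (if BN x0 R (2 * (L / 2 ^ j)) w then c else 0) ≤ M j * c := by
    intro j hj c hc
    rw [← Finset.sum_filter, Finset.sum_const, nsmul_eq_mul]
    exact mul_le_mul_of_nonneg_right (hM j hj _ (Finset.filter_subset _ _)
      (fun w hw => (Finset.mem_filter.mp hw).2)) hc
  apply add_le_add
  · apply Finset.sum_le_sum
    intro j hj
    exact h2 j (Finset.mem_range.mp hj).le _ (hb j (Finset.mem_range.mp hj))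
  · exact h2 J le_rfl b0 hb0

/-- the numerical sum over the shells -/
theorem shell_sum (d : ℕ) (s' : ℝ) (hs'd : s' < d) (k : ℕ) :
    ∑ j ∈ range (k - 6), (2 : ℝ) ^ (-((j : ℝ) * s')) * (36864 * (2 ^ j / 2 ^ k)) ^ d ≤
      36864 ^ d * (2 : ℝ) ^ (-((k : ℝ) * s')) * (1 / (1 - (2 : ℝ) ^ (-((d : ℝ) - s')))) := by
  have h1 : ∀ j ∈ range (k - 6), (2 : ℝ) ^ (-((j : ℝ) * s')) * (36864 * (2 ^ j / 2 ^ k)) ^ d ≤
      36864 ^ d * (2 : ℝ) ^ (-((k : ℝ) * s')) * (2 : ℝ) ^ (-(((k - j : ℕ) : ℝ) * ((d : ℝ) - s'))) := by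
    intro j hj
    have hjk : j ≤ k := by have := Finset.mem_range.mp hj; omega
    have e1 : ((2 : ℝ) ^ j / 2 ^ k) ^ d = (2 : ℝ) ^ (-(((k - j : ℕ) : ℝ) * (d : ℝ))) := by
      rw [← Real.rpow_natCast, ← Real.rpow_natCast, ← Real.rpow_natCast,
        ← Real.rpow_sub (by norm_num), ← Real.rpow_mul (by norm_num)]
      congr 1
      rw [Nat.cast_sub hjk]; ring
    rw [mul_pow, e1]
    have e2 : (2 : ℝ) ^ (-((j : ℝ) * s')) * (2 : ℝ) ^ (-(((k - j : ℕ) : ℝ) * (d : ℝ))) =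
        (2 : ℝ) ^ (-((k : ℝ) * s')) * (2 : ℝ) ^ (-(((k - j : ℕ) : ℝ) * ((d : ℝ) - s'))) := by
      rw [← Real.rpow_add (by norm_num), ← Real.rpow_add (by norm_num)]
      congr 1
      rw [Nat.cast_sub hjk]; ring
    apply le_of_eq
    calc (2 : ℝ) ^ (-((j : ℝ) * s')) * (36864 ^ d * (2 : ℝ) ^ (-(((k - j : ℕ) : ℝ) * (d : ℝ))))
        = 36864 ^ d * ((2 : ℝ) ^ (-((j : ℝ) * s')) * (2 : ℝ) ^ (-(((k - j : ℕ) : ℝ) * (d : ℝ)))) := by
          ring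
      _ = _ := by rw [e2]; ring
  refine (Finset.sum_le_sum h1).trans ?_
  rw [← Finset.mul_sum]
  apply mul_le_mul_of_nonneg_left _ (by positivity)
  have h2 : ∑ j ∈ range (k - 6), (2 : ℝ) ^ (-(((k - j : ℕ) : ℝ) * ((d : ℝ) - s'))) ≤
      ∑ j ∈ range (k + 1), (2 : ℝ) ^ (-(((k - j : ℕ) : ℝ) * ((d : ℝ) - s'))) := by
    apply Finset.sum_le_sum_of_subset_of_nonneg
    · intro j hj
      rw [Finset.mem_range] at hj ⊢; omega
    · intro j _ _; positivity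
  refine h2.trans ?_
  have h3 := Finset.sum_range_reflect (fun l : ℕ => (2 : ℝ) ^ (-((l : ℝ) * ((d : ℝ) - s')))) (k + 1)
  have h4 : ∑ j ∈ range (k + 1), (2 : ℝ) ^ (-(((k - j : ℕ) : ℝ) * ((d : ℝ) - s'))) =
      ∑ l ∈ range (k + 1), (2 : ℝ) ^ (-((l : ℝ) * ((d : ℝ) - s'))) := by
    rw [← h3]
    apply Finset.sum_congr rfl
    intro j _
    have : k + 1 - 1 - j = k - j := by omega
    rw [this]
  rw [h4]
  exact geom_le _ (by linarith) k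

open scoped Classical in
theorem avg (hDB : S_DB) (hXC : S_XC) (hCL : S_CL) : S_AVG := by
  intro d m s' hd hs' hs'd
  have hds : 0 < (d : ℝ) - s' := by linarith
  have h2e : (2 : ℝ) ^ (-((d : ℝ) - s')) < 1 := by
    rw [Real.rpow_neg (by norm_num)]
    exact inv_lt_one_of_one_lt₀ (Real.one_lt_rpow (by norm_num) hds)
  obtain ⟨S1, hS1⟩ : ∃ S1 : ℝ, S1 = 1 / (1 - (2 : ℝ) ^ (-((d : ℝ) - s'))) := ⟨_, rfl⟩
  have hS10 : 0 < S1 := by rw [hS1]; apply div_pos one_pos; linarith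
  refine ⟨5 ^ (1 + d + m) * (36864 ^ d * S1 + (2 : ℝ) ^ (6 * s')), by positivity, ?_⟩
  intro A x0 θ0 R ψ0 L T Θ δ kmax N Q Wf Xs G hR hR1 hx0 hψ0 hL hT hΘ hδ hδ1 hN hQ hQ1 hQ2 h16
    hG hD hX hW hgrid k hk
  have hQ0 : 0 < (Q : ℝ) := by exact_mod_cast hQ
  have hQR : 8 * L ≤ Q * R := by rwa [div_le_iff₀ hR] at hQ1
  have hQRQ : (Q : ℝ) * R ≤ Q := by
    calc (Q : ℝ) * R ≤ Q * 1 := mul_le_mul_of_nonneg_left hR1 hQ0.le
      _ = Q := mul_one _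
  have hTQ32 : 32 * T ≤ Q := by linarith
  have hLQ : L ≤ Q * R / 8 := by linarith
  obtain ⟨G2, hG2'⟩ : ∃ G2 : Finset (ZP d), G2 =
    (GG_finite A x0 R (2 * L) (2 * ψ0) hR).toFinset := ⟨_, rfl⟩
  have hG2 : ∀ u, u ∈ G2 ↔ u ∈ GG A x0 R (2 * L) (2 * ψ0) := fun u => by
    rw [hG2']; exact (GG_finite A x0 R (2 * L) (2 * ψ0) hR).mem_toFinset
  refine (pairs_le A x0 θ0 R ψ0 L T Θ δ (3 * Q * (R / 2 ^ k)) (R / 2 ^ k) Q Wf Xs G G2 hR hx0
    (by linarith) hQ hTQ32 hLQ h16 hG hG2 hX hW hgrid le_rfl).trans ?_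
  obtain ⟨Kk, hKk⟩ : ∃ Kk : ℝ, Kk = (if 2 ^ k * (4 * T + Θ + 1) ≤ Q * R then 1
    else ((4 * T + Θ + 1) / δ) ^ d) := ⟨_, rfl⟩
  have hK1 : 1 ≤ Kk := by
    rw [hKk]
    split_ifs
    · exact le_rfl
    · apply one_le_pow₀
      rw [le_div_iff₀ hδ]; linarith
  have hK0 : 0 < Kk := by linarith
  obtain ⟨XN, hXN⟩ : ∃ XN : ℝ, XN = (Xs.card : ℝ) * (N : ℝ) ^ d := ⟨_, rfl⟩
  have hXN0 : 0 ≤ XN := by rw [hXN]; positivity
  rw [← hKk, ← hXN]
  -- one u1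
  have key : ∀ u1 ∈ G, ∑ w ∈ G2, cnt (N := N) Xs Wf θ0 δ u1 w (3 * Q * (R / 2 ^ k)) ≤
      5 ^ (1 + d + m) * (36864 ^ d * S1 + (2 : ℝ) ^ (6 * s')) * Kk *
        (2 : ℝ) ^ (-((k : ℝ) * s')) * XN * (G.card : ℝ) := by
    intro u1 hu1
    have h1 := shells x0 R L (k - 6) G2
      (fun w => cnt (N := N) Xs Wf θ0 δ u1 w (3 * Q * (R / 2 ^ k)))
      (fun j => XN * Kk * (36864 * (2 ^ j / 2 ^ k)) ^ d) XN
      (fun j => 5 ^ (1 + d + m) * ((2 : ℝ) ^ (-((j : ℝ) * s')) * (G.card : ℝ)))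
      (fun w hw => ((hG2 w).mp hw).1) (fun j _ => by positivity)
      (fun j hj w hw hnot => by
        rw [hXN, hKk]
        exact cnt_large hXC hCL A x0 θ0 R ψ0 L T Θ δ kmax N Q Wf Xs hR hR1 hx0 hL hT hΘ hδ hδ1 hN
          hQ hQ1 hQ2 h16 hX hW hgrid k j hk (by omega) u1 w ((hG u1).mp hu1) hnot)
      (fun w _ => by rw [hXN]; exact cnt_triv Xs Wf θ0 δ u1 w _) hXN0
      (fun j hj S hS hSB => by
        have h2 : S.card ≤ (GG A x0 R (2 * (L / 2 ^ j)) (2 * ψ0)).ncard := by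
          rw [← Set.ncard_coe_finset]
          apply Set.ncard_le_ncard _ (GG_finite A x0 R _ _ hR)
          intro w hw
          exact ⟨hSB w hw, ((hG2 w).mp (hS hw)).2⟩
        have h3 := hDB d m A x0 R (L / 2 ^ j) ψ0 hR (by positivity) hψ0
        have h4 := hD j (by omega)
        have h5 : (S.card : ℝ) ≤ ((5 ^ (1 + d + m) * (GG A x0 R (L / 2 ^ j) ψ0).ncard : ℕ) : ℝ) := by
          exact_mod_cast h2.trans h3
        push_cast at h5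
        exact h5.trans (mul_le_mul_of_nonneg_left h4 (by positivity)))
    refine h1.trans ?_
    have h2 : ∑ j ∈ range (k - 6), 5 ^ (1 + d + m) * ((2 : ℝ) ^ (-((j : ℝ) * s')) * (G.card : ℝ)) *
        (XN * Kk * (36864 * (2 ^ j / 2 ^ k)) ^ d) ≤ 5 ^ (1 + d + m) * (G.card : ℝ) * XN * Kk *
          (36864 ^ d * (2 : ℝ) ^ (-((k : ℝ) * s')) * S1) := by
      have h3 := shell_sum d s' hs'd k
      rw [← hS1] at h3
      calc ∑ j ∈ range (k - 6), 5 ^ (1 + d + m) * ((2 : ℝ) ^ (-((j : ℝ) * s')) * (G.card : ℝ)) *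
          (XN * Kk * (36864 * (2 ^ j / 2 ^ k)) ^ d) = 5 ^ (1 + d + m) * (G.card : ℝ) * XN * Kk *
          ∑ j ∈ range (k - 6), (2 : ℝ) ^ (-((j : ℝ) * s')) * (36864 * (2 ^ j / 2 ^ k)) ^ d := by
            rw [Finset.mul_sum]
            apply Finset.sum_congr rfl
            intro j _; ring
        _ ≤ _ := mul_le_mul_of_nonneg_left h3 (by positivity)
    have h3 : 5 ^ (1 + d + m) * ((2 : ℝ) ^ (-(((k - 6 : ℕ) : ℝ) * s')) * (G.card : ℝ)) * XN ≤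
        5 ^ (1 + d + m) * ((2 : ℝ) ^ (6 * s') * (2 : ℝ) ^ (-((k : ℝ) * s')) * (G.card : ℝ)) * XN * Kk := by
      have h4 : (2 : ℝ) ^ (-(((k - 6 : ℕ) : ℝ) * s')) ≤ (2 : ℝ) ^ (6 * s') * (2 : ℝ) ^ (-((k : ℝ) * s')) := by
        rw [← Real.rpow_add (by norm_num)]
        apply Real.rpow_le_rpow_of_exponent_le (by norm_num)
        have h5 : (k : ℝ) - 6 ≤ ((k - 6 : ℕ) : ℝ) := by
          have : k ≤ (k - 6) + 6 := by omega
          have h6 : (k : ℝ) ≤ ((k - 6 : ℕ) : ℝ) + 6 := by exact_mod_cast this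
          linarith
        have h6 : ((k : ℝ) - 6) * s' ≤ ((k - 6 : ℕ) : ℝ) * s' := mul_le_mul_of_nonneg_right h5 hs'.le
        linarith
      have h5 : 5 ^ (1 + d + m) * ((2 : ℝ) ^ (-(((k - 6 : ℕ) : ℝ) * s')) * (G.card : ℝ)) * XN ≤
          5 ^ (1 + d + m) * ((2 : ℝ) ^ (6 * s') * (2 : ℝ) ^ (-((k : ℝ) * s')) * (G.card : ℝ)) * XN := by
        apply mul_le_mul_of_nonneg_right _ hXN0
        apply mul_le_mul_of_nonneg_left _ (by positivity)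
        exact mul_le_mul_of_nonneg_right h4 (by positivity)
      exact h5.trans (le_mul_of_one_le_right (by positivity) hK1)
    calc ∑ j ∈ range (k - 6), 5 ^ (1 + d + m) * ((2 : ℝ) ^ (-((j : ℝ) * s')) * (G.card : ℝ)) *
        (XN * Kk * (36864 * (2 ^ j / 2 ^ k)) ^ d) +
        5 ^ (1 + d + m) * ((2 : ℝ) ^ (-(((k - 6 : ℕ) : ℝ) * s')) * (G.card : ℝ)) * XN
        ≤ 5 ^ (1 + d + m) * (G.card : ℝ) * XN * Kk *
          (36864 ^ d * (2 : ℝ) ^ (-((k : ℝ) * s')) * S1) +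
          5 ^ (1 + d + m) * ((2 : ℝ) ^ (6 * s') * (2 : ℝ) ^ (-((k : ℝ) * s')) * (G.card : ℝ)) * XN * Kk :=
          add_le_add h2 h3
      _ = _ := by ring
  refine (Finset.sum_le_sum key).trans (le_of_eq ?_)
  rw [Finset.sum_const, nsmul_eq_mul]; ring

end Q91.JC
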