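import Pool.Agent.Q91.JC.Defs

namespace Q91.JC

open MeasureTheory

variable {d m : ℕ}

theorem lam_add (A : Matrix (Fin (d + 1)) (Fin m) ℝ) (t t' : ℝ) (x x' : Fin d → ℝ) (j : Fin m) :
    lam A (t + t') (fun i => x i + x' i) j = lam A t x j + lam A t' x' j := by
  simp only [lam, add_mul, Finset.sum_add_distrib]; ring

theorem lam_sub (A : Matrix (Fin (d + 1)) (Fin m) ℝ) (t t' : ℝ) (x x' : Fin d → ℝ) (j : Fin m) :
    lam A (t - t') (fun i => x i - x' i) j = lam A t x j - lam A t' x' j := by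
  simp only [lam, sub_mul, Finset.sum_sub_distrib]; ring

theorem lamz_add (A : Matrix (Fin (d + 1)) (Fin m) ℝ) (u v : ZP d) (j : Fin m) :
    lamz A (u + v) j = lamz A u j + lamz A v j := by
  simp only [lamz, Prod.fst_add, Prod.snd_add, Pi.add_apply, Int.cast_add]
  exact lam_add A _ _ _ _ j

theorem lamz_sub (A : Matrix (Fin (d + 1)) (Fin m) ℝ) (u v : ZP d) (j : Fin m) :
    lamz A (u - v) j = lamz A u j - lamz A v j := by
  simp only [lamz, Prod.fst_sub, Prod.snd_sub, Pi.sub_apply, Int.cast_sub]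
  exact lam_sub A _ _ _ _ j

theorem lamz_zero (A : Matrix (Fin (d + 1)) (Fin m) ℝ) (j : Fin m) : lamz A 0 j = 0 := by
  simp [lamz, lam]

theorem Near.mono {c c' : ℝ} {y : Fin m → ℝ} (h : Near c y) (hc : c ≤ c') : Near c' y := by
  obtain ⟨k, hk⟩ := h
  exact ⟨k, fun j => (hk j).trans hc⟩

theorem Near.add {c c' : ℝ} {y y' w : Fin m → ℝ} (h : Near c y) (h' : Near c' y')
    (hw : ∀ j, w j = y j + y' j) : Near (c + c') w := by
  obtain ⟨k, hk⟩ := h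
  obtain ⟨k', hk'⟩ := h'
  refine ⟨fun j => k j + k' j, fun j => ?_⟩
  rw [hw j]; push_cast
  have h1 := hk j
  have h2 := hk' j
  rw [abs_le] at *
  constructor <;> linarith [h1.1, h1.2, h2.1, h2.2]

theorem Near.sub {c c' : ℝ} {y y' w : Fin m → ℝ} (h : Near c y) (h' : Near c' y')
    (hw : ∀ j, w j = y j - y' j) : Near (c + c') w := by
  obtain ⟨k, hk⟩ := h
  obtain ⟨k', hk'⟩ := h'
  refine ⟨fun j => k j - k' j, fun j => ?_⟩
  rw [hw j]; push_cast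
  have h1 := hk j
  have h2 := hk' j
  rw [abs_le] at *
  constructor <;> linarith [h1.1, h1.2, h2.1, h2.2]

theorem near_zero {c : ℝ} (hc : 0 ≤ c) : Near (m := m) c (fun _ => 0) :=
  ⟨fun _ => 0, fun j => by simpa using hc⟩

theorem BN.mono {x0 : Fin d → ℝ} {R t t' : ℝ} {u : ZP d} (h : BN x0 R t u) (ht : t ≤ t') :
    BN x0 R t' u := ⟨h.1.trans ht, fun i => (h.2 i).trans ht⟩

theorem BN.add {x0 : Fin d → ℝ} {R t t' : ℝ} {u v : ZP d} (hR : 0 ≤ R) (h : BN x0 R t u)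
    (h' : BN x0 R t' v) : BN x0 R (t + t') (u + v) := by
  refine ⟨?_, fun i => ?_⟩
  · rw [Prod.fst_add, Int.cast_add]
    have := abs_add_le (u.1 : ℝ) (v.1 : ℝ)
    nlinarith [h.1, h'.1]
  · rw [Prod.fst_add, Prod.snd_add, Pi.add_apply, Int.cast_add, Int.cast_add]
    have h1 := h.2 i
    have h2 := h'.2 i
    rw [abs_le] at *
    constructor <;> nlinarith [h1.1, h1.2, h2.1, h2.2]

theorem BN.neg {x0 : Fin d → ℝ} {R t : ℝ} {u : ZP d} (h : BN x0 R t u) : BN x0 R t (-u) := by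
  refine ⟨?_, fun i => ?_⟩
  · rw [Prod.fst_neg, Int.cast_neg, abs_neg]; exact h.1
  · rw [Prod.fst_neg, Prod.snd_neg, Pi.neg_apply, Int.cast_neg, Int.cast_neg]
    have h1 := h.2 i
    rw [abs_le] at *
    constructor <;> nlinarith [h1.1, h1.2]

theorem BN.sub {x0 : Fin d → ℝ} {R t t' : ℝ} {u v : ZP d} (hR : 0 ≤ R) (h : BN x0 R t u)
    (h' : BN x0 R t' v) : BN x0 R (t + t') (u - v) := by
  rw [sub_eq_add_neg]; exact h.add hR h'.neg

/-- a box of integer points is finite -/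
theorem box_finite (V : ℝ) : {u : ZP d | |(u.1 : ℝ)| ≤ V ∧ ∀ i, |(u.2 i : ℝ)| ≤ V}.Finite := by
  have h1 : (Set.Icc (-⌈V⌉) ⌈V⌉ ×ˢ Set.Icc (fun _ : Fin d => -⌈V⌉) (fun _ => ⌈V⌉)).Finite :=
    (Set.finite_Icc _ _).prod (Set.finite_Icc _ _)
  refine h1.subset ?_
  rintro ⟨a, b⟩ ⟨ha, hb⟩
  have key : ∀ z : ℤ, |(z : ℝ)| ≤ V → -⌈V⌉ ≤ z ∧ z ≤ ⌈V⌉ := by
    intro z hz
    rw [abs_le] at hz
    have h2 : V ≤ ⌈V⌉ := Int.le_ceil V
    constructor
    · have : ((-⌈V⌉ : ℤ) : ℝ) ≤ z := by push_cast; linarith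
      exact_mod_cast this
    · have : (z : ℝ) ≤ (⌈V⌉ : ℤ) := by linarith
      exact_mod_cast this
  refine ⟨⟨(key a ha).1, (key a ha).2⟩, ⟨fun i => (key _ (hb i)).1, fun i => (key _ (hb i)).2⟩⟩

theorem BN_finite (x0 : Fin d → ℝ) (R t : ℝ) (hR : 0 < R) : {u : ZP d | BN x0 R t u}.Finite := by
  refine (box_finite (d := d) (t / R + (|t| + t / R * (∑ i, |x0 i|)))).subset ?_
  rintro u ⟨h1, h2⟩
  have ht : 0 ≤ t := le_trans (by positivity) h1
  have h3 : |(u.1 : ℝ)| ≤ t / R := by rw [le_div_iff₀ hR]; linarith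
  have h4 : 0 ≤ ∑ i, |x0 i| := Finset.sum_nonneg fun i _ => abs_nonneg _
  have h5 : 0 ≤ t / R := by positivity
  refine ⟨by nlinarith [mul_nonneg h5 h4, abs_nonneg t], fun i => ?_⟩
  have h6 : |x0 i| ≤ ∑ i, |x0 i| :=
    Finset.single_le_sum (f := fun i => |x0 i|) (fun i _ => abs_nonneg _) (Finset.mem_univ i)
  have h7 : |(u.2 i : ℝ)| ≤ |(u.2 i : ℝ) - u.1 * x0 i| + |(u.1 : ℝ) * x0 i| := by
    have := abs_add_le ((u.2 i : ℝ) - u.1 * x0 i) ((u.1 : ℝ) * x0 i)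
    simpa using this
  have h8 : |(u.1 : ℝ) * x0 i| ≤ t / R * ∑ i, |x0 i| := by
    rw [abs_mul]; exact mul_le_mul h3 h6 (abs_nonneg _) h5
  have h9 := h2 i
  have h10 := le_abs_self t
  linarith

theorem GG_finite (A : Matrix (Fin (d + 1)) (Fin m) ℝ) (x0 : Fin d → ℝ) (R t c : ℝ) (hR : 0 < R) :
    (GG A x0 R t c).Finite :=
  (BN_finite x0 R t hR).subset fun _ hu => hu.1

theorem GV_finite (A : Matrix (Fin (d + 1)) (Fin m) ℝ) (V c : ℝ) : (GV A V c).Finite :=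
  (box_finite (d := d) V).subset fun _ hu => ⟨hu.1, hu.2.1⟩

theorem zero_mem_GG (A : Matrix (Fin (d + 1)) (Fin m) ℝ) (x0 : Fin d → ℝ) (R t c : ℝ)
    (ht : 0 ≤ t) (hc : 0 ≤ c) : (0 : ZP d) ∈ GG A x0 R t c := by
  refine ⟨⟨by simpa using ht, fun i => by simpa using ht⟩, ⟨fun _ => 0, fun j => ?_⟩⟩
  rw [lamz_zero]; simpa using hc

end Q91.JC
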