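import Pool.Agent.Q91.JC.Stm

namespace Q91.JC

open MeasureTheory Finset

theorem card_Icc_lower (x a : ℝ) (ha : 1 ≤ a) :
    a ≤ ((Finset.Icc ⌈x - a⌉ ⌊x + a⌋).card : ℝ) := by
  rw [Int.card_Icc]
  have h1 : x + a - 1 < ⌊x + a⌋ := Int.sub_one_lt_floor _
  have h2 : (⌈x - a⌉ : ℝ) < x - a + 1 := Int.ceil_lt_add_one _
  have h3 : ((⌊x + a⌋ + 1 - ⌈x - a⌉ : ℤ) : ℝ) ≤ ((⌊x + a⌋ + 1 - ⌈x - a⌉).toNat : ℝ) := by
    exact_mod_cast Int.self_le_toNat _
  push_cast at h3
  linarith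

theorem card_Icc_upper (x a : ℝ) (ha : 0 ≤ a) :
    ((Finset.Icc ⌈x - a⌉ ⌊x + a⌋).card : ℝ) ≤ 2 * a + 1 := by
  rw [Int.card_Icc]
  have h1 : (⌊x + a⌋ : ℝ) ≤ x + a := Int.floor_le _
  have h2 : x - a ≤ (⌈x - a⌉ : ℝ) := Int.le_ceil _
  rcases le_or_gt 0 (⌊x + a⌋ + 1 - ⌈x - a⌉) with h3 | h3
  · have h4 : (((⌊x + a⌋ + 1 - ⌈x - a⌉).toNat : ℤ) : ℝ) = ((⌊x + a⌋ + 1 - ⌈x - a⌉ : ℤ) : ℝ) := by
      rw [Int.toNat_of_nonneg h3]
    have h5 : (((⌊x + a⌋ + 1 - ⌈x - a⌉).toNat : ℕ) : ℝ) = ((⌊x + a⌋ + 1 - ⌈x - a⌉ : ℤ) : ℝ) := by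
      rw [← h4]; norm_cast
    rw [h5]; push_cast; linarith
  · have h4 : (⌊x + a⌋ + 1 - ⌈x - a⌉).toNat = 0 := Int.toNat_of_nonpos h3.le
    rw [h4]; push_cast; linarith

theorem mem_Icc_of_abs (x a : ℝ) (z : ℤ) (h : |(z : ℝ) - x| ≤ a) :
    z ∈ Finset.Icc ⌈x - a⌉ ⌊x + a⌋ := by
  rw [abs_le] at h
  rw [Finset.mem_Icc]
  constructor
  · apply Int.ceil_le.mpr; linarith [h.1]
  · apply Int.le_floor.mpr; linarith [h.2]

theorem abs_of_mem_Icc (x a : ℝ) (z : ℤ) (h : z ∈ Finset.Icc ⌈x - a⌉ ⌊x + a⌋) :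
    |(z : ℝ) - x| ≤ a := by
  rw [Finset.mem_Icc] at h
  have h1 := Int.ceil_le.mp h.1
  have h2 := Int.le_floor.mp h.2
  rw [abs_le]
  constructor <;> linarith

theorem xc : S_XC := by
  intro d Q x0 R hQ h4
  have hQ0 : 0 < (Q : ℝ) := by exact_mod_cast hQ
  have hfin : {X : ZP d | (Q : ℤ) ≤ X.1 ∧ X.1 < 2 * Q ∧
      ∀ i, |(X.2 i : ℝ) - X.1 * x0 i| ≤ Q * R / 4}.Finite := by
    refine (BN_finite x0 1 (2 * Q + Q * R / 4) one_pos).subset ?_
    rintro X ⟨h1, h2, h3⟩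
    have h1' : (Q : ℝ) ≤ X.1 := by exact_mod_cast h1
    have h2' : (X.1 : ℝ) ≤ 2 * Q := by exact_mod_cast h2.le
    refine ⟨?_, fun i => (h3 i).trans (by linarith)⟩
    rw [one_mul, abs_of_nonneg (by linarith)]; linarith
  refine ⟨hfin, ?_⟩
  let S : Finset (Σ _ : ℤ, (Fin d → ℤ)) := (Finset.Ico (Q : ℤ) (2 * Q)).sigma
    (fun q => Fintype.piFinset (fun i => Finset.Icc ⌈(q : ℝ) * x0 i - Q * R / 4⌉
      ⌊(q : ℝ) * x0 i + Q * R / 4⌋))
  have h1 : S.card ≤ hfin.toFinset.card := by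
    apply Finset.card_le_card_of_injOn (fun z => ((z.1, z.2) : ZP d))
    · rintro ⟨q, p⟩ hz
      have hz' := Finset.mem_sigma.mp (Finset.mem_coe.mp hz)
      simp only [Fintype.mem_piFinset, Finset.mem_Ico] at hz'
      refine Finset.mem_coe.mpr (hfin.mem_toFinset.mpr ⟨hz'.1.1, hz'.1.2, fun i => ?_⟩)
      exact abs_of_mem_Icc _ _ _ (hz'.2 i)
    · rintro ⟨q, p⟩ _ ⟨q', p'⟩ _ h
      simp only [Prod.mk.injEq] at h
      obtain ⟨rfl, rfl⟩ := h
      rfl
  rw [Set.ncard_eq_toFinset_card _ hfin]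
  have h2 : (Q : ℝ) * (Q * R / 4) ^ d ≤ (S.card : ℝ) := by
    simp only [S, Finset.card_sigma, Fintype.card_piFinset]
    push_cast
    have h3 : ∀ q ∈ Finset.Ico (Q : ℤ) (2 * Q), (Q * R / 4) ^ d ≤
        ∏ i : Fin d, ((Finset.Icc ⌈(q : ℝ) * x0 i - Q * R / 4⌉
          ⌊(q : ℝ) * x0 i + Q * R / 4⌋).card : ℝ) := by
      intro q _
      calc (Q * R / 4) ^ d = ∏ _i : Fin d, (Q * R / 4) := by
            rw [Finset.prod_const, Finset.card_univ, Fintype.card_fin]
        _ ≤ _ := by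
          apply Finset.prod_le_prod
          · intro i _; linarith
          · intro i _
            exact card_Icc_lower _ _ (by linarith)
    refine le_trans ?_ (Finset.sum_le_sum h3)
    rw [Finset.sum_const, Int.card_Ico, nsmul_eq_mul]
    have h4 : ((2 * (Q : ℤ) - Q).toNat : ℝ) = Q := by
      have : (2 * (Q : ℤ) - Q).toNat = Q := by omega
      rw [this]
    rw [h4]
  have h3 : (S.card : ℝ) ≤ (hfin.toFinset.card : ℝ) := by exact_mod_cast h1
  exact h2.trans h3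

open scoped Classical in
theorem ext : S_EXT := by
  intro Ω G Os Gs K E a b B hO hG hE hb hB h hab
  have hOc : 0 < (Os.card : ℝ) := by exact_mod_cast hO.card_pos
  have hGc : 0 < (Gs.card : ℝ) := by exact_mod_cast hG.card_pos
  have h1 : ∑ ω ∈ Os, ∑ g ∈ Gs, ∑ k ∈ range (K + 1), b k * E k ω g ≤
      ∑ ω ∈ Os, B * (Gs.card : ℝ) ^ 2 := by
    calc ∑ ω ∈ Os, ∑ g ∈ Gs, ∑ k ∈ range (K + 1), b k * E k ω g
        = ∑ k ∈ range (K + 1), b k * ∑ ω ∈ Os, ∑ g ∈ Gs, E k ω g := by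
          have e1 : ∀ ω ∈ Os, ∑ g ∈ Gs, ∑ k ∈ range (K + 1), b k * E k ω g =
              ∑ k ∈ range (K + 1), ∑ g ∈ Gs, b k * E k ω g := fun ω _ => Finset.sum_comm
          rw [Finset.sum_congr rfl e1, Finset.sum_comm]
          apply Finset.sum_congr rfl
          intro k _
          rw [Finset.mul_sum]
          apply Finset.sum_congr rfl
          intro ω _
          rw [Finset.mul_sum]
      _ ≤ ∑ k ∈ range (K + 1), b k * (B * a k * (Os.card : ℝ) * (Gs.card : ℝ) ^ 2) := by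
          apply Finset.sum_le_sum
          intro k hk
          exact mul_le_mul_of_nonneg_left (h k (Nat.lt_succ_iff.mp (Finset.mem_range.mp hk))) (hb k)
      _ = (∑ k ∈ range (K + 1), a k * b k) * (B * (Os.card : ℝ) * (Gs.card : ℝ) ^ 2) := by
          rw [Finset.sum_mul]
          apply Finset.sum_congr rfl
          intro k _; ring
      _ ≤ 1 * (B * (Os.card : ℝ) * (Gs.card : ℝ) ^ 2) :=
          mul_le_mul_of_nonneg_right hab (by positivity)
      _ = ∑ ω ∈ Os, B * (Gs.card : ℝ) ^ 2 := by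
          rw [Finset.sum_const, nsmul_eq_mul]; ring
  obtain ⟨ω, hω, h2⟩ := Finset.exists_le_of_sum_le hO h1
  refine ⟨ω, hω, Gs.filter (fun g => ∑ k ∈ range (K + 1), b k * E k ω g ≤ 2 * B * Gs.card),
    Finset.filter_subset _ _, ?_, ?_⟩
  · have h3 : ((Gs.filter (fun g => ¬ ∑ k ∈ range (K + 1), b k * E k ω g ≤ 2 * B * Gs.card)).card : ℝ)
        * (2 * B * Gs.card) ≤ B * (Gs.card : ℝ) ^ 2 := by
      refine le_trans ?_ h2
      have hnn : ∀ g ∈ Gs, 0 ≤ ∑ k ∈ range (K + 1), b k * E k ω g := fun g _ =>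
        Finset.sum_nonneg fun k _ => mul_nonneg (hb k) (hE k ω g)
      calc ((Gs.filter (fun g => ¬ ∑ k ∈ range (K + 1), b k * E k ω g ≤ 2 * B * Gs.card)).card : ℝ)
        * (2 * B * Gs.card) = ∑ g ∈ Gs.filter (fun g => ¬ ∑ k ∈ range (K + 1), b k * E k ω g ≤
          2 * B * Gs.card), (2 * B * Gs.card) := by rw [Finset.sum_const, nsmul_eq_mul]
        _ ≤ ∑ g ∈ Gs.filter (fun g => ¬ ∑ k ∈ range (K + 1), b k * E k ω g ≤ 2 * B * Gs.card),
            ∑ k ∈ range (K + 1), b k * E k ω g := by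
            apply Finset.sum_le_sum
            intro g hg
            exact (not_le.mp (Finset.mem_filter.mp hg).2).le
        _ ≤ _ := Finset.sum_le_sum_of_subset_of_nonneg (Finset.filter_subset _ _)
            (fun g hg _ => hnn g hg)
    have h4 : ((Gs.filter (fun g => ∑ k ∈ range (K + 1), b k * E k ω g ≤ 2 * B * Gs.card)).card : ℝ) +
        ((Gs.filter (fun g => ¬ ∑ k ∈ range (K + 1), b k * E k ω g ≤ 2 * B * Gs.card)).card : ℝ) =
        (Gs.card : ℝ) := by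
      have := Finset.card_filter_add_card_filter_not (s := Gs)
        (fun g => ∑ k ∈ range (K + 1), b k * E k ω g ≤ 2 * B * Gs.card)
      exact_mod_cast this
    have h5 : ((Gs.filter (fun g => ¬ ∑ k ∈ range (K + 1), b k * E k ω g ≤ 2 * B * Gs.card)).card : ℝ)
        ≤ (Gs.card : ℝ) / 2 := by
      have h6 : 0 < 2 * B * (Gs.card : ℝ) := by positivity
      rw [← mul_le_mul_iff_left₀ h6]
      refine h3.trans (le_of_eq ?_)
      ring
    linarith
  · intro g hg k hk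
    have h3 := (Finset.mem_filter.mp hg).2
    refine le_trans ?_ h3
    have h4 := Finset.single_le_sum (f := fun k => b k * E k ω g)
      (fun k _ => mul_nonneg (hb k) (hE k ω g)) (Finset.mem_range.mpr (Nat.lt_succ_of_le hk))
    rw [mul_comm (E k ω g)]; exact h4

open scoped Classical in
/-- the number of `X` with a given range -/
theorem card_region {d : ℕ} (Q : ℕ) (S : Finset (ZP d)) (c : ℤ → Fin d → ℝ) (H : ℝ) (hH : 0 ≤ H)
    (h1 : ∀ X ∈ S, (Q : ℤ) ≤ X.1 ∧ X.1 < 2 * Q) (h2 : ∀ X ∈ S, ∀ i, |(X.2 i : ℝ) - c X.1 i| ≤ H) :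
    (S.card : ℝ) ≤ Q * (2 * H + 1) ^ d := by
  let S' : Finset (Σ _ : ℤ, (Fin d → ℤ)) := (Finset.Ico (Q : ℤ) (2 * Q)).sigma
    (fun q => Fintype.piFinset (fun i => Finset.Icc ⌈c q i - H⌉ ⌊c q i + H⌋))
  have h3 : S.card ≤ S'.card := by
    apply Finset.card_le_card_of_injOn (fun X => ⟨X.1, X.2⟩)
    · intro X hX
      refine Finset.mem_coe.mpr (Finset.mem_sigma.mpr ⟨?_, ?_⟩)
      · exact Finset.mem_Ico.mpr (h1 X hX)
      · rw [Fintype.mem_piFinset]
        intro i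
        exact mem_Icc_of_abs _ _ _ (h2 X hX i)
    · rintro ⟨q, p⟩ _ ⟨q', p'⟩ _ h
      simp only [Sigma.mk.injEq, heq_eq_eq] at h
      obtain ⟨rfl, rfl⟩ := h
      rfl
  have h4 : (S'.card : ℝ) ≤ Q * (2 * H + 1) ^ d := by
    simp only [S', Finset.card_sigma, Fintype.card_piFinset]
    push_cast
    have h5 : ∀ q ∈ Finset.Ico (Q : ℤ) (2 * Q),
        ∏ i : Fin d, ((Finset.Icc ⌈c q i - H⌉ ⌊c q i + H⌋).card : ℝ) ≤ (2 * H + 1) ^ d := by
      intro q _
      calc ∏ i : Fin d, ((Finset.Icc ⌈c q i - H⌉ ⌊c q i + H⌋).card : ℝ)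
          ≤ ∏ _i : Fin d, (2 * H + 1) :=
            Finset.prod_le_prod (fun i _ => Nat.cast_nonneg _) (fun i _ => card_Icc_upper _ _ hH)
        _ = (2 * H + 1) ^ d := by
            rw [Finset.prod_const, Finset.card_univ, Fintype.card_fin]
    refine (Finset.sum_le_sum h5).trans ?_
    rw [Finset.sum_const, Int.card_Ico, nsmul_eq_mul]
    have h6 : ((2 * (Q : ℤ) - Q).toNat : ℝ) = Q := by
      have : (2 * (Q : ℤ) - Q).toNat = Q := by omega
      rw [this]
    rw [h6]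
  have h5 : (S.card : ℝ) ≤ (S'.card : ℝ) := by exact_mod_cast h3
  exact h5.trans h4

open scoped Classical in
/-- fibrewise bound -/
theorem card_fib {d N : ℕ} (S : Finset (ZP d × (Fin d → Fin N))) (a b : ℝ) (hb : 0 ≤ b)
    (h1 : ((S.image Prod.fst).card : ℝ) ≤ a)
    (h2 : ∀ X ∈ S.image Prod.fst, ((S.filter (fun z => z.1 = X)).card : ℝ) ≤ b) :
    (S.card : ℝ) ≤ a * b := by
  have h3 : S.card = ∑ X ∈ S.image Prod.fst, (S.filter (fun z => z.1 = X)).card :=
    Finset.card_eq_sum_card_fiberwise (fun z hz => Finset.mem_coe.mpr (Finset.mem_image_of_mem _ hz))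
  rw [h3]
  push_cast
  calc ∑ X ∈ S.image Prod.fst, ((S.filter (fun z => z.1 = X)).card : ℝ)
      ≤ ∑ X ∈ S.image Prod.fst, b := Finset.sum_le_sum h2
    _ = (S.image Prod.fst).card * b := by rw [Finset.sum_const, nsmul_eq_mul]
    _ ≤ a * b := mul_le_mul_of_nonneg_right h1 hb

open scoped Classical in
/-- the number of grid indices in an interval -/
theorem card_grid (N : ℕ) (c δ H : ℝ) (hN : 1 ≤ N) (hδ : 0 < δ) (hH : 0 ≤ H) (hHN : δ ≤ 2 * H * N) :
    (((Finset.univ : Finset (Fin N)).filter (fun k : Fin N => |c + δ * ((k : ℕ) : ℝ) / N| ≤ H)).card : ℝ) ≤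
      4 * H / δ * N := by
  have hN0 : 0 < (N : ℝ) := by exact_mod_cast hN
  have h1 : ((Finset.univ : Finset (Fin N)).filter (fun k : Fin N => |c + δ * ((k : ℕ) : ℝ) / N| ≤ H)).card ≤
      (Finset.Icc ⌈(-(c * N / δ)) - H * N / δ⌉ ⌊(-(c * N / δ)) + H * N / δ⌋).card := by
    apply Finset.card_le_card_of_injOn (fun k : Fin N => ((k : ℕ) : ℤ))
    · intro k hk
      have hk' := (Finset.mem_filter.mp hk).2
      refine Finset.mem_coe.mpr (mem_Icc_of_abs _ _ _ ?_)
      have e1 : (((k : ℕ) : ℤ) : ℝ) - (-(c * N / δ)) = (c + δ * ((k : ℕ) : ℝ) / N) * (N / δ) := by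
        push_cast; field_simp; ring
      rw [e1, abs_mul, abs_of_pos (by positivity : 0 < (N : ℝ) / δ)]
      calc |c + δ * ((k : ℕ) : ℝ) / N| * (N / δ) ≤ H * (N / δ) :=
            mul_le_mul_of_nonneg_right hk' (by positivity)
        _ = H * N / δ := by ring
    · intro k _ k' _ h
      apply Fin.ext
      have h' : ((k : ℕ) : ℤ) = ((k' : ℕ) : ℤ) := h
      exact_mod_cast h'
  have h2 : (((Finset.univ : Finset (Fin N)).filter
      (fun k : Fin N => |c + δ * ((k : ℕ) : ℝ) / N| ≤ H)).card : ℝ) ≤ 2 * (H * N / δ) + 1 :=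
    le_trans (by exact_mod_cast h1) (card_Icc_upper _ _ (by positivity))
  have h3 : 1 ≤ 2 * (H * N / δ) := by
    rw [show 2 * (H * N / δ) = (2 * H * N) / δ by ring, le_div_iff₀ hδ]; linarith
  calc _ ≤ 2 * (H * N / δ) + 1 := h2
    _ ≤ 2 * (H * N / δ) + 2 * (H * N / δ) := by linarith
    _ = _ := by ring

open scoped Classical in
theorem cl : S_CL := by
  intro d Q N Xs Wf u1 θ0 y δ T Θ h hQ hN hδ hT hΘ hh hX hW hgrid hy
  have hQ0 : 0 < (Q : ℝ) := by exact_mod_cast hQ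
  have hN0 : 0 < (N : ℝ) := by exact_mod_cast hN
  obtain ⟨S, hS⟩ : ∃ S : Finset (ZP d × (Fin d → Fin N)),
    S = (Xs ×ˢ (Finset.univ : Finset (Fin d → Fin N))).filter (fun z => ∀ i,
      |((Wf z.1).2 i : ℝ) + u1.2 i + grid θ0 δ N z.2 i - (((Wf z.1).1 : ℝ) + u1.1) * y i| ≤
        3 * Q * h) := ⟨_, rfl⟩
  rw [← hS]
  have hmem : ∀ z ∈ S, z.1 ∈ Xs ∧ ∀ i,
      |((Wf z.1).2 i : ℝ) + u1.2 i + grid θ0 δ N z.2 i - (((Wf z.1).1 : ℝ) + u1.1) * y i| ≤
        3 * Q * h := by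
    intro z hz
    rw [hS] at hz
    obtain ⟨h1, h2⟩ := Finset.mem_filter.mp hz
    exact ⟨(Finset.mem_product.mp h1).1, h2⟩
  have hreg : ((S.image Prod.fst).card : ℝ) ≤ Q * (6 * Q * h + 8 * T + 2 * Θ + 1) ^ d := by
    have h1 := card_region Q (S.image Prod.fst) (fun q i => ((q : ℝ) + u1.1) * y i - u1.2 i)
      (3 * Q * h + 4 * T + Θ) (by positivity)
      (fun X hXS => by
        obtain ⟨z, hz, rfl⟩ := Finset.mem_image.mp hXS
        exact hX z.1 (hmem z hz).1)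
      (fun X hXS i => by
        obtain ⟨z, hz, rfl⟩ := Finset.mem_image.mp hXS
        obtain ⟨hz1, hz2⟩ := hmem z hz
        have e1 := hz2 i
        have e2 := (hW z.1 hz1).1
        have e3 := (hW z.1 hz1).2 i
        have e4 := hgrid z.2 i
        have e5 : |(((Wf z.1).1 : ℝ) - z.1.1) * y i| ≤ T * 3 := by
          rw [abs_mul]
          exact mul_le_mul e2 (hy i) (abs_nonneg _) hT
        have g1 := abs_le.mp e1
        have g3 := abs_le.mp e3
        have g4 := abs_le.mp e4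
        have g5 := abs_le.mp e5
        rw [abs_le]
        constructor
        · nlinarith [g1.1, g1.2, g3.1, g3.2, g4.1, g4.2, g5.1, g5.2]
        · nlinarith [g1.1, g1.2, g3.1, g3.2, g4.1, g4.2, g5.1, g5.2])
    refine h1.trans (le_of_eq ?_)
    ring
  constructor
  · apply card_fib S _ _ (by positivity) hreg
    intro X _
    have h1 : (S.filter (fun z => z.1 = X)).card ≤ (Finset.univ : Finset (Fin d → Fin N)).card := by
      apply Finset.card_le_card_of_injOn (fun z => z.2)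
      · intro z _; exact Finset.mem_coe.mpr (Finset.mem_univ _)
      · intro z hz z' hz' hzz
        have e1 := (Finset.mem_filter.mp hz).2
        have e2 := (Finset.mem_filter.mp hz').2
        exact Prod.ext (e1.trans e2.symm) hzz
    rw [Finset.card_univ, Fintype.card_fun, Fintype.card_fin, Fintype.card_fin] at h1
    exact_mod_cast h1
  · intro hδN
    apply card_fib S _ _ (by positivity) hreg
    intro X _
    have h1 : (S.filter (fun z => z.1 = X)).card ≤ (Fintype.piFinset (fun i : Fin d =>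
        (Finset.univ : Finset (Fin N)).filter (fun k : Fin N =>
          |((((Wf X).2 i : ℝ) + u1.2 i + θ0 i) - (((Wf X).1 : ℝ) + u1.1) * y i) +
            δ * ((k : ℕ) : ℝ) / N| ≤ 3 * Q * h))).card := by
      apply Finset.card_le_card_of_injOn (fun z => z.2)
      · intro z hz
        obtain ⟨e0, e1⟩ := Finset.mem_filter.mp hz
        obtain ⟨hz1, hz2⟩ := hmem z e0
        rw [Finset.mem_coe, Fintype.mem_piFinset]
        intro i
        refine Finset.mem_filter.mpr ⟨Finset.mem_univ _, ?_⟩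
        have e2 := hz2 i
        rw [e1] at e2
        refine le_trans (le_of_eq ?_) e2
        congr 1
        unfold grid; ring
      · intro z hz z' hz' hzz
        have e1 := (Finset.mem_filter.mp hz).2
        have e2 := (Finset.mem_filter.mp hz').2
        exact Prod.ext (e1.trans e2.symm) hzz
    have h2 : ((S.filter (fun z => z.1 = X)).card : ℝ) ≤ ((Fintype.piFinset (fun i : Fin d =>
        (Finset.univ : Finset (Fin N)).filter (fun k : Fin N =>
          |((((Wf X).2 i : ℝ) + u1.2 i + θ0 i) - (((Wf X).1 : ℝ) + u1.1) * y i) +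
            δ * ((k : ℕ) : ℝ) / N| ≤ 3 * Q * h))).card : ℝ) := by exact_mod_cast h1
    refine h2.trans ?_
    rw [Fintype.card_piFinset]
    push_cast
    calc ∏ i : Fin d, (((Finset.univ : Finset (Fin N)).filter (fun k : Fin N =>
          |((((Wf X).2 i : ℝ) + u1.2 i + θ0 i) - (((Wf X).1 : ℝ) + u1.1) * y i) +
            δ * ((k : ℕ) : ℝ) / N| ≤ 3 * Q * h)).card : ℝ)
        ≤ ∏ _i : Fin d, (12 * Q * h / δ * N) := by
          apply Finset.prod_le_prod (fun i _ => Nat.cast_nonneg _)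
          intro i _
          refine (card_grid N _ δ (3 * Q * h) hN hδ (by positivity) (by linarith)).trans (le_of_eq ?_)
          ring
      _ = (12 * Q * h / δ * N) ^ d := by
          rw [Finset.prod_const, Finset.card_univ, Fintype.card_fin]

end Q91.JC
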