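import Pool.Agent.Q91.JC.Stm

namespace Q91.JC

open MeasureTheory Finset

theorem floor_mem (x : ℝ) (h : |x| ≤ 2) : ⌊x⌋ ∈ Finset.Icc (-2 : ℤ) 2 := by
  rw [abs_le] at h
  rw [Finset.mem_Icc]
  constructor
  · apply Int.le_floor.mpr; push_cast; exact h.1
  · have : (⌊x⌋ : ℝ) ≤ 2 := (Int.floor_le x).trans h.2
    exact_mod_cast this

open scoped Classical in
theorem db : S_DB := by
  intro d m A x0 R t c hR ht hc
  have hfin2 := GG_finite A x0 R (2 * t) (2 * c) hR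
  have hfin1 := GG_finite A x0 R t c hR
  have hk : ∀ u : ZP d, ∃ k : Fin m → ℤ, Near (2 * c) (lamz A u) → ∀ j, |lamz A u j - k j| ≤ 2 * c := by
    intro u
    by_cases h : Near (2 * c) (lamz A u)
    · obtain ⟨k, hk⟩ := h
      exact ⟨k, fun _ => hk⟩
    · exact ⟨fun _ => 0, fun h' => absurd h' h⟩
  choose k hk using hk
  let f : ZP d → ℤ × (Fin d → ℤ) × (Fin m → ℤ) := fun u =>
    (⌊R * (u.1 : ℝ) / t⌋, fun i => ⌊((u.2 i : ℝ) - u.1 * x0 i) / t⌋,
      fun j => ⌊(lamz A u j - k u j) / c⌋)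
  let tt : Finset (ℤ × (Fin d → ℤ) × (Fin m → ℤ)) := (Finset.Icc (-2 : ℤ) 2) ×ˢ
    ((Fintype.piFinset fun _ : Fin d => Finset.Icc (-2 : ℤ) 2) ×ˢ
      (Fintype.piFinset fun _ : Fin m => Finset.Icc (-2 : ℤ) 2))
  rw [Set.ncard_eq_toFinset_card _ hfin2, Set.ncard_eq_toFinset_card _ hfin1]
  have hcard : tt.card = 5 ^ (1 + d + m) := by
    have h5 : (Finset.Icc (-2 : ℤ) 2).card = 5 := by decide
    simp only [tt, Finset.card_product, Fintype.card_piFinset, Finset.prod_const, Finset.card_univ,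
      Fintype.card_fin, h5]
    rw [pow_add, pow_add, pow_one]; ring
  have hmap : ∀ u ∈ hfin2.toFinset, f u ∈ tt := by
    intro u hu
    obtain ⟨⟨h1, h2⟩, h3⟩ := hfin2.mem_toFinset.mp hu
    refine Finset.mem_product.mpr ⟨?_, Finset.mem_product.mpr ⟨?_, ?_⟩⟩
    · apply floor_mem
      rw [abs_div, abs_of_pos ht, div_le_iff₀ ht, abs_mul, abs_of_pos hR]
      exact h1
    · rw [Fintype.mem_piFinset]
      intro i
      apply floor_mem
      rw [abs_div, abs_of_pos ht, div_le_iff₀ ht]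
      exact h2 i
    · rw [Fintype.mem_piFinset]
      intro j
      apply floor_mem
      rw [abs_div, abs_of_pos hc, div_le_iff₀ hc]
      exact hk u h3 j
  have h := Finset.card_le_mul_card_image_of_maps_to hmap hfin1.toFinset.card (by
    intro b _
    rcases (hfin2.toFinset.filter (fun u => f u = b)).eq_empty_or_nonempty with h0 | ⟨u', hu'⟩
    · rw [h0]; simp
    · obtain ⟨hu1', hu2'⟩ := Finset.mem_filter.mp hu'
      apply Finset.card_le_card_of_injOn (fun u => u - u')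
      · intro u hu
        obtain ⟨hu1, hu2⟩ := Finset.mem_filter.mp hu
        have hfe : f u = f u' := hu2.trans hu2'.symm
        simp only [f, Prod.mk.injEq] at hfe
        obtain ⟨e1, e2, e3⟩ := hfe
        refine Finset.mem_coe.mpr (hfin1.mem_toFinset.mpr ⟨⟨?_, fun i => ?_⟩,
          ⟨fun j => k u j - k u' j, fun j => ?_⟩⟩)
        · have g1 := Int.abs_sub_lt_one_of_floor_eq_floor e1
          rw [← sub_div, abs_div, abs_of_pos ht, div_lt_one ht, ← mul_sub, abs_mul,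
            abs_of_pos hR] at g1
          rw [Prod.fst_sub, Int.cast_sub]
          exact g1.le
        · have g1 := Int.abs_sub_lt_one_of_floor_eq_floor (congrFun e2 i)
          rw [← sub_div, abs_div, abs_of_pos ht, div_lt_one ht] at g1
          rw [Prod.fst_sub, Prod.snd_sub, Pi.sub_apply, Int.cast_sub, Int.cast_sub]
          refine le_trans (le_of_eq ?_) g1.le
          congr 1; ring
        · have g1 := Int.abs_sub_lt_one_of_floor_eq_floor (congrFun e3 j)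
          rw [← sub_div, abs_div, abs_of_pos hc, div_lt_one hc] at g1
          rw [lamz_sub, Int.cast_sub]
          refine le_trans (le_of_eq ?_) g1.le
          congr 1; ring
      · intro u _ v _ huv
        exact sub_left_injective huv)
  rw [hcard] at h
  exact h.trans (le_of_eq (mul_comm _ _))

open scoped Classical in
theorem syn : S_SYN := by
  intro d m A δ hδ
  let f : ZP d → (Fin m → ℤ) := fun v j => ⌊Int.fract (lamz A v j) / δ⌋
  have hfin : (Set.range f).Finite := by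
    refine (Set.finite_Icc (fun _ : Fin m => (0 : ℤ)) (fun _ => ⌊1 / δ⌋)).subset ?_
    rintro _ ⟨v, rfl⟩
    refine ⟨fun j => ?_, fun j => ?_⟩
    · exact Int.floor_nonneg.mpr (div_nonneg (Int.fract_nonneg _) hδ.le)
    · exact Int.floor_le_floor (div_le_div_of_nonneg_right (Int.fract_lt_one _).le hδ.le)
  have hg : ∀ c : Fin m → ℤ, ∃ v : ZP d, c ∈ Set.range f → f v = c := by
    intro c
    by_cases h : c ∈ Set.range f
    · obtain ⟨v, hv⟩ := h
      exact ⟨v, fun _ => hv⟩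
    · exact ⟨0, fun h' => absurd h' h⟩
  choose g hg using hg
  let S : ℝ := ∑ c ∈ hfin.toFinset, (|((g c).1 : ℝ)| + ∑ i, |((g c).2 i : ℝ)|)
  have hnn : ∀ c ∈ hfin.toFinset, 0 ≤ (|((g c).1 : ℝ)| + ∑ i, |((g c).2 i : ℝ)|) := fun c _ =>
    add_nonneg (abs_nonneg _) (Finset.sum_nonneg fun i _ => abs_nonneg _)
  have hS0 : 0 ≤ S := Finset.sum_nonneg hnn
  refine ⟨1 + S, by linarith, fun v => ⟨v - g (f v), ?_, ?_, fun i => ?_⟩⟩
  · have h1 : f (g (f v)) = f v := hg (f v) ⟨v, rfl⟩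
    refine ⟨fun j => ⌊lamz A v j⌋ - ⌊lamz A (g (f v)) j⌋, fun j => ?_⟩
    have h2 := Int.abs_sub_lt_one_of_floor_eq_floor (congrFun h1 j)
    rw [← sub_div, abs_div, abs_of_pos hδ, div_lt_one hδ, abs_sub_comm] at h2
    rw [lamz_sub]
    push_cast
    refine le_trans (le_of_eq ?_) h2.le
    congr 1
    rw [← Int.self_sub_floor, ← Int.self_sub_floor]; ring
  · have h1 : |((g (f v)).1 : ℝ)| ≤ S := by
      have h2 := Finset.single_le_sum hnn (hfin.mem_toFinset.mpr ⟨v, rfl⟩ : f v ∈ hfin.toFinset)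
      have h3 : 0 ≤ ∑ i, |((g (f v)).2 i : ℝ)| := Finset.sum_nonneg fun i _ => abs_nonneg _
      linarith
    rw [Prod.fst_sub, Int.cast_sub, show ((v.1 : ℝ) - (g (f v)).1 - v.1) = -((g (f v)).1 : ℝ) by ring,
      abs_neg]
    linarith
  · have h1 : |((g (f v)).2 i : ℝ)| ≤ S := by
      have h2 := Finset.single_le_sum hnn (hfin.mem_toFinset.mpr ⟨v, rfl⟩ : f v ∈ hfin.toFinset)
      have h3 : |((g (f v)).2 i : ℝ)| ≤ ∑ i, |((g (f v)).2 i : ℝ)| :=
        Finset.single_le_sum (f := fun i => |((g (f v)).2 i : ℝ)|) (fun i _ => abs_nonneg _)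
          (Finset.mem_univ i)
      have h4 := abs_nonneg ((g (f v)).1 : ℝ)
      linarith
    rw [Prod.snd_sub, Pi.sub_apply, Int.cast_sub,
      show ((v.2 i : ℝ) - (g (f v)).2 i - v.2 i) = -((g (f v)).2 i : ℝ) by ring, abs_neg]
    linarith

theorem sc : S_SC := by
  intro d m A γ s' x0 R M hγ hs' hR hR1 hx0
  have hBfin := BN_finite (d := d) x0 R M hR
  refine ⟨4 ^ s' * ({u : ZP d | BN x0 R M u}.ncard : ℝ) + 1, ?_⟩
  intro V hV1 hVC
  have hV0 : 0 < V := by linarith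
  obtain ⟨ψ, hψ⟩ : ∃ ψ : ℝ, ψ = V ^ (-γ) := ⟨_, rfl⟩
  rw [← hψ] at hVC ⊢
  have hψ0 : 0 < ψ := by rw [hψ]; exact Real.rpow_pos_of_pos hV0 _
  have hψ1 : ψ ≤ 1 := by
    rw [hψ]; exact Real.rpow_le_one_of_one_le_of_nonpos hV1 (by linarith)
  have hex : ∃ I : ℕ, 2 * V / 2 ^ I ≤ ψ := by
    obtain ⟨n, hn⟩ := pow_unbounded_of_one_lt (2 * V / ψ) (one_lt_two : (1 : ℝ) < 2)
    refine ⟨n, ?_⟩
    rw [div_lt_iff₀ hψ0] at hn
    rw [div_le_iff₀ (by positivity)]; linarith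
  classical
  obtain ⟨I, hI, hImin⟩ : ∃ I : ℕ, 2 * V / 2 ^ I ≤ ψ ∧ ∀ j < I, ¬ 2 * V / 2 ^ j ≤ ψ :=
    ⟨Nat.find hex, Nat.find_spec hex, fun j hj => Nat.find_min hex hj⟩
  have hI1 : I ≠ 0 := by
    rintro rfl
    rw [pow_zero, div_one] at hI
    linarith
  have hI2 : ψ < 2 * (2 * V / 2 ^ I) := by
    have h1 := hImin (I - 1) (by omega)
    push Not at h1
    have h2 : (2 : ℝ) ^ I = 2 ^ (I - 1) * 2 := by
      rw [← pow_succ]; congr 1; omega
    rw [h2]
    refine lt_of_lt_of_eq h1 ?_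
    field_simp
  obtain ⟨i0, hi0, hmax⟩ := Finset.exists_max_image (range (I + 1))
    (fun i => ((GG A x0 R (2 * V / 2 ^ i) ψ).ncard : ℝ) * (2 : ℝ) ^ ((i : ℝ) * s')) ⟨0, by simp⟩
  have hi0I : i0 ≤ I := Nat.lt_succ_iff.mp (Finset.mem_range.mp hi0)
  have h2i0 : 0 < (2 : ℝ) ^ i0 := by positivity
  have hM : M ≤ 2 * V / 2 ^ i0 := by
    by_contra hcon
    push Not at hcon
    have h1 : (GG A x0 R (2 * V / 2 ^ i0) ψ).ncard ≤ {u : ZP d | BN x0 R M u}.ncard := by
      apply Set.ncard_le_ncard _ hBfin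
      intro u hu
      exact hu.1.mono hcon.le
    have h2 : (GV A V ψ).ncard ≤ (GG A x0 R (2 * V / 2 ^ 0) ψ).ncard := by
      apply Set.ncard_le_ncard _ (GG_finite A x0 R _ ψ hR)
      rintro u ⟨g1, g2, g3⟩
      refine ⟨⟨?_, fun i => ?_⟩, g3⟩
      · rw [pow_zero, div_one]
        have : R * |(u.1 : ℝ)| ≤ 1 * V := mul_le_mul hR1 g1 (abs_nonneg _) zero_le_one
        linarith
      · rw [pow_zero, div_one]
        have g4 : |(u.1 : ℝ) * x0 i| ≤ V * 1 := by
          rw [abs_mul]; exact mul_le_mul g1 (hx0 i) (abs_nonneg _) hV0.le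
        have g5 := abs_le.mp (g2 i)
        have g6 := abs_le.mp g4
        rw [abs_le]
        constructor <;> linarith [g5.1, g5.2, g6.1, g6.2]
    have h3 := hmax 0 (by simp)
    simp only [Nat.cast_zero, zero_mul, Real.rpow_zero, mul_one] at h3
    have h4 : (2 : ℝ) ^ ((i0 : ℝ) * s') ≤ 4 ^ s' * V ^ ((1 + γ) * s') := by
      have e1 : (2 : ℝ) ^ i0 ≤ 4 * V ^ (1 + γ) := by
        have e2 : (2 : ℝ) ^ i0 ≤ 2 ^ I := pow_le_pow_right₀ (by norm_num) hi0I
        have e3 : (2 : ℝ) ^ I * ψ < 4 * V := by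
          have : 0 < (2 : ℝ) ^ I := by positivity
          calc (2 : ℝ) ^ I * ψ < 2 ^ I * (2 * (2 * V / 2 ^ I)) := mul_lt_mul_of_pos_left hI2 this
            _ = 4 * V := by field_simp; ring
        have e4 : V ^ (1 + γ) * ψ = V := by
          rw [hψ, ← Real.rpow_add hV0]
          rw [show 1 + γ + -γ = 1 by ring, Real.rpow_one]
        have e5 : (2 : ℝ) ^ I * ψ < 4 * V ^ (1 + γ) * ψ := by
          rw [mul_assoc 4, e4]; exact e3
        exact e2.trans (lt_of_mul_lt_mul_right e5 hψ0.le).le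
      calc (2 : ℝ) ^ ((i0 : ℝ) * s') = ((2 : ℝ) ^ i0) ^ s' := by
            rw [Real.rpow_mul (by norm_num), Real.rpow_natCast]
        _ ≤ (4 * V ^ (1 + γ)) ^ s' := Real.rpow_le_rpow h2i0.le e1 hs'.le
        _ = 4 ^ s' * V ^ ((1 + γ) * s') := by
            rw [Real.mul_rpow (by norm_num) (by positivity), ← Real.rpow_mul hV0.le]
    have hVp : 0 < V ^ ((1 + γ) * s') := by positivity
    have h5 : (4 ^ s' * ({u : ZP d | BN x0 R M u}.ncard : ℝ) + 1) * V ^ ((1 + γ) * s') ≤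
        ({u : ZP d | BN x0 R M u}.ncard : ℝ) * (4 ^ s' * V ^ ((1 + γ) * s')) := by
      calc (4 ^ s' * ({u : ZP d | BN x0 R M u}.ncard : ℝ) + 1) * V ^ ((1 + γ) * s')
          ≤ ((GV A V ψ).ncard : ℝ) := hVC
        _ ≤ ((GG A x0 R (2 * V / 2 ^ 0) ψ).ncard : ℝ) := by exact_mod_cast h2
        _ ≤ ((GG A x0 R (2 * V / 2 ^ i0) ψ).ncard : ℝ) * (2 : ℝ) ^ ((i0 : ℝ) * s') := h3
        _ ≤ ({u : ZP d | BN x0 R M u}.ncard : ℝ) * (4 ^ s' * V ^ ((1 + γ) * s')) := by
            apply mul_le_mul _ h4 (by positivity) (by positivity)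
            exact_mod_cast h1
    have h6 : ({u : ZP d | BN x0 R M u}.ncard : ℝ) * (4 ^ s' * V ^ ((1 + γ) * s')) =
        (4 ^ s' * ({u : ZP d | BN x0 R M u}.ncard : ℝ)) * V ^ ((1 + γ) * s') := by ring
    rw [h6, add_mul, one_mul] at h5
    linarith
  refine ⟨2 * V / 2 ^ i0, I - i0, hM, by positivity, ?_, ?_, ?_, ?_⟩
  · apply div_le_self (by positivity)
    exact one_le_pow₀ (by norm_num)
  · rw [div_div, ← pow_add, Nat.add_sub_cancel' hi0I]; exact hI
  · rw [div_div, ← pow_add, Nat.add_sub_cancel' hi0I]; exact hI2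
  · intro j hj
    have h1 := hmax (i0 + j) (Finset.mem_range.mpr (by omega))
    rw [div_div, ← pow_add]
    have h2 : 0 < (2 : ℝ) ^ (((i0 + j : ℕ) : ℝ) * s') := by positivity
    rw [← mul_le_mul_iff_left₀ h2]
    refine h1.trans (le_of_eq ?_)
    have h3 : (2 : ℝ) ^ ((i0 : ℝ) * s') = (2 : ℝ) ^ (-((j : ℝ) * s')) * (2 : ℝ) ^ (((i0 + j : ℕ) : ℝ) * s') := by
      rw [← Real.rpow_add (by norm_num)]
      congr 1; push_cast; ring
    rw [h3]; ring

end Q91.JC
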