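import Mathlib

/-!
Definitions for the project JC (MP_9bea5e_nt: failure of the convergence theory on affine
subspaces above the threshold).  Everything is elementary: integer points, the linear map of a
matrix, closeness to integer vectors, finite sets of integer points.
-/

namespace Q91.JC

open MeasureTheory

/-- integer points `(q, p)` with `q` an integer and `p` an integer vector of length `d` -/
abbrev ZP (d : ℕ) := ℤ × (Fin d → ℤ)

/-- `(t, x) A`: the row vector of length `m` obtained from the real row vector `(t, x)`. -/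
noncomputable def lam {d m : ℕ} (A : Matrix (Fin (d + 1)) (Fin m) ℝ) (t : ℝ) (x : Fin d → ℝ) :
    Fin m → ℝ :=
  fun j => t * A 0 j + ∑ i, x i * A i.succ j

/-- `u A` for an integer point `u`. -/
noncomputable def lamz {d m : ℕ} (A : Matrix (Fin (d + 1)) (Fin m) ℝ) (u : ZP d) : Fin m → ℝ :=
  lam A (u.1 : ℝ) (fun i => (u.2 i : ℝ))

/-- the sup-distance of `y` to the nearest integer vector is at most `c` -/
def Near {m : ℕ} (c : ℝ) (y : Fin m → ℝ) : Prop := ∃ k : Fin m → ℤ, ∀ j, |y j - k j| ≤ c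

/-- the norm adapted to the ball with centre `x0` and radius `R` is at most `t` -/
def BN {d : ℕ} (x0 : Fin d → ℝ) (R t : ℝ) (u : ZP d) : Prop :=
  R * |(u.1 : ℝ)| ≤ t ∧ ∀ i, |(u.2 i : ℝ) - u.1 * x0 i| ≤ t

/-- integer points of adapted norm at most `t` whose image is within `c` of an integer vector -/
def GG {d m : ℕ} (A : Matrix (Fin (d + 1)) (Fin m) ℝ) (x0 : Fin d → ℝ) (R t c : ℝ) :
    Set (ZP d) := {u | BN x0 R t u ∧ Near c (lamz A u)}

/-- integer points of sup norm at most `V` whose image is within `c` of an integer vector -/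
def GV {d m : ℕ} (A : Matrix (Fin (d + 1)) (Fin m) ℝ) (V c : ℝ) : Set (ZP d) :=
  {u | |(u.1 : ℝ)| ≤ V ∧ (∀ i, |(u.2 i : ℝ)| ≤ V) ∧ Near c (lamz A u)}

/-- there are arbitrarily large `V` with many integer points of norm at most `V` whose image is
within `V ^ (-γ)` of an integer vector -/
def Hyp {d m : ℕ} (A : Matrix (Fin (d + 1)) (Fin m) ℝ) (γ s' : ℝ) : Prop :=
  ∀ C V0 : ℝ, ∃ V : ℝ, V0 ≤ V ∧ 1 ≤ V ∧
    C * V ^ ((1 + γ) * s') ≤ ((GV A V (V ^ (-γ))).ncard : ℝ)

/-- sup-distance to the nearest integer vector -/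
noncomputable def nearInt {n : ℕ} (y : Fin n → ℝ) : ℝ :=
  sInf (Set.range fun k : Fin n → ℤ => ‖y - (fun i => (k i : ℝ))‖)

/-- the Diophantine exponent of the matrix `A` -/
noncomputable def omegaExp {d m : ℕ} (A : Matrix (Fin (d + 1)) (Fin m) ℝ) : EReal :=
  sSup {w : EReal | ∃ ω : ℝ, w = (ω : EReal) ∧
    {q : Fin m → ℤ | nearInt (A.mulVec (fun j => (q j : ℝ))) < ‖(fun j => (q j : ℝ))‖ ^ (-ω)}.Infinite}

/-- the affine subspace `L_A` of `R^(d+m)` -/
def LA {d m : ℕ} (A : Matrix (Fin (d + 1)) (Fin m) ℝ) : Set (EuclideanSpace ℝ (Fin (d + m))) :=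
  {y | ∃ x : Fin d → ℝ, ∀ l, y l = Fin.append x (lam A 1 x) l}

/-- the limsup set `S_n(ψ, θ)` -/
def SS {n : ℕ} (ψ : ℕ → ℝ) (θ : Fin n → ℝ) : Set (EuclideanSpace ℝ (Fin n)) :=
  {y | {q : ℕ | nearInt (fun l => (q : ℝ) * y l - θ l) < ψ q}.Infinite}

/-- the grid point with index `k` in the box with corner `θ0` and side `δ` -/
noncomputable def grid {d : ℕ} (θ0 : Fin d → ℝ) (δ : ℝ) (N : ℕ) (k : Fin d → Fin N) :
    Fin d → ℝ := fun i => θ0 i + δ * ((k i : ℕ) : ℝ) / N

/-- the rational point (shifted by `θ`) with denominator vector `w` -/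
noncomputable def pt {d : ℕ} (w : ZP d) (θ : Fin d → ℝ) : Fin d → ℝ :=
  fun i => ((w.2 i : ℝ) + θ i) / (w.1 : ℝ)

end Q91.JC
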