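import Pool.Agent.Q91.JC.Stm

namespace Q91.JC

open MeasureTheory Finset

theorem toNat_cast' (z : ℤ) (hz : 0 ≤ z) : ((z.toNat : ℕ) : ℝ) = (z : ℝ) := by
  have : ((z.toNat : ℕ) : ℤ) = z := Int.toNat_of_nonneg hz
  exact_mod_cast congrArg (fun z : ℤ => (z : ℝ)) this

open scoped Classical in
theorem gp : S_GP := by
  intro n ι S y h H ψ hn hψ hψ1 hH hh hex hK
  obtain ⟨i0, hi0⟩ := hex
  have hn0 : (0 : ℝ) < n := by exact_mod_cast hn
  have hn1 : (1 : ℝ) ≤ n := by exact_mod_cast hn
  have hK' : ∀ v : ι, ∃ K : ℤ, v ∈ S → |(∑ i, y v i * (h i : ℝ)) - K| ≤ H * ψ / 4 := by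
    intro v
    by_cases hv : v ∈ S
    · obtain ⟨K, hK⟩ := hK v hv
      exact ⟨K, fun _ => hK⟩
    · exact ⟨0, fun h' => absurd h' hv⟩
  choose K hK using hK'
  obtain ⟨Kv, hKv⟩ : ∃ Kv : ι → ℤ, Kv = fun v => K v - ∑ i, ⌊y v i⌋ * h i := ⟨_, rfl⟩
  have hf : ∀ v ∈ S, |(∑ i, Int.fract (y v i) * (h i : ℝ)) - Kv v| ≤ H * ψ / 4 := by
    intro v hv
    refine le_trans (le_of_eq ?_) (hK v hv)
    congr 1
    rw [hKv]
    push_cast
    have e1 : ∑ i, y v i * (h i : ℝ) = ∑ i, (⌊y v i⌋ : ℝ) * (h i : ℝ) +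
        ∑ i, Int.fract (y v i) * (h i : ℝ) := by
      rw [← Finset.sum_add_distrib]
      apply Finset.sum_congr rfl
      intro i _
      rw [← add_mul, Int.floor_add_fract]
    rw [e1]; ring
  have hsumle : ∀ v, |∑ i, Int.fract (y v i) * (h i : ℝ)| ≤ n * H := by
    intro v
    refine (Finset.abs_sum_le_sum_abs _ _).trans ?_
    calc ∑ i, |Int.fract (y v i) * (h i : ℝ)| ≤ ∑ _i : Fin n, H := by
          apply Finset.sum_le_sum
          intro i _
          rw [abs_mul, abs_of_nonneg (Int.fract_nonneg _)]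
          calc Int.fract (y v i) * |(h i : ℝ)| ≤ 1 * H :=
                mul_le_mul (Int.fract_lt_one _).le (hh i) (abs_nonneg _) zero_le_one
            _ = H := one_mul H
      _ = n * H := by rw [Finset.sum_const, Finset.card_univ, Fintype.card_fin, nsmul_eq_mul]
  have hKvle : ∀ v ∈ S, |(Kv v : ℝ)| ≤ (n + 1) * H := by
    intro v hv
    have e1 := hf v hv
    have e2 := hsumle v
    have e3 : |(Kv v : ℝ)| ≤ |∑ i, Int.fract (y v i) * (h i : ℝ)| +
        |(∑ i, Int.fract (y v i) * (h i : ℝ)) - Kv v| := by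
      have := abs_sub (∑ i, Int.fract (y v i) * (h i : ℝ)) ((∑ i, Int.fract (y v i) * (h i : ℝ)) - Kv v)
      rwa [sub_sub_cancel] at this
    have e4 : H * ψ / 4 ≤ H := by
      have : H * ψ ≤ H * 1 := mul_le_mul_of_nonneg_left hψ1 (by linarith)
      linarith
    linarith
  -- cells
  let g : ι → (Fin n → ℤ) × ℤ := fun v =>
    (fun i => if i = i0 then 0 else ⌊Int.fract (y v i) * (2 * n / ψ)⌋, Kv v)
  let t : Finset ((Fin n → ℤ) × ℤ) :=
    (Fintype.piFinset (fun i : Fin n => if i = i0 then ({0} : Finset ℤ) else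
      Finset.Icc 0 ⌊2 * n / ψ⌋)) ×ˢ Finset.Icc (-⌊((n : ℝ) + 1) * H⌋) ⌊((n : ℝ) + 1) * H⌋
  have hmaps : ∀ v ∈ S, g v ∈ t := by
    intro v hv
    refine Finset.mem_product.mpr ⟨?_, ?_⟩
    · rw [Fintype.mem_piFinset]
      intro i
      simp only [g]
      split_ifs with hi
      · exact Finset.mem_singleton_self _
      · rw [Finset.mem_Icc]
        constructor
        · exact Int.floor_nonneg.mpr (mul_nonneg (Int.fract_nonneg _) (by positivity))
        · apply Int.floor_le_floor
          calc Int.fract (y v i) * (2 * n / ψ) ≤ 1 * (2 * n / ψ) :=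
                mul_le_mul_of_nonneg_right (Int.fract_lt_one _).le (by positivity)
            _ = _ := one_mul _
    · have e1 := abs_le.mp (hKvle v hv)
      rw [Finset.mem_Icc]
      constructor
      · rw [neg_le]
        apply Int.le_floor.mpr
        push_cast
        linarith [e1.1]
      · exact Int.le_floor.mpr e1.2
  have hA : 0 < (n + 1 : ℝ) * H := by positivity
  have h2nψ : 1 ≤ (n : ℝ) / ψ := by
    rw [one_le_div hψ]; linarith
  have htcard : (t.card : ℝ) ≤ (3 * n / ψ) ^ (n - 1) * ((2 * n + 3) * H) := by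
    simp only [t, Finset.card_product, Fintype.card_piFinset]
    push_cast
    apply mul_le_mul _ _ (Nat.cast_nonneg _) (by positivity)
    · have e1 : ∀ i ∈ (Finset.univ : Finset (Fin n)),
          (((if i = i0 then ({0} : Finset ℤ) else Finset.Icc 0 ⌊2 * n / ψ⌋).card : ℕ) : ℝ) ≤
          (if i = i0 then 1 else 3 * n / ψ) := by
        intro i _
        split_ifs with hi
        · simp
        · rw [Int.card_Icc]
          have e2 : 0 ≤ ⌊2 * (n : ℝ) / ψ⌋ := Int.floor_nonneg.mpr (by positivity)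
          have e3 : ((⌊2 * (n : ℝ) / ψ⌋ + 1 - 0).toNat : ℝ) = (⌊2 * (n : ℝ) / ψ⌋ : ℝ) + 1 := by
            rw [toNat_cast' _ (by omega)]; push_cast; ring
          rw [e3]
          have e4 : (⌊2 * (n : ℝ) / ψ⌋ : ℝ) ≤ 2 * n / ψ := Int.floor_le _
          have e5 : 3 * (n : ℝ) / ψ = 2 * n / ψ + n / ψ := by ring
          linarith
      refine (Finset.prod_le_prod (fun i _ => Nat.cast_nonneg _) e1).trans (le_of_eq ?_)
      rw [Finset.prod_ite, Finset.prod_const_one, one_mul, Finset.prod_const]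
      congr 1
      rw [Finset.filter_ne' Finset.univ i0, Finset.card_erase_of_mem (Finset.mem_univ _),
        Finset.card_univ, Fintype.card_fin]
    · rw [Int.card_Icc]
      have e2 : 0 ≤ ⌊((n : ℝ) + 1) * H⌋ := Int.floor_nonneg.mpr hA.le
      have e3 : ((⌊((n : ℝ) + 1) * H⌋ + 1 - -⌊((n : ℝ) + 1) * H⌋).toNat : ℝ) =
          2 * (⌊((n : ℝ) + 1) * H⌋ : ℝ) + 1 := by
        rw [toNat_cast' _ (by omega)]; push_cast; ring
      rw [e3]
      have e4 : (⌊((n : ℝ) + 1) * H⌋ : ℝ) ≤ (n + 1) * H := Int.floor_le _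
      linarith
  rcases S.eq_empty_or_nonempty with hS0 | hS0
  · refine ⟨∅, Finset.empty_subset _, by rw [hS0]; simp, fun v hv => absurd hv (Finset.notMem_empty v)⟩
  have htne : t.Nonempty := by
    obtain ⟨v, hv⟩ := hS0
    exact ⟨g v, hmaps v hv⟩
  have htpos : (0 : ℝ) < t.card := by exact_mod_cast htne.card_pos
  obtain ⟨b, hb, hb'⟩ := Finset.exists_le_card_fiber_of_nsmul_le_card_of_maps_to
    (b := (S.card : ℝ) / t.card) hmaps htne (by rw [nsmul_eq_mul, mul_div_cancel₀ _ htpos.ne'])
  refine ⟨S.filter (fun v => g v = b), Finset.filter_subset _ _, ?_, ?_⟩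
  · rw [div_le_iff₀ htpos] at hb'
    refine hb'.trans ?_
    exact mul_le_mul_of_nonneg_left htcard (Nat.cast_nonneg _)
  · intro v hv w hw
    obtain ⟨hv1, hv2⟩ := Finset.mem_filter.mp hv
    obtain ⟨hw1, hw2⟩ := Finset.mem_filter.mp hw
    have hg : g v = g w := hv2.trans hw2.symm
    simp only [g, Prod.mk.injEq] at hg
    obtain ⟨hg1, hg2⟩ := hg
    have hclose : ∀ i, i ≠ i0 → |Int.fract (y v i) - Int.fract (y w i)| ≤ ψ / (2 * n) := by
      intro i hi
      have e1 := congrFun hg1 i
      simp only [if_neg hi] at e1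
      have e2 := Int.abs_sub_lt_one_of_floor_eq_floor e1
      rw [← sub_mul, abs_mul, abs_of_pos (by positivity : 0 < 2 * (n : ℝ) / ψ)] at e2
      rw [le_div_iff₀ (by positivity)]
      have e3 : |Int.fract (y v i) - Int.fract (y w i)| * (2 * n / ψ) * ψ < 1 * ψ :=
        mul_lt_mul_of_pos_right e2 hψ
      have e4 : |Int.fract (y v i) - Int.fract (y w i)| * (2 * n / ψ) * ψ =
          |Int.fract (y v i) - Int.fract (y w i)| * (2 * n) := by field_simp
      linarith
    refine ⟨fun i => ⌊y v i⌋ - ⌊y w i⌋, fun i => ?_⟩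
    have e0 : y v i - y w i - ((⌊y v i⌋ - ⌊y w i⌋ : ℤ) : ℝ) = Int.fract (y v i) - Int.fract (y w i) := by
      rw [← Int.self_sub_floor, ← Int.self_sub_floor]; push_cast; ring
    rw [e0]
    by_cases hi : i = i0
    · subst hi
      have hD : |∑ j, (Int.fract (y v j) - Int.fract (y w j)) * (h j : ℝ)| ≤ H * ψ / 2 := by
        have e1 := abs_le.mp (hf v hv1)
        have e2 := abs_le.mp (hf w hw1)
        have e3 : ∑ j, (Int.fract (y v j) - Int.fract (y w j)) * (h j : ℝ) =
            ∑ j, Int.fract (y v j) * (h j : ℝ) - ∑ j, Int.fract (y w j) * (h j : ℝ) := by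
          rw [← Finset.sum_sub_distrib]
          exact Finset.sum_congr rfl fun j _ => by ring
        rw [e3]
        rw [hg2] at e1
        rw [abs_le]
        constructor <;> linarith [e1.1, e1.2, e2.1, e2.2]
      have hE : |∑ j ∈ Finset.univ.erase i, (Int.fract (y v j) - Int.fract (y w j)) * (h j : ℝ)| ≤
          H * ψ / 2 := by
        refine (Finset.abs_sum_le_sum_abs _ _).trans ?_
        calc ∑ j ∈ Finset.univ.erase i, |(Int.fract (y v j) - Int.fract (y w j)) * (h j : ℝ)|
            ≤ ∑ _j ∈ Finset.univ.erase i, ψ / (2 * n) * H := by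
              apply Finset.sum_le_sum
              intro j hj
              rw [abs_mul]
              exact mul_le_mul (hclose j (Finset.ne_of_mem_erase hj)) (hh j) (abs_nonneg _)
                (by positivity)
          _ = ((Finset.univ.erase i).card : ℝ) * (ψ / (2 * n) * H) := by
              rw [Finset.sum_const, nsmul_eq_mul]
          _ ≤ n * (ψ / (2 * n) * H) := by
              apply mul_le_mul_of_nonneg_right _ (by positivity)
              have : (Finset.univ.erase i).card ≤ (Finset.univ : Finset (Fin n)).card :=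
                Finset.card_le_card (Finset.erase_subset _ _)
              rw [Finset.card_univ, Fintype.card_fin] at this
              exact_mod_cast this
          _ = H * ψ / 2 := by field_simp
      have hsplit := Finset.add_sum_erase Finset.univ
        (fun j => (Int.fract (y v j) - Int.fract (y w j)) * (h j : ℝ)) (Finset.mem_univ i)
      have hmul : |(Int.fract (y v i) - Int.fract (y w i)) * (h i : ℝ)| ≤ H * ψ := by
        have e1 := abs_le.mp hD
        have e2 := abs_le.mp hE
        rw [abs_le]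
        constructor <;> linarith [e1.1, e1.2, e2.1, e2.2]
      rw [abs_mul, hi0, mul_comm H ψ] at hmul
      exact le_of_mul_le_mul_right hmul (by linarith)
    · refine (hclose i hi).trans ?_
      rw [div_le_iff₀ (by positivity)]
      nlinarith

end Q91.JC
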