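import Mathlib

/-!
Positive Hausdorff measure of a compact set from lower bounds for finite covers by balls
(the proof of `Pool.Agent.H389R2.Dim.le_dimH_of_good`, with the conclusion for the measure).
-/

namespace Q91.JC

open MeasureTheory TopologicalSpace Filter Topology Metric Set
open scoped ENNReal NNReal

variable {X : Type*} [MetricSpace X] [MeasurableSpace X] [BorelSpace X]

theorem pos_of_good {t c : ℝ} (ht : 0 < t) (hc : 0 < c) {K : Set X} (hK : IsCompact K)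
    (h : ∀ δ : ℝ, 0 < δ → ∀ s : Finset (X × ℝ), (∀ p ∈ s, δ ≤ p.2) →
      K ⊆ ⋃ p ∈ s, ball p.1 p.2 → c ≤ ∑ p ∈ s, p.2 ^ t) : 0 < μH[t] K := by
  rw [pos_iff_ne_zero]
  intro h1
  rw [Measure.hausdorffMeasure_apply] at h1
  have h2 : (⨅ (u : ℕ → Set X) (_ : K ⊆ ⋃ n, u n) (_ : ∀ n, ediam (u n) ≤ 1),
      ∑' n, ⨆ _ : (u n).Nonempty, ediam (u n) ^ t) = 0 := by
    have := ENNReal.iSup_eq_zero.mp h1 1
    simpa using this
  have h3 : (⨅ (u : ℕ → Set X) (_ : K ⊆ ⋃ n, u n) (_ : ∀ n, ediam (u n) ≤ 1),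
      ∑' n, ⨆ _ : (u n).Nonempty, ediam (u n) ^ t) < ENNReal.ofReal (c / 2) := by
    rw [h2]; exact ENNReal.ofReal_pos.mpr (by positivity)
  simp only [iInf_lt_iff] at h3
  obtain ⟨u, hu, hu1, hsum⟩ := h3
  -- radii
  have hfin : ∀ n, ediam (u n) ≠ ∞ := fun n => ne_top_of_le_ne_top ENNReal.one_ne_top (hu1 n)
  have hr : ∀ n, ∃ ρ : ℝ, (ediam (u n)).toReal < ρ ∧
      ρ ^ t < (ediam (u n)).toReal ^ t + c / 2 * (1 / 2) ^ (n + 1) := by
    intro n
    have hcont : ContinuousAt (fun ρ : ℝ => ρ ^ t) (ediam (u n)).toReal :=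
      Real.continuousAt_rpow_const _ _ (Or.inr ht.le)
    have hlt : (ediam (u n)).toReal ^ t < (ediam (u n)).toReal ^ t + c / 2 * (1 / 2) ^ (n + 1) := by
      have : 0 < c / 2 * (1 / 2 : ℝ) ^ (n + 1) := by positivity
      linarith
    have h4 := hcont.eventually_lt_const hlt
    have h5 : ∀ᶠ ρ in 𝓝[>] (ediam (u n)).toReal, ρ ^ t <
        (ediam (u n)).toReal ^ t + c / 2 * (1 / 2) ^ (n + 1) := h4.filter_mono nhdsWithin_le_nhds
    obtain ⟨ρ, h6, h7⟩ := (h5.and self_mem_nhdsWithin).exists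
    exact ⟨ρ, h7, h6⟩
  choose ρ hρ1 hρ2 using hr
  have hρpos : ∀ n, 0 < ρ n := fun n => lt_of_le_of_lt ENNReal.toReal_nonneg (hρ1 n)
  classical
  -- index set of nonempty pieces
  have hx : ∀ n : {n : ℕ // (u n).Nonempty}, ∃ x, x ∈ u n := fun n => n.2
  choose x hx using hx
  have hcov : K ⊆ ⋃ n : {n : ℕ // (u n).Nonempty}, ball (x n) (ρ n) := by
    intro y hy
    obtain ⟨n, hn⟩ := Set.mem_iUnion.mp (hu hy)
    refine Set.mem_iUnion.mpr ⟨⟨n, ⟨y, hn⟩⟩, ?_⟩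
    rw [mem_ball]
    refine lt_of_le_of_lt ?_ (hρ1 n)
    have h4 : edist y (x ⟨n, ⟨y, hn⟩⟩) ≤ ediam (u n) := edist_le_ediam_of_mem hn (hx ⟨n, ⟨y, hn⟩⟩)
    rw [edist_dist] at h4
    exact (ENNReal.ofReal_le_iff_le_toReal (hfin n)).mp h4
  obtain ⟨F, hF⟩ := hK.elim_finite_subcover (fun n : {n : ℕ // (u n).Nonempty} => ball (x n) (ρ n))
    (fun n => isOpen_ball) hcov
  set s : Finset (X × ℝ) := F.image (fun n => (x n, ρ n)) with hs
  -- minimal radius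
  obtain ⟨δ, hδ0, hδ⟩ : ∃ δ : ℝ, 0 < δ ∧ ∀ n ∈ F, δ ≤ ρ n := by
    by_cases hFe : F.Nonempty
    · refine ⟨F.inf' hFe (fun n => ρ n), ?_, fun n hn => Finset.inf'_le _ hn⟩
      rw [Finset.lt_inf'_iff]
      intro n _; exact hρpos n
    · refine ⟨1, one_pos, fun n hn => absurd ⟨n, hn⟩ hFe⟩
  have h5 := h δ hδ0 s (by
    intro p hp
    rw [hs, Finset.mem_image] at hp
    obtain ⟨n, hn, rfl⟩ := hp
    exact hδ n hn) (by
    intro y hy
    obtain ⟨n, hn, hy2⟩ := Set.mem_iUnion₂.mp (hF hy)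
    refine Set.mem_iUnion₂.mpr ⟨(x n, ρ n), ?_, hy2⟩
    rw [hs]; exact Finset.mem_image_of_mem _ hn)
  -- bound the sum
  have h6 : ∑ p ∈ s, p.2 ^ t ≤ ∑ n ∈ F, (ρ n) ^ t := by
    rw [hs]
    refine Finset.sum_image_le_of_nonneg ?_
    intro p hp
    obtain ⟨n, _, rfl⟩ := Finset.mem_image.mp hp
    exact Real.rpow_nonneg (hρpos n).le _
  have h7 : ∑ n ∈ F, (ρ n) ^ t ≤
      ∑ n ∈ F, ((ediam (u n)).toReal ^ t + c / 2 * (1 / 2) ^ ((n : ℕ) + 1)) :=
    Finset.sum_le_sum fun n _ => (hρ2 n).le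
  have h8 : ∑ n ∈ F, (c / 2 * (1 / 2 : ℝ) ^ ((n : ℕ) + 1)) ≤ c / 2 := by
    rw [← Finset.mul_sum]
    have h9 : ∑ n ∈ F, (1 / 2 : ℝ) ^ ((n : ℕ) + 1) ≤ 1 := by
      have h10 : ∑ n ∈ F, (1 / 2 : ℝ) ^ ((n : ℕ) + 1) =
          ∑ n ∈ F.map (Function.Embedding.subtype _), (1 / 2 : ℝ) ^ (n + 1) := by
        rw [Finset.sum_map]; rfl
      rw [h10]
      have h11 : HasSum (fun n : ℕ => (1 / 2 : ℝ) ^ (n + 1)) 1 := by
        have h12 := hasSum_geometric_two' (1 : ℝ)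
        have h13 : (fun n : ℕ => (1 / 2 : ℝ) ^ (n + 1)) = fun n : ℕ => (1 : ℝ) / 2 / 2 ^ n := by
          funext n
          rw [pow_succ, one_div, inv_pow]
          field_simp
        rw [h13]; exact h12
      exact sum_le_hasSum _ (fun n _ => by positivity) h11
    have : 0 ≤ c / 2 := by positivity
    nlinarith
  have h9 : ∑ n ∈ F, (ediam (u n)).toReal ^ t < c / 2 := by
    have h10 : ENNReal.ofReal (∑ n ∈ F, (ediam (u n)).toReal ^ t) < ENNReal.ofReal (c / 2) := by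
      refine lt_of_le_of_lt ?_ hsum
      rw [ENNReal.ofReal_sum_of_nonneg (fun n _ => Real.rpow_nonneg ENNReal.toReal_nonneg _)]
      calc ∑ n ∈ F, ENNReal.ofReal ((ediam (u n)).toReal ^ t)
          = ∑ n ∈ F.map (Function.Embedding.subtype _),
            (⨆ _ : (u n).Nonempty, ediam (u n) ^ t) := by
            rw [Finset.sum_map]
            refine Finset.sum_congr rfl fun n _ => ?_
            have hne : (u n).Nonempty := n.2
            simp only [Function.Embedding.coe_subtype, hne, iSup_pos]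
            rw [← ENNReal.ofReal_rpow_of_nonneg ENNReal.toReal_nonneg ht.le,
              ENNReal.ofReal_toReal (hfin n)]
        _ ≤ ∑' n, (⨆ _ : (u n).Nonempty, ediam (u n) ^ t) := ENNReal.sum_le_tsum _
    exact (ENNReal.ofReal_lt_ofReal_iff (by positivity)).mp h10
  have h10 : ∑ n ∈ F, ((ediam (u n)).toReal ^ t + c / 2 * (1 / 2) ^ ((n : ℕ) + 1)) =
      ∑ n ∈ F, (ediam (u n)).toReal ^ t + ∑ n ∈ F, (c / 2 * (1 / 2 : ℝ) ^ ((n : ℕ) + 1)) :=
    Finset.sum_add_distrib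
  linarith

end Q91.JC
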