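import Pool.Agent.Q91.JC.Stm

namespace Q91.JC

open MeasureTheory Finset Filter Topology

/-- choice of the parameters -/
theorem par (d m : ℕ) (s ω : ℝ) (hm : 1 ≤ m) (hs : 0 < s) (hsd : s < d)
    (hω : ((m : ℝ) + s) / ((d : ℝ) + 1 - s) < ω) :
    ∃ ω' γ s' : ℝ, 0 < ω' ∧ 0 < γ ∧ s < s' ∧ s' < d ∧ ω' * (1 + γ) < ω + 1 ∧
      1 / ω' < (d : ℝ) + 1 - s' - γ * ((m : ℝ) - 1 + s') ∧ (d : ℝ) + 1 - s < γ * (m + s) := by
  have hm1 : (1 : ℝ) ≤ m := by exact_mod_cast hm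
  have hds : 0 < (d : ℝ) + 1 - s := by linarith
  have hms : 0 < (m : ℝ) + s := by linarith
  obtain ⟨τ, hτ⟩ : ∃ τ : ℝ, τ = ((m : ℝ) + s) / ((d : ℝ) + 1 - s) := ⟨_, rfl⟩
  rw [← hτ] at hω
  have hτ0 : 0 < τ := by rw [hτ]; positivity
  have hτm : 1 / τ * ((m : ℝ) + s) = (d : ℝ) + 1 - s := by
    rw [hτ]; field_simp
  obtain ⟨ω1, hω1⟩ : ∃ ω1 : ℝ, ω1 = (ω + 1) * τ / (1 + τ) := ⟨_, rfl⟩
  have hω1τ : τ < ω1 := by
    rw [hω1, lt_div_iff₀ (by linarith)]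
    nlinarith
  obtain ⟨ω', hω'⟩ : ∃ ω' : ℝ, ω' = (τ + ω1) / 2 := ⟨_, rfl⟩
  have hω'1 : τ < ω' := by rw [hω']; linarith
  have hω'2 : ω' < ω1 := by rw [hω']; linarith
  have hω'0 : 0 < ω' := hτ0.trans hω'1
  have hc1 : ω' * (1 + 1 / τ) < ω + 1 := by
    have e1 : ω1 * (1 + 1 / τ) = ω + 1 := by
      rw [hω1]; field_simp; ring
    rw [← e1]
    exact mul_lt_mul_of_pos_right hω'2 (by positivity)
  have hc2 : 1 / ω' < 1 / τ := one_div_lt_one_div_of_lt hτ0 hω'1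
  have hc2' : 1 / ω' < (d : ℝ) + 1 - s - 1 / τ * ((m : ℝ) - 1 + s) := by
    have : (d : ℝ) + 1 - s - 1 / τ * ((m : ℝ) - 1 + s) = 1 / τ := by
      have : 1 / τ * ((m : ℝ) - 1 + s) = 1 / τ * ((m : ℝ) + s) - 1 / τ := by ring
      rw [this, hτm]; ring
    rw [this]; exact hc2
  have ev1 : ∀ᶠ e : ℝ in 𝓝[>] 0, ω' * (1 + (1 / τ + e)) < ω + 1 := by
    apply Filter.Eventually.filter_mono nhdsWithin_le_nhds
    have hcont : ContinuousAt (fun e : ℝ => ω' * (1 + (1 / τ + e))) 0 := by fun_prop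
    apply hcont.eventually_lt continuousAt_const
    simpa using hc1
  have ev2 : ∀ᶠ e : ℝ in 𝓝[>] 0,
      1 / ω' < (d : ℝ) + 1 - (s + e) - (1 / τ + e) * ((m : ℝ) - 1 + (s + e)) := by
    apply Filter.Eventually.filter_mono nhdsWithin_le_nhds
    have hcont : ContinuousAt (fun e : ℝ =>
      (d : ℝ) + 1 - (s + e) - (1 / τ + e) * ((m : ℝ) - 1 + (s + e))) 0 := by fun_prop
    apply continuousAt_const.eventually_lt hcont
    simpa using hc2'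
  have ev3 : ∀ᶠ e : ℝ in 𝓝[>] 0, s + e < d := by
    apply Filter.Eventually.filter_mono nhdsWithin_le_nhds
    have hcont : ContinuousAt (fun e : ℝ => s + e) 0 := by fun_prop
    apply hcont.eventually_lt continuousAt_const
    simpa using hsd
  have ev4 : ∀ᶠ e : ℝ in 𝓝[>] 0, 0 < e := eventually_mem_nhdsWithin
  obtain ⟨e, h1, h2, h3, h4⟩ := (ev1.and (ev2.and (ev3.and ev4))).exists
  refine ⟨ω', 1 / τ + e, s + e, hω'0, by positivity, by linarith, h3, h1, h2, ?_⟩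
  have : (1 / τ + e) * ((m : ℝ) + s) = 1 / τ * ((m : ℝ) + s) + e * ((m : ℝ) + s) := by ring
  rw [this, hτm]
  have : 0 < e * ((m : ℝ) + s) := by positivity
  linarith

end Q91.JC
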