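import Pool.Agent.Q91.JC.Seq3

namespace Q91.JC

open MeasureTheory Finset Filter Topology

variable {d m : ℕ} {A : Matrix (Fin (d + 1)) (Fin m) ℝ}

theorem lam_smul (q : ℝ) (x : Fin d → ℝ) (l : Fin m) :
    lam A q (fun i => q * x i) l = q * lam A 1 x l := by
  simp only [lam, one_mul, mul_add, Finset.mul_sum, mul_assoc]

theorem nearInt_lt {n : ℕ} (y : Fin n → ℝ) (t : ℝ) (ht : 0 < t) (k : Fin n → ℤ)
    (h : ∀ i, |y i - k i| < t) : nearInt y < t := by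
  unfold nearInt
  refine lt_of_le_of_lt (csInf_le ⟨0, ?_⟩ ⟨k, rfl⟩) ?_
  · rintro _ ⟨k', rfl⟩
    exact norm_nonneg _
  · rw [pi_norm_lt_iff ht]
    intro i
    rw [Real.norm_eq_abs]
    exact h i

theorem hit_nearInt {s : ℝ} {n : ℕ} {x : Fin d → ℝ} {σ : St A} {v : ℕ → ℝ} {ψ : ℕ → ℝ}
    (hψ : ∀ q, 0 < ψ q) (hv : ∀ q, 1 ≤ q → v q ≤ ψ q ^ ((m : ℝ) + s)) (h : Hit s n x σ v)
    (θ1 : Fin d → ℝ) (z1 : Fin m → ℝ) (hb : InBox σ θ1 z1)
    (y : EuclideanSpace ℝ (Fin (d + m))) (hy : ∀ l, y l = Fin.append x (lam A 1 x) l) :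
    ∃ q, n ≤ q ∧ nearInt (fun l => (q : ℝ) * y l - Fin.append θ1 z1 l) < ψ q := by
  obtain ⟨q, p, h1, h2, h3⟩ := h
  obtain ⟨h4, k, h5⟩ := h3 θ1 z1 hb (ψ q) (hψ q) (hv q h2)
  refine ⟨q, h1, nearInt_lt _ _ (hψ q) (Fin.append p k) ?_⟩
  intro l
  refine Fin.addCases (fun i => ?_) (fun l => ?_) l
  · rw [hy, Fin.append_left, Fin.append_left, Fin.append_left]
    have := h4 i
    rw [show (q : ℝ) * x i - θ1 i - p i = (q : ℝ) * x i - p i - θ1 i by ring]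
    exact this
  · rw [hy, Fin.append_right, Fin.append_right, Fin.append_right]
    have := h5 l
    rw [lam_smul] at this
    exact this

open scoped Classical in
theorem seq (hON : S_ON) (hTREE : S_TREE) : S_SEQ := by
  intro d m A γ s s' hd hγ hs hss' hs'd hγs hHyp
  have hsd : s < d := hss'.trans hs'd
  have hS0 : 0 ≤ ∑ j, ∑ i, |A i j| :=
    Finset.sum_nonneg fun j _ => Finset.sum_nonneg fun i _ => abs_nonneg _
  obtain ⟨κ, hκ⟩ : ∃ κ : ℝ, κ = 1 / (6 * (1 + ∑ j, ∑ i, |A i j|)) := ⟨_, rfl⟩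
  have hκ0 : 0 < κ := by rw [hκ]; positivity
  have hκ1 : κ ≤ 1 := by
    rw [hκ, div_le_one (by positivity)]; linarith
  obtain ⟨Cs, hCs, hN⟩ := hON d m A γ s s' κ hd hγ hs hss' hs'd hγs hHyp hκ0 hκ1
  have hN' : OnProp A s κ Cs := hN
  -- the sequence
  let P0 : Lev A :=
    { σ := { W := 0, θ := fun _ => 0, z := fun l => lam A ((0 : ZP d).1 : ℝ)
                (fun i => ((0 : ZP d).2 i : ℝ) + 0) l, δ := 1, hδ := one_pos,
              hz := ⟨fun _ => 0, fun l => by simp⟩ }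
      L := {((fun _ => 0), 1)}
      hL := by
        intro b hb
        rw [Finset.mem_singleton] at hb
        subst hb
        exact ⟨one_pos, le_rfl, fun i => by simp⟩ }
  have hstep := fun (n : ℕ) (P : Lev A) => exists_next s κ Cs hs hsd hκ hN' n P
  choose nxt vv hR using hstep
  let P : ℕ → Lev A := fun n => Nat.rec P0 (fun n P => nxt n P) n
  have hP : ∀ n, P (n + 1) = nxt n (P n) := fun n => rfl
  have hRel : ∀ n, Rel s Cs n (P n) (P (n + 1)) (vv n (P n)) := fun n => by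
    rw [hP]; exact hR n (P n)
  obtain ⟨θ1, z1, hbox⟩ := exists_limit P (fun n => (hRel n).1) (fun n => (hRel n).2.1)
  obtain ⟨ψ, hψ1, hψ2, hψ3, hψ4⟩ := exists_psi s hs hsd (fun n => vv n (P n))
    (fun n => (hRel n).2.2.1) (fun n => (hRel n).2.2.2.1) (fun n => (hRel n).2.2.2.2.1) m
  refine ⟨ψ, Fin.append θ1 z1, hψ1, hψ2, hψ3, ?_⟩
  -- the tree set
  have hK := hTREE d s Cs (fun n => (P n).L) (fun _ => 0) 1 hs hCs one_pos rfl
    (fun n b hb => ((P n).hL b hb).1)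
    (fun ε hε => by
      obtain ⟨n, hn⟩ := exists_nat_one_div_lt hε
      refine ⟨n + 1, fun l hl b hb => ?_⟩
      obtain ⟨l', rfl⟩ : ∃ l', l = l' + 1 := ⟨l - 1, by omega⟩
      obtain ⟨b', -, ch, hg, j, rfl⟩ := (hRel l').2.2.2.2.2.2 b hb
      refine hg.2.2.1.trans (le_trans ?_ hn.le)
      apply one_div_le_one_div_of_le (by positivity)
      have : (n : ℝ) ≤ l' := by
        have : n ≤ l' := by omega
        exact_mod_cast this
      linarith)
    (fun n b hb => by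
      obtain ⟨ch, hg, hc⟩ := (hRel n).2.2.2.2.2.1 b hb
      obtain ⟨g1, g2, g3, g4, g5, g6, g7⟩ := hg
      exact ⟨ch.k, ch.c, ch.r, g1, g2, hc, g4, g5, g6⟩)
    (fun n c hc => by
      obtain ⟨b, hb, ch, hg, j, rfl⟩ := (hRel n).2.2.2.2.2.2 c hc
      exact ⟨b, hb, hg.2.2.2.1 j⟩)
  apply pos_of_proj d m s hs.le _ _ hK
  intro x hx
  refine ⟨WithLp.toLp 2 (Fin.append x (lam A 1 x)), ⟨?_, ⟨x, fun l => rfl⟩⟩, fun i => ?_⟩
  · have h1 : ∀ n, ∃ q, n ≤ q ∧ q ∈ {q : ℕ | nearInt (fun l => (q : ℝ) *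
        (WithLp.toLp 2 (Fin.append x (lam A 1 x)) : EuclideanSpace ℝ (Fin (d + m))) l -
          Fin.append θ1 z1 l) < ψ q} := by
      intro n
      obtain ⟨b, hb, hxb⟩ := hx (n + 1)
      obtain ⟨b', hb', ch, hg, j, rfl⟩ := (hRel n).2.2.2.2.2.2 b hb
      have hh := hg.2.2.2.2.2.2 j x hxb
      exact hit_nearInt hψ1 (fun q hq => hψ4 n q hq) hh θ1 z1 (hbox (n + 1)) _ (fun l => rfl)
    exact Set.infinite_of_forall_exists_gt (fun n => by
      obtain ⟨q, hq1, hq2⟩ := h1 (n + 1)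
      exact ⟨q, hq2, by omega⟩)
  · simp [Fin.append_left]

end Q91.JC
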