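import Pool.Agent.Q91.JC.Stm
import Pool.Agent.Q91.JC.Haus

namespace Q91.JC

open MeasureTheory Finset Filter Topology

variable {d : ℕ}

/-- the open ball `p` meets the closed ball `b` -/
def Meets (p b : (Fin d → ℝ) × ℝ) : Prop :=
  ∃ x : Fin d → ℝ, (∀ i, |x i - b.1 i| ≤ b.2) ∧ dist x p.1 < p.2

open scoped Classical in
/-- the local content -/
noncomputable def phi (s C : ℝ) (p b : (Fin d → ℝ) × ℝ) : ℝ :=
  if Meets p b then min 1 (C * (p.2 / b.2) ^ s) else 0

theorem phi_nonneg (s C : ℝ) (hC : 1 ≤ C) (p b : (Fin d → ℝ) × ℝ) (hp : 0 < p.2) (hb : 0 < b.2) :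
    0 ≤ phi s C p b := by
  unfold phi
  split_ifs
  · positivity
  · exact le_rfl

theorem phi_le (s C : ℝ) (hC : 1 ≤ C) (p b : (Fin d → ℝ) × ℝ) (hp : 0 < p.2) (hb : 0 < b.2) :
    phi s C p b ≤ C * (p.2 / b.2) ^ s := by
  unfold phi
  split_ifs
  · exact min_le_right _ _
  · positivity

open scoped Classical in
theorem phi_step (s C : ℝ) (hC : 1 ≤ C) (p b : (Fin d → ℝ) × ℝ) (hp : 0 < p.2)
    (hb : 0 < b.2) (k : ℕ) (c : Fin k → (Fin d → ℝ)) (r : ℝ) (hr : 0 < r)
    (h1 : ∀ j i, |c j i - b.1 i| ≤ b.2 - r)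
    (h2 : ∀ (x : Fin d → ℝ) (ρ : ℝ), r ≤ ρ →
      ((Finset.univ.filter (fun j : Fin k => ∀ i, |c j i - x i| ≤ 2 * ρ)).card : ℝ) ≤
        C * (ρ / b.2) ^ s * k)
    (h3 : ∀ x : Fin d → ℝ,
      ((Finset.univ.filter (fun j : Fin k => ∀ i, |c j i - x i| ≤ 2 * r)).card : ℝ) ≤
        (r / b.2) ^ s * k) :
    ∑ j : Fin k, phi s C p (c j, r) ≤ k * phi s C p b := by
  have hk0 : (0 : ℝ) ≤ k := Nat.cast_nonneg k
  have hC0 : 0 < C := by linarith
  -- the met children
  obtain ⟨J, hJ⟩ : ∃ J : Finset (Fin k), J = Finset.univ.filter (fun j => Meets p (c j, r)) := ⟨_, rfl⟩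
  have hsum : ∑ j : Fin k, phi s C p (c j, r) = J.card * min 1 (C * (p.2 / r) ^ s) := by
    have e1 : ∀ j : Fin k, phi s C p (c j, r) =
        if Meets p (c j, r) then min 1 (C * (p.2 / r) ^ s) else 0 := fun j => rfl
    simp only [e1]
    rw [← Finset.sum_filter, ← hJ, Finset.sum_const, nsmul_eq_mul]
  have hJk : (J.card : ℝ) ≤ k := by
    have := Finset.card_le_univ J
    rw [Fintype.card_fin] at this
    exact_mod_cast this
  have hJsub : ∀ ρ : ℝ, r ≤ ρ → p.2 ≤ ρ →
      (J.card : ℝ) ≤ ((Finset.univ.filter (fun j : Fin k => ∀ i, |c j i - p.1 i| ≤ 2 * ρ)).card : ℝ) := by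
    intro ρ hρ1 hρ2
    have : J ⊆ Finset.univ.filter (fun j : Fin k => ∀ i, |c j i - p.1 i| ≤ 2 * ρ) := by
      intro j hj
      rw [hJ] at hj
      obtain ⟨x, hx1, hx2⟩ := (Finset.mem_filter.mp hj).2
      refine Finset.mem_filter.mpr ⟨Finset.mem_univ _, fun i => ?_⟩
      have e1 := hx1 i
      have e2 : |x i - p.1 i| ≤ p.2 := by
        have := dist_le_pi_dist x p.1 i
        rw [Real.dist_eq] at this
        linarith
      simp only at e1
      have g1 := abs_le.mp e1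
      have g2 := abs_le.mp e2
      rw [abs_le]
      constructor <;> linarith [g1.1, g1.2, g2.1, g2.2]
    exact_mod_cast Finset.card_le_card this
  rw [hsum]
  rcases J.eq_empty_or_nonempty with h0 | ⟨j, hj⟩
  · rw [h0, Finset.card_empty, Nat.cast_zero, zero_mul]
    exact mul_nonneg hk0 (phi_nonneg s C hC p b hp hb)
  · have hmb : Meets p b := by
      rw [hJ] at hj
      obtain ⟨x, hx1, hx2⟩ := (Finset.mem_filter.mp hj).2
      refine ⟨x, fun i => ?_, hx2⟩
      have e1 := hx1 i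
      have e2 := h1 j i
      simp only at e1
      have g1 := abs_le.mp e1
      have g2 := abs_le.mp e2
      rw [abs_le]
      constructor <;> linarith [g1.1, g1.2, g2.1, g2.2]
    have hphi : phi s C p b = min 1 (C * (p.2 / b.2) ^ s) := by
      unfold phi; rw [if_pos hmb]
    rw [hphi]
    have hm1 : min 1 (C * (p.2 / r) ^ s) ≤ 1 := min_le_left _ _
    have hm0 : 0 ≤ min 1 (C * (p.2 / r) ^ s) := by positivity
    have hm2 : min 1 (C * (p.2 / r) ^ s) ≤ C * (p.2 / r) ^ s := min_le_right _ _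
    have hJ0 : (0 : ℝ) ≤ J.card := Nat.cast_nonneg _
    have hfirst : (J.card : ℝ) * min 1 (C * (p.2 / r) ^ s) ≤ k * 1 :=
      mul_le_mul hJk hm1 hm0 hk0
    have hsecond : (J.card : ℝ) * min 1 (C * (p.2 / r) ^ s) ≤ k * (C * (p.2 / b.2) ^ s) := by
      rcases le_or_gt r p.2 with hrp | hrp
      · calc (J.card : ℝ) * min 1 (C * (p.2 / r) ^ s) ≤ J.card * 1 :=
              mul_le_mul_of_nonneg_left hm1 hJ0
          _ = J.card := mul_one _
          _ ≤ C * (p.2 / b.2) ^ s * k := (hJsub p.2 hrp le_rfl).trans (h2 p.1 p.2 hrp)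
          _ = _ := by ring
      · have e1 := (hJsub r le_rfl hrp.le).trans (h3 p.1)
        calc (J.card : ℝ) * min 1 (C * (p.2 / r) ^ s)
            ≤ ((r / b.2) ^ s * k) * (C * (p.2 / r) ^ s) :=
              mul_le_mul e1 hm2 hm0 (by positivity)
          _ = k * (C * ((r / b.2) ^ s * (p.2 / r) ^ s)) := by ring
          _ = k * (C * (p.2 / b.2) ^ s) := by
              rw [← Real.mul_rpow (by positivity) (by positivity)]
              congr 3
              field_simp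
    rw [mul_min_of_nonneg _ _ hk0]
    exact le_min hfirst hsecond

open scoped Classical in
theorem tree : S_TREE := by
  intro d s C L x0 R0 hs hC hR0 hL0 hpos hsmall hch hpar
  have hC0 : 0 < C := by linarith
  obtain ⟨K, hKdef⟩ : ∃ K : ℕ → Set (Fin d → ℝ),
    K = fun n => {x | ∃ b ∈ L n, ∀ i, |x i - b.1 i| ≤ b.2} := ⟨_, rfl⟩
  have hKball : ∀ n, K n = ⋃ b ∈ L n, Metric.closedBall b.1 b.2 := by
    intro n
    rw [hKdef]
    ext x
    simp only [Set.mem_ofPred_eq, Set.mem_iUnion, Metric.mem_closedBall, exists_prop]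
    constructor
    · rintro ⟨b, hb, h⟩
      refine ⟨b, hb, ?_⟩
      rw [dist_pi_le_iff (hpos n b hb).le]
      intro i; rw [Real.dist_eq]; exact h i
    · rintro ⟨b, hb, h⟩
      refine ⟨b, hb, ?_⟩
      rw [dist_pi_le_iff (hpos n b hb).le] at h
      intro i; rw [← Real.dist_eq]; exact h i
  have hKcomp : ∀ n, IsCompact (K n) := by
    intro n
    rw [hKball]
    exact (L n).finite_toSet.isCompact_biUnion fun b _ => isCompact_closedBall _ _
  have hKsucc : ∀ n, K (n + 1) ⊆ K n := by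
    intro n x hx
    rw [hKdef] at hx ⊢
    obtain ⟨c, hc, hxc⟩ := hx
    obtain ⟨b, hb, hcb⟩ := hpar n c hc
    refine ⟨b, hb, fun i => ?_⟩
    have g1 := abs_le.mp (hxc i)
    have g2 := abs_le.mp (hcb i)
    rw [abs_le]
    constructor <;> linarith [g1.1, g1.2, g2.1, g2.2]
  have hKanti : Antitone K := antitone_nat_of_succ_le hKsucc
  have hset : {x : Fin d → ℝ | ∀ n, ∃ b ∈ L n, ∀ i, |x i - b.1 i| ≤ b.2} = ⋂ n, K n := by
    rw [hKdef]
    ext x; simp
  rw [hset]
  have hKc : IsCompact (⋂ n, K n) :=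
    (hKcomp 0).of_isClosed_subset (isClosed_iInter fun n => (hKcomp n).isClosed)
      (Set.iInter_subset _ 0)
  apply pos_of_good hs (c := R0 ^ s / C) (by positivity) hKc
  intro η hη F hF hcov
  -- n
  have hUopen : IsOpen (⋃ p ∈ F, Metric.ball p.1 p.2) :=
    isOpen_biUnion fun p _ => Metric.isOpen_ball
  obtain ⟨n1, hn1⟩ := exists_subset_nhds_of_isCompact' (hKanti.directed_ge) hKcomp
    (fun n => (hKcomp n).isClosed) (U := ⋃ p ∈ F, Metric.ball p.1 p.2)
    (fun x hx => hUopen.mem_nhds (hcov hx))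
  obtain ⟨n2, hn2⟩ := hsmall η hη
  obtain ⟨n, hn⟩ : ∃ n, n = max n1 n2 := ⟨_, rfl⟩
  have hKn : K n ⊆ ⋃ p ∈ F, Metric.ball p.1 p.2 :=
    (hKanti (hn ▸ le_max_left n1 n2)).trans hn1
  have hrad : ∀ b ∈ L n, b.2 ≤ η := hn2 n (hn ▸ le_max_right n1 n2)
  have hFpos : ∀ p ∈ F, 0 < p.2 := fun p hp => hη.trans_le (hF p hp)
  have key : ∀ k ≤ n, ∀ b ∈ L (n - k), 1 ≤ ∑ p ∈ F, phi s C p b := by
    intro k
    induction k with
    | zero =>
      intro _ b hb
      rw [Nat.sub_zero] at hb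
      have hbK : b.1 ∈ K n := by
        rw [hKdef]
        exact ⟨b, hb, fun i => by simpa using (hpos n b hb).le⟩
      have := hKn hbK
      simp only [Set.mem_iUnion, exists_prop] at this
      obtain ⟨p, hp, hbp⟩ := this
      have hb0 := hpos n b hb
      have hmeets : Meets p b := ⟨b.1, fun i => by simpa using hb0.le, hbp⟩
      have h1 : 1 ≤ phi s C p b := by
        unfold phi
        rw [if_pos hmeets]
        apply le_min le_rfl
        have e1 : 1 ≤ p.2 / b.2 := by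
          rw [one_le_div hb0]
          exact (hrad b hb).trans (hF p hp)
        have e2 : 1 ≤ (p.2 / b.2) ^ s := Real.one_le_rpow e1 hs.le
        calc (1 : ℝ) = 1 * 1 := (mul_one 1).symm
          _ ≤ C * (p.2 / b.2) ^ s := mul_le_mul hC e2 zero_le_one hC0.le
      exact h1.trans (Finset.single_le_sum (f := fun p => phi s C p b)
        (fun p hp => phi_nonneg s C hC p b (hFpos p hp) hb0) hp)
    | succ k ih =>
      intro hk b hb
      obtain ⟨kk, c, r, g1, g2, g3, g4, g5, g6⟩ := hch (n - (k + 1)) b hb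
      have e1 : n - (k + 1) + 1 = n - k := by omega
      rw [e1] at g3
      have hb0 := hpos _ b hb
      have hkk : (0 : ℝ) < kk := by exact_mod_cast g1
      have h1 : (kk : ℝ) ≤ ∑ j : Fin kk, ∑ p ∈ F, phi s C p (c j, r) := by
        calc (kk : ℝ) = ∑ _j : Fin kk, (1 : ℝ) := by simp
          _ ≤ _ := Finset.sum_le_sum fun j _ => ih (by omega) (c j, r) (g3 j)
      rw [Finset.sum_comm] at h1
      have h2 : ∑ p ∈ F, ∑ j : Fin kk, phi s C p (c j, r) ≤ ∑ p ∈ F, kk * phi s C p b :=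
        Finset.sum_le_sum fun p hp =>
          phi_step s C hC p b (hFpos p hp) hb0 kk c r g2 g4 g5 g6
      rw [← Finset.mul_sum] at h2
      have h3 : (kk : ℝ) * 1 ≤ kk * ∑ p ∈ F, phi s C p b := by rw [mul_one]; exact h1.trans h2
      exact le_of_mul_le_mul_left h3 hkk
  have hroot := key n le_rfl (x0, R0) (by rw [Nat.sub_self, hL0]; exact Finset.mem_singleton_self _)
  have h1 : ∑ p ∈ F, phi s C p (x0, R0) ≤ ∑ p ∈ F, C * (p.2 / R0) ^ s :=
    Finset.sum_le_sum fun p hp => phi_le s C hC p (x0, R0) (hFpos p hp) hR0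
  have h2 : ∑ p ∈ F, C * (p.2 / R0) ^ s = C / R0 ^ s * ∑ p ∈ F, p.2 ^ s := by
    rw [Finset.mul_sum]
    apply Finset.sum_congr rfl
    intro p hp
    rw [Real.div_rpow (hFpos p hp).le hR0.le]; ring
  have hR0s : 0 < R0 ^ s := by positivity
  have h3 : 1 ≤ C / R0 ^ s * ∑ p ∈ F, p.2 ^ s := by rw [← h2]; exact hroot.trans h1
  rw [div_le_iff₀ hC0]
  rw [div_mul_eq_mul_div, le_div_iff₀ hR0s, one_mul] at h3
  linarith

end Q91.JC
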