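import Pool.Agent.Q91.JC.On6
import Pool.Agent.Q91.JC.Avg2
import Pool.Agent.Q91.JC.Cnt
import Pool.Agent.Q91.JC.Dbl
import Pool.Agent.Q91.JC.Gp
import Pool.Agent.Q91.JC.Tree
import Pool.Agent.Q91.JC.Seq4
import Pool.Agent.Q91.JC.Par
import Pool.Agent.Q251.JC.Pig

namespace Q91.JC

open MeasureTheory

theorem main_of_sd (hSD : S_SD) (d m : ℕ) (hd : 1 ≤ d) (hm : 1 ≤ m) (s : ℝ) (hs : 0 < s)
    (hsd : s ≤ d) (A : Matrix (Fin (d + 1)) (Fin m) ℝ)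
    (hA : ((((m : ℝ) + s) / ((d : ℝ) + 1 - s) : ℝ) : EReal) < omegaExp A) :
    ∃ (ψ : ℕ → ℝ) (θ : Fin (d + m) → ℝ), (∀ q, 0 < ψ q) ∧ StrictAnti ψ ∧
      Summable (fun q : ℕ => ψ q ^ ((m : ℝ) + s) * (q : ℝ) ^ ((d : ℝ) - s)) ∧
      0 < μH[s] (SS ψ θ ∩ LA A) := by
  unfold omegaExp at hA
  obtain ⟨w, ⟨ω, rfl, hinf⟩, hlt⟩ := lt_sSup_iff.mp hA
  rw [EReal.coe_lt_coe_iff] at hlt
  rcases hsd.lt_or_eq with h | h
  · obtain ⟨ω', γ, s', h1, h2, h3, h4, h5, h6, h7⟩ := par d m s ω hm hs h hlt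
    have hHyp := Q251.JC.pig gp d m A ω ω' γ s' hd hm h1 h2 (hs.trans h3) h5 h6 hinf
    exact seq (on syn sc xc ext (avg db xc cl)) tree d m A γ s s' hd h2 hs h3 h4 h7 hHyp
  · subst h
    have hω : (d : ℝ) + m < ω := by
      have e1 : ((m : ℝ) + d) / ((d : ℝ) + 1 - d) = d + m := by
        rw [show (d : ℝ) + 1 - d = 1 by ring, div_one]; ring
      rwa [e1] at hlt
    exact hSD d m A ω hd hm hω hinf

end Q91.JC
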