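import Pool.Agent.Q91.JC.Stm

namespace Q91.JC

open MeasureTheory Finset

/-- a bound for `lam A 0 w` -/
theorem lam_zero_bound {d m : ℕ} (A : Matrix (Fin (d + 1)) (Fin m) ℝ) (w : Fin d → ℝ) (c : ℝ)
    (hw : ∀ i, |w i| ≤ c) (hc : 0 ≤ c) (l : Fin m) :
    |lam A 0 w l| ≤ (1 + ∑ j, ∑ i, |A i j|) * c := by
  have h1 : lam A 0 w l = ∑ i, w i * A i.succ l := by simp [lam]
  rw [h1]
  have h2 : |∑ i, w i * A i.succ l| ≤ ∑ i : Fin d, c * |A i.succ l| := by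
    refine (Finset.abs_sum_le_sum_abs _ _).trans (Finset.sum_le_sum fun i _ => ?_)
    rw [abs_mul]
    exact mul_le_mul_of_nonneg_right (hw i) (abs_nonneg _)
  have h3 : ∑ i : Fin d, |A i.succ l| ≤ ∑ i, |A i l| := by
    rw [Fin.sum_univ_succ]
    linarith [abs_nonneg (A 0 l)]
  have h4 : ∑ i, |A i l| ≤ ∑ j, ∑ i, |A i j| :=
    Finset.single_le_sum (f := fun j => ∑ i, |A i j|)
      (fun j _ => Finset.sum_nonneg fun i _ => abs_nonneg _) (Finset.mem_univ l)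
  rw [← Finset.mul_sum] at h2
  nlinarith [h2, h3, h4]

/-- real parameters: for small positive `x`, `C * x ^ a ≤ 1`. -/
theorem rpow_small (C a : ℝ) (ha : 0 < a) : ∃ x0 : ℝ, 0 < x0 ∧ ∀ x : ℝ, 0 < x → x ≤ x0 → C * x ^ a ≤ 1 := by
  refine ⟨(1 / (|C| + 1)) ^ (1 / a), by positivity, fun x hx hx0 => ?_⟩
  have h1 : x ^ a ≤ 1 / (|C| + 1) := by
    calc x ^ a ≤ ((1 / (|C| + 1)) ^ (1 / a)) ^ a := Real.rpow_le_rpow hx.le hx0 ha.le
      _ = 1 / (|C| + 1) := by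
        rw [← Real.rpow_mul (by positivity)]
        rw [one_div_mul_cancel ha.ne', Real.rpow_one]
  have h2 : 0 ≤ x ^ a := Real.rpow_nonneg hx.le a
  calc C * x ^ a ≤ |C| * x ^ a := mul_le_mul_of_nonneg_right (le_abs_self C) h2
    _ ≤ |C| * (1 / (|C| + 1)) := mul_le_mul_of_nonneg_left h1 (abs_nonneg C)
    _ ≤ 1 := by
      rw [mul_one_div, div_le_one (by positivity)]; linarith

/-- geometric sum bound -/
theorem geom_le (e : ℝ) (he : 0 < e) (K : ℕ) :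
    ∑ k ∈ range (K + 1), (2 : ℝ) ^ (-((k : ℝ) * e)) ≤ 1 / (1 - (2 : ℝ) ^ (-e)) := by
  have h1 : (2 : ℝ) ^ (-e) < 1 := by
    rw [Real.rpow_neg (by norm_num)]
    exact inv_lt_one_of_one_lt₀ (Real.one_lt_rpow (by norm_num) he)
  have h0 : 0 < (2 : ℝ) ^ (-e) := by positivity
  have h2 : ∀ k : ℕ, (2 : ℝ) ^ (-((k : ℝ) * e)) = ((2 : ℝ) ^ (-e)) ^ k := by
    intro k
    rw [← Real.rpow_natCast, ← Real.rpow_mul (by norm_num)]
    congr 1; ring
  simp only [h2]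
  have h3 := Summable.sum_le_tsum (range (K + 1)) (fun k _ => by positivity)
    (summable_geometric_of_lt_one h0.le h1)
  rw [tsum_geometric_of_lt_one h0.le h1] at h3
  simpa using h3

theorem grid_close {d : ℕ} (θ0 : Fin d → ℝ) (δ : ℝ) (hδ : 0 ≤ δ) (N : ℕ) (κ : Fin d → Fin N)
    (i : Fin d) : |grid θ0 δ N κ i - θ0 i| ≤ δ := by
  unfold grid
  have hN : 0 < (N : ℝ) := by
    have := (κ i).pos
    exact_mod_cast this
  have h1 : ((κ i : ℕ) : ℝ) ≤ N := by exact_mod_cast (κ i).2.le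
  rw [add_sub_cancel_left, abs_of_nonneg (by positivity), div_le_iff₀ hN]
  exact mul_le_mul_of_nonneg_left h1 hδ

end Q91.JC
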