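import Pool.Agent.Q91.JC.On

namespace Q91.JC

open MeasureTheory Finset

/-- the ball counts from the dyadic counts -/
theorem ball_counts {d : ℕ} (s s2 B R κ r ψ0 Cs : ℝ) (Q kmax n : ℕ) (c : Fin n → (Fin d → ℝ))
    (hs : 0 < s) (hs2 : s < s2) (hB : 0 < B) (hR : 0 < R) (hκ : 0 < κ) (hκ1 : κ ≤ 1)
    (hψ : 0 < ψ0) (hQ : 1 ≤ Q) (hr : r = κ * ψ0 / Q) (hCs4 : (4 : ℝ) ^ s ≤ Cs)
    (hCsB : 4 * B * (16 / κ) ^ s2 ≤ Cs) (hr4 : 4 * r < R) (hrs : Cs * (r / R) ^ (s2 - s) ≤ 1)
    (hk : (1 / (2 : ℝ) ^ kmax) ≤ 16 * ψ0 / (Q * R))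
    (h : ∀ g : Fin n, ∀ k ≤ kmax,
      ((univ.filter (fun j : Fin n => ∀ i, |c j i - c g i| ≤ R / 2 ^ k)).card : ℝ) *
        (2 : ℝ) ^ ((k : ℝ) * s2) ≤ 4 * B * n) :
    (∀ (x : Fin d → ℝ) (ρ : ℝ), r ≤ ρ →
        ((Finset.univ.filter (fun j : Fin n => ∀ i, |c j i - x i| ≤ 2 * ρ)).card : ℝ) ≤
          Cs * (ρ / R) ^ s * n) ∧
      (∀ x : Fin d → ℝ,
        ((Finset.univ.filter (fun j : Fin n => ∀ i, |c j i - x i| ≤ 2 * r)).card : ℝ) ≤
          (r / R) ^ s * n) := by
  have hQ0 : 0 < (Q : ℝ) := by exact_mod_cast hQ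
  have hr0 : 0 < r := by rw [hr]; positivity
  have hn0 : 0 ≤ (n : ℝ) := Nat.cast_nonneg n
  have hCs0 : 0 < Cs := lt_of_lt_of_le (by positivity) hCs4
  -- key bound
  have key : ∀ (x : Fin d → ℝ) (ρ : ℝ), r ≤ ρ → 4 * ρ < R →
      ((Finset.univ.filter (fun j : Fin n => ∀ i, |c j i - x i| ≤ 2 * ρ)).card : ℝ) ≤
          Cs * (ρ / R) ^ s2 * n := by
    intro x ρ hρ hρR
    have hρ0 : 0 < ρ := hr0.trans_le hρ
    rcases (Finset.univ.filter (fun j : Fin n => ∀ i, |c j i - x i| ≤ 2 * ρ)).eq_empty_or_nonempty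
      with h0 | ⟨g, hg⟩
    · rw [h0]; simp only [Finset.card_empty, Nat.cast_zero]; positivity
    · have hg' := (Finset.mem_filter.mp hg).2
      -- the largest k
      let P : ℕ → Prop := fun k => 4 * ρ ≤ R / 2 ^ k
      have hP0 : P 0 := by simp only [P, pow_zero, div_one]; exact hρR.le
      let k := Nat.findGreatest P kmax
      have hkk : k ≤ kmax := Nat.findGreatest_le kmax
      have hPk : P k := Nat.findGreatest_spec (Nat.zero_le kmax) hP0
      have hcount : ((Finset.univ.filter (fun j : Fin n => ∀ i, |c j i - x i| ≤ 2 * ρ)).card : ℝ) ≤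
          ((univ.filter (fun j : Fin n => ∀ i, |c j i - c g i| ≤ R / 2 ^ k)).card : ℝ) := by
        have : (Finset.univ.filter (fun j : Fin n => ∀ i, |c j i - x i| ≤ 2 * ρ)) ⊆
            (univ.filter (fun j : Fin n => ∀ i, |c j i - c g i| ≤ R / 2 ^ k)) := by
          intro j hj
          simp only [Finset.mem_filter, Finset.mem_univ, true_and] at hj ⊢
          intro i
          have h1 := hj i
          have h2 := hg' i
          have h3 : 4 * ρ ≤ R / 2 ^ k := hPk
          rw [abs_le] at *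
          constructor <;> linarith [h1.1, h1.2, h2.1, h2.2]
        exact_mod_cast Finset.card_le_card this
      have h2k : (1 : ℝ) / 2 ^ k ≤ 16 * ρ / (κ * R) := by
        rcases Nat.lt_or_ge k kmax with h1 | h1
        · have h2 : ¬ P (k + 1) := Nat.findGreatest_is_greatest (Nat.lt_succ_self k) h1
          simp only [P, not_le] at h2
          rw [div_lt_iff₀ (by positivity), pow_succ] at h2
          have h3 : R < 8 * ρ * 2 ^ k := by linarith
          rw [div_le_div_iff₀ (by positivity) (by positivity)]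
          have h4 : 0 < ρ * 2 ^ k := by positivity
          nlinarith [mul_le_mul_of_nonneg_right hκ1 hR.le]
        · have h2 : k = kmax := le_antisymm hkk h1
          rw [h2]
          refine hk.trans ?_
          have h3 : κ * ψ0 / Q ≤ ρ := hr ▸ hρ
          rw [div_le_iff₀ hQ0] at h3
          rw [div_le_div_iff₀ (by positivity) (by positivity)]
          nlinarith [mul_le_mul_of_nonneg_right h3 hR.le]
      have hh := h g k hkk
      have hpos : 0 < (2 : ℝ) ^ ((k : ℝ) * s2) := by positivity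
      have hs20 : 0 < s2 := hs.trans hs2
      calc ((Finset.univ.filter (fun j : Fin n => ∀ i, |c j i - x i| ≤ 2 * ρ)).card : ℝ)
          ≤ 4 * B * n / (2 : ℝ) ^ ((k : ℝ) * s2) := by
            rw [le_div_iff₀ hpos]
            exact (mul_le_mul_of_nonneg_right hcount hpos.le).trans hh
        _ = 4 * B * n * (1 / 2 ^ k) ^ s2 := by
            rw [div_eq_mul_inv, Real.rpow_mul (by norm_num), Real.rpow_natCast,
              Real.div_rpow (by norm_num) (by positivity), Real.one_rpow, one_div]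
        _ ≤ 4 * B * n * (16 * ρ / (κ * R)) ^ s2 := by
            apply mul_le_mul_of_nonneg_left _ (by positivity)
            exact Real.rpow_le_rpow (by positivity) h2k hs20.le
        _ = (4 * B * (16 / κ) ^ s2) * (ρ / R) ^ s2 * n := by
            rw [show 16 * ρ / (κ * R) = (16 / κ) * (ρ / R) by field_simp,
              Real.mul_rpow (by positivity) (by positivity)]
            ring
        _ ≤ Cs * (ρ / R) ^ s2 * n := by
            apply mul_le_mul_of_nonneg_right _ hn0
            exact mul_le_mul_of_nonneg_right hCsB (by positivity)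
  refine ⟨fun x ρ hρ => ?_, fun x => ?_⟩
  · have hρ0 : 0 < ρ := hr0.trans_le hρ
    rcases lt_or_ge (4 * ρ) R with h1 | h1
    · refine (key x ρ hρ h1).trans ?_
      apply mul_le_mul_of_nonneg_right _ hn0
      apply mul_le_mul_of_nonneg_left _ hCs0.le
      apply Real.rpow_le_rpow_of_exponent_ge (by positivity) _ hs2.le
      rw [div_le_one hR]; linarith
    · have h2 : ((Finset.univ.filter (fun j : Fin n => ∀ i, |c j i - x i| ≤ 2 * ρ)).card : ℝ) ≤ n := by
        have := Finset.card_filter_le (Finset.univ : Finset (Fin n)) (fun j : Fin n => ∀ i, |c j i - x i| ≤ 2 * ρ)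
        rw [Finset.card_univ, Fintype.card_fin] at this
        exact_mod_cast this
      refine h2.trans ?_
      have h3 : 1 ≤ Cs * (ρ / R) ^ s := by
        have h4 : (1 / 4 : ℝ) ^ s ≤ (ρ / R) ^ s := by
          apply Real.rpow_le_rpow (by norm_num) _ hs.le
          rw [div_le_div_iff₀ (by norm_num) hR]; linarith
        have h5 : (4 : ℝ) ^ s * (1 / 4 : ℝ) ^ s = 1 := by
          rw [← Real.mul_rpow (by norm_num) (by norm_num)]
          norm_num
        calc (1 : ℝ) = (4 : ℝ) ^ s * (1 / 4 : ℝ) ^ s := h5.symm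
          _ ≤ Cs * (ρ / R) ^ s := mul_le_mul hCs4 h4 (by positivity) hCs0.le
      nlinarith
  · refine (key x r le_rfl hr4).trans ?_
    apply mul_le_mul_of_nonneg_right _ hn0
    have h1 : (r / R) ^ s2 = (r / R) ^ (s2 - s) * (r / R) ^ s := by
      rw [← Real.rpow_add (by positivity)]; congr 1; ring
    rw [h1, ← mul_assoc]
    exact mul_le_of_le_one_left (by positivity) hrs

end Q91.JC
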