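import Pool.Agent.Q91.JC.On2

namespace Q91.JC

open MeasureTheory Finset

/-- the choice of the threshold for `V` -/
theorem choose_V (γ a b R ε ε5 : ℝ) (hγ : 0 < γ) (hab : a < b) (hR : 0 < R)
    (hε : 0 < ε) (hε5 : 0 < ε5) :
    ∃ V0 : ℝ, ∀ V : ℝ, 1 ≤ V → V0 ≤ V → V ^ (-γ) ≤ ε5 ∧
      V ^ (-b) * (96 * V / R) ^ a ≤ ε := by
  obtain ⟨x3, hx3, h3⟩ := rpow_small (1 / ε5) γ hγ
  obtain ⟨x4, hx4, h4⟩ := rpow_small ((96 / R) ^ a / ε) (b - a) (by linarith)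
  refine ⟨1 / x3 + 1 / x4, fun V hV1 hV => ?_⟩
  have hV0 : 0 < V := by linarith
  have h5 : 1 / V ≤ x3 := by
    rw [div_le_iff₀ hV0]
    have : 1 / x3 ≤ V := by linarith [one_div_pos.mpr hx4]
    rw [div_le_iff₀ hx3] at this; linarith
  have h6 : 1 / V ≤ x4 := by
    rw [div_le_iff₀ hV0]
    have : 1 / x4 ≤ V := by linarith [one_div_pos.mpr hx3]
    rw [div_le_iff₀ hx4] at this; linarith
  have h7 := h3 (1 / V) (by positivity) h5
  have h8 := h4 (1 / V) (by positivity) h6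
  have e1 : (1 / V) ^ γ = V ^ (-γ) := by
    rw [one_div, Real.inv_rpow hV0.le, Real.rpow_neg hV0.le]
  have e2 : (1 / V) ^ (b - a) = V ^ (-b) * V ^ a := by
    rw [one_div, Real.inv_rpow hV0.le, ← Real.rpow_neg hV0.le, ← Real.rpow_add hV0]
    congr 1; ring
  constructor
  · rw [e1, div_mul_eq_mul_div, one_mul, div_le_one hε5] at h7
    exact h7
  · rw [e2] at h8
    have e3 : (96 * V / R) ^ a = (96 / R) ^ a * V ^ a := by
      rw [← Real.mul_rpow (by positivity) hV0.le]; congr 1; ring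
    rw [e3]
    rw [div_mul_eq_mul_div, div_le_one hε] at h8
    linarith

/-- the weighted sum of the constants -/
theorem sum_ab (d kmax : ℕ) (e s' s2 T Θ δ1 QR S1 : ℝ) (he0 : 0 < e) (hs2s' : s' - s2 = 2 * e)
    (hS1 : S1 = 1 / (1 - (2 : ℝ) ^ (-e))) (hS10 : 0 < S1) (hT' : 1 ≤ 4 * T + Θ + 1)
    (hδ1 : 0 < δ1) (hQR : 0 < QR)
    (hK : ((4 * T + Θ + 1) / δ1) ^ d * ((4 * T + Θ + 1) / QR) ^ e ≤ 1) :
    ∑ k ∈ Finset.range (kmax + 1), ((if 2 ^ k * (4 * T + Θ + 1) ≤ QR then 1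
      else ((4 * T + Θ + 1) / δ1) ^ d) * (2 : ℝ) ^ (-((k : ℝ) * s')) / S1) *
        (2 : ℝ) ^ ((k : ℝ) * s2) ≤ 1 := by
  have h1 : ∀ k ∈ Finset.range (kmax + 1), ((if 2 ^ k * (4 * T + Θ + 1) ≤ QR then 1
      else ((4 * T + Θ + 1) / δ1) ^ d) * (2 : ℝ) ^ (-((k : ℝ) * s')) / S1) *
        (2 : ℝ) ^ ((k : ℝ) * s2) ≤ (2 : ℝ) ^ (-((k : ℝ) * e)) / S1 := by
    intro k _
    rw [div_mul_eq_mul_div]
    apply div_le_div_of_nonneg_right _ hS10.le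
    rw [mul_assoc, ← Real.rpow_add (by norm_num)]
    have h2 : -((k : ℝ) * s') + (k : ℝ) * s2 = -((k : ℝ) * e) + -((k : ℝ) * e) := by
      have : s' = s2 + 2 * e := by linarith
      rw [this]; ring
    rw [h2, Real.rpow_add (by norm_num)]
    have h3 : 0 < (2 : ℝ) ^ (-((k : ℝ) * e)) := by positivity
    have h4 : (2 : ℝ) ^ (-((k : ℝ) * e)) ≤ 1 := by
      apply Real.rpow_le_one_of_one_le_of_nonpos (by norm_num)
      have : 0 ≤ (k : ℝ) * e := by positivity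
      linarith
    split_ifs with h5
    · rw [one_mul]; nlinarith
    · push Not at h5
      have h6 : (2 : ℝ) ^ (-((k : ℝ) * e)) ≤ ((4 * T + Θ + 1) / QR) ^ e := by
        have h7 : (1 : ℝ) / 2 ^ k ≤ (4 * T + Θ + 1) / QR := by
          rw [div_le_div_iff₀ (by positivity) hQR]
          linarith
        have h8 : (2 : ℝ) ^ (-((k : ℝ) * e)) = ((1 : ℝ) / 2 ^ k) ^ e := by
          rw [Real.div_rpow (by norm_num) (by positivity), Real.one_rpow, ← Real.rpow_natCast,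
            ← Real.rpow_mul (by norm_num), Real.rpow_neg (by norm_num), one_div]
        rw [h8]
        exact Real.rpow_le_rpow (by positivity) h7 he0.le
      have hK00 : 0 < ((4 * T + Θ + 1) / δ1) ^ d := by positivity
      have h7 : ((4 * T + Θ + 1) / δ1) ^ d * (2 : ℝ) ^ (-((k : ℝ) * e)) ≤ 1 :=
        (mul_le_mul_of_nonneg_left h6 hK00.le).trans hK
      calc ((4 * T + Θ + 1) / δ1) ^ d * ((2 : ℝ) ^ (-((k : ℝ) * e)) * (2 : ℝ) ^ (-((k : ℝ) * e)))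
          = (((4 * T + Θ + 1) / δ1) ^ d * (2 : ℝ) ^ (-((k : ℝ) * e))) *
              (2 : ℝ) ^ (-((k : ℝ) * e)) := by ring
        _ ≤ 1 * (2 : ℝ) ^ (-((k : ℝ) * e)) := mul_le_mul_of_nonneg_right h7 h3.le
        _ = _ := one_mul _
  refine (Finset.sum_le_sum h1).trans ?_
  rw [← Finset.sum_div, div_le_one hS10, hS1]
  exact geom_le e he0 kmax

/-- denominators and positions of the points of a cluster -/
theorem elem_bounds {d m : ℕ} (A : Matrix (Fin (d + 1)) (Fin m) ℝ) (x0 θ : Fin d → ℝ)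
    (R ψ0 L T Θ : ℝ) (Q : ℕ) (X W v : ZP d) (hR : 0 < R) (hx0 : ∀ i, |x0 i| ≤ 1)
    (hX1 : (Q : ℤ) ≤ X.1) (hX2 : X.1 < 2 * Q)
    (hX3 : ∀ i, |(X.2 i : ℝ) - X.1 * x0 i| ≤ Q * R / 4)
    (hW : |(W.1 : ℝ) - X.1| ≤ T ∧ ∀ i, |(W.2 i : ℝ) - X.2 i| ≤ T) (hTQ32 : 32 * T ≤ Q)
    (h16 : 16 * (2 * T + Θ) ≤ Q * R) (hLQ : L ≤ Q * R / 8) (hT : 0 ≤ T)
    (hgrid : ∀ i, |θ i| ≤ Θ) (hv' : v ∈ GG A x0 R L ψ0) :
    (27 / 32 : ℝ) * Q ≤ ((W + v).1 : ℝ) ∧ ((W + v).1 : ℝ) ≤ 3 * Q ∧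
      ∀ i, |((W + v).2 i : ℝ) + θ i - ((W + v).1 : ℝ) * x0 i| ≤ 7 / 16 * (Q * R) := by
  have h1 : |(v.1 : ℝ)| ≤ Q / 8 := by
    have h2 := hv'.1.1
    have h3 : R * |(v.1 : ℝ)| ≤ R * (Q / 8) := by linarith
    exact le_of_mul_le_mul_left h3 hR
  have h4 : (Q : ℝ) ≤ (X.1 : ℝ) := by exact_mod_cast hX1
  have h5 : (X.1 : ℝ) ≤ 2 * Q := by exact_mod_cast hX2.le
  have h6 := hW.1
  rw [abs_le] at h1 h6
  have h7 : ((W + v).1 : ℝ) = (W.1 : ℝ) + v.1 := by rw [Prod.fst_add, Int.cast_add]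
  refine ⟨by rw [h7]; linarith [h1.1, h6.1], by rw [h7]; linarith [h1.2, h6.2], fun i => ?_⟩
  have h8 : ((W + v).2 i : ℝ) = (W.2 i : ℝ) + v.2 i := by
    rw [Prod.snd_add, Pi.add_apply, Int.cast_add]
  rw [h7, h8]
  have h9 := hW.2 i
  have h10 := hX3 i
  have h11 := hv'.1.2 i
  have h12 := hgrid i
  have h13 : |((W.1 : ℝ) - X.1) * x0 i| ≤ T := by
    rw [abs_mul]
    calc |(W.1 : ℝ) - X.1| * |x0 i| ≤ T * 1 := mul_le_mul hW.1 (hx0 i) (abs_nonneg _) hT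
      _ = T := mul_one T
  have h14 : (W.2 i : ℝ) + v.2 i + θ i - ((W.1 : ℝ) + v.1) * x0 i =
      ((W.2 i : ℝ) - X.2 i) + ((X.2 i : ℝ) - X.1 * x0 i) + ((v.2 i : ℝ) - v.1 * x0 i) +
        θ i - ((W.1 : ℝ) - X.1) * x0 i := by ring
  rw [h14]
  have g1 := abs_le.mp h9
  have g2 := abs_le.mp h10
  have g3 := abs_le.mp h11
  have g4 := abs_le.mp h12
  have g5 := abs_le.mp h13
  rw [abs_le]
  constructor
  · linarith [g1.1, g2.1, g3.1, g4.1, g5.2]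
  · linarith [g1.2, g2.2, g3.2, g4.2, g5.1]

/-- nearness of the new base point -/
theorem near_base {d m : ℕ} (A : Matrix (Fin (d + 1)) (Fin m) ℝ) (θ θ0 : Fin d → ℝ) (W W0 : ZP d)
    (δ δ1 : ℝ) (h1 : Near (δ / 2) (lamz A (W - W0))) (hδ1 : 0 ≤ δ1)
    (hθ : ∀ i, |θ i - θ0 i| ≤ δ1) (hδ1c : (1 + ∑ j, ∑ i, |A i j|) * δ1 ≤ δ / 2) :
    Near δ (fun j => lam A W.1 (fun i => (W.2 i : ℝ) + θ i) j -
        lam A W0.1 (fun i => (W0.2 i : ℝ) + θ0 i) j) := by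
  have h3 : ∀ j, |lam A 0 (fun i => θ i - θ0 i) j| ≤ δ / 2 := by
    intro j
    exact (lam_zero_bound A _ δ1 hθ hδ1 j).trans hδ1c
  have h4 : Near (m := m) (δ / 2) (lam A 0 (fun i => θ i - θ0 i)) :=
    ⟨fun _ => 0, fun j => by simpa using h3 j⟩
  refine (Near.add h1 h4 (w := _) ?_).mono (by linarith)
  intro j
  rw [lamz_sub]
  simp only [lamz, lam]
  have e1 : ∑ i, ((W.2 i : ℝ) + θ i) * A i.succ j = ∑ i, (W.2 i : ℝ) * A i.succ j +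
      ∑ i, θ i * A i.succ j := by
    rw [← Finset.sum_add_distrib]; exact Finset.sum_congr rfl fun i _ => by ring
  have e2 : ∑ i, ((W0.2 i : ℝ) + θ0 i) * A i.succ j = ∑ i, (W0.2 i : ℝ) * A i.succ j +
      ∑ i, θ0 i * A i.succ j := by
    rw [← Finset.sum_add_distrib]; exact Finset.sum_congr rfl fun i _ => by ring
  have e3 : ∑ i, (θ i - θ0 i) * A i.succ j = ∑ i, θ i * A i.succ j - ∑ i, θ0 i * A i.succ j := by
    rw [← Finset.sum_sub_distrib]; exact Finset.sum_congr rfl fun i _ => by ring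
  rw [e1, e2, e3]; ring

/-- the identity for the image of an element of the cluster -/
theorem lam_diff {d m : ℕ} (A : Matrix (Fin (d + 1)) (Fin m) ℝ) (θ : Fin d → ℝ) (W v : ZP d)
    (l : Fin m) : lam A ((W + v).1 : ℝ) (fun i => ((W + v).2 i : ℝ) + θ i) l -
          lam A (W.1 : ℝ) (fun i => (W.2 i : ℝ) + θ i) l = lamz A v l := by
  simp only [lamz, lam, Prod.fst_add, Prod.snd_add, Pi.add_apply, Int.cast_add]
  have e1 : ∑ i, ((W.2 i : ℝ) + (v.2 i : ℝ) + θ i) * A i.succ l =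
      ∑ i, ((W.2 i : ℝ) + θ i) * A i.succ l + ∑ i, (v.2 i : ℝ) * A i.succ l := by
    rw [← Finset.sum_add_distrib]; exact Finset.sum_congr rfl fun i _ => by ring
  rw [e1]; ring

/-- position of a point -/
theorem pt_bound {d : ℕ} (w : ZP d) (θ x0 : Fin d → ℝ) (Q R : ℝ) (hQ : 0 < Q) (hR : 0 < R)
    (h1 : (27 / 32 : ℝ) * Q ≤ (w.1 : ℝ)) (i : Fin d)
    (h3 : |(w.2 i : ℝ) + θ i - (w.1 : ℝ) * x0 i| ≤ 7 / 16 * (Q * R)) :
    |pt w θ i - x0 i| ≤ 2 / 3 * R := by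
  have h5 : 0 < (w.1 : ℝ) := by
    have : (0 : ℝ) < 27 / 32 * Q := by positivity
    exact this.trans_le h1
  have h6 : pt w θ i - x0 i = ((w.2 i : ℝ) + θ i - (w.1 : ℝ) * x0 i) / w.1 := by
    unfold pt; field_simp
  rw [h6, abs_div, abs_of_pos h5, div_le_iff₀ h5]
  refine h3.trans ?_
  have h7 : R * (27 / 32 * Q) ≤ R * (w.1 : ℝ) := mul_le_mul_of_nonneg_left h1 hR.le
  have h8 : 0 < Q * R := mul_pos hQ hR
  linarith

end Q91.JC
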