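import Pool.Agent.Q91.JC.On3

namespace Q91.JC

open MeasureTheory Finset

open scoped Classical in
/-- the last part of the one node lemma: from the chosen set `G'` to the conclusion -/
theorem on_last (d m : ℕ) (A : Matrix (Fin (d + 1)) (Fin m) ℝ) (s s2 κ B Cs : ℝ)
    (x0 : Fin d → ℝ) (R : ℝ) (W0 W X : ZP d) (θ0 θ : Fin d → ℝ) (δ δ1 ε L T Θ ψ0 : ℝ)
    (Q kmax : ℕ) (G G' : Finset (ZP d))
    (hs : 0 < s) (hs2 : s < s2) (hds : 0 < (d : ℝ) + 1 - s) (hκ : 0 < κ) (hκ1 : κ ≤ 1) (hB : 0 < B)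
    (hCs4 : (4 : ℝ) ^ s ≤ Cs) (hCsB : 4 * B * (16 / κ) ^ s2 ≤ Cs)
    (hx0 : ∀ i, |x0 i| ≤ 1) (hR : 0 < R) (hε : 0 < ε)
    (hδ1 : 0 ≤ δ1) (hδ1b : δ1 ≤ δ) (hδ1c : (1 + ∑ j, ∑ i, |A i j|) * δ1 ≤ δ / 2)
    (hθ : ∀ i, |θ i - θ0 i| ≤ δ1) (hgrid : ∀ i, |θ i| ≤ Θ)
    (hψpos : 0 < ψ0) (hψε : ψ0 ≤ ε) (hψR : ψ0 ≤ R / 8)
    (hrs : Cs * (κ * ψ0 / Q / R) ^ (s2 - s) ≤ 1)
    (hQ : 1 ≤ Q) (hQR : 8 * L ≤ Q * R) (hLε : 1 / ε ≤ L) (hR1 : R ≤ 1)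
    (hT : 0 ≤ T) (hTQ32 : 32 * T ≤ Q) (h16 : 16 * (2 * T + Θ) ≤ Q * R)
    (hcost : ψ0 ^ ((m : ℝ) + s) * (3 * Q : ℝ) ^ ((d : ℝ) + 1 - s) ≤ ε)
    (hX1 : (Q : ℤ) ≤ X.1) (hX2 : X.1 < 2 * Q)
    (hX3 : ∀ i, |(X.2 i : ℝ) - X.1 * x0 i| ≤ Q * R / 4)
    (hW : |(W.1 : ℝ) - X.1| ≤ T ∧ ∀ i, |(W.2 i : ℝ) - X.2 i| ≤ T)
    (hWN : Near (δ / 2) (lamz A (W - W0)))
    (hGmem : ∀ u, u ∈ G → u ∈ GG A x0 R L ψ0) (hG'sub : G' ⊆ G) (hGne : 0 < G.card)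
    (hG'card : (G.card : ℝ) ≤ 2 * (G'.card : ℝ))
    (hk : (1 / (2 : ℝ) ^ kmax) ≤ 16 * ψ0 / (Q * R))
    (hG' : ∀ g ∈ G', ∀ k ≤ kmax,
      ((G.filter (fun u => ∀ i, |pt (W + u) θ i - pt (W + g) θ i| ≤ R / 2 ^ k)).card : ℝ) *
        (2 : ℝ) ^ ((k : ℝ) * s2) ≤ 2 * B * (G.card : ℝ)) :
    ∃ (Q : ℕ) (ψ0 r : ℝ) (θ : Fin d → ℝ) (W : ZP d) (n : ℕ) (u : Fin n → ZP d),
      1 ≤ Q ∧ 0 < ψ0 ∧ ψ0 ≤ ε ∧ r = κ * ψ0 / Q ∧ r ≤ ε ∧ r ≤ R / 3 ∧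
      ψ0 ^ ((m : ℝ) + s) * (3 * Q : ℝ) ^ ((d : ℝ) + 1 - s) ≤ ε ∧ 0 < n ∧
      (∀ i, |θ i - θ0 i| ≤ δ) ∧
      Near δ (fun j => lam A W.1 (fun i => (W.2 i : ℝ) + θ i) j -
        lam A W0.1 (fun i => (W0.2 i : ℝ) + θ0 i) j) ∧
      (∀ j, 1 / ε ≤ ((u j).1 : ℝ) ∧ ((u j).1 : ℝ) ≤ 3 * Q ∧
        Near ψ0 (fun l => lam A (u j).1 (fun i => ((u j).2 i : ℝ) + θ i) l -
          lam A W.1 (fun i => (W.2 i : ℝ) + θ i) l) ∧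
        ∀ i, |pt (u j) θ i - x0 i| ≤ 2 / 3 * R) ∧
      (∀ (x : Fin d → ℝ) (ρ : ℝ), r ≤ ρ →
        ((Finset.univ.filter (fun j : Fin n => ∀ i, |pt (u j) θ i - x i| ≤ 2 * ρ)).card : ℝ) ≤
          Cs * (ρ / R) ^ s * n) ∧
      (∀ x : Fin d → ℝ,
        ((Finset.univ.filter (fun j : Fin n => ∀ i, |pt (u j) θ i - x i| ≤ 2 * r)).card : ℝ) ≤
          (r / R) ^ s * n) := by
  have hQ0 : 0 < (Q : ℝ) := by exact_mod_cast hQ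
  have hG'pos : 0 < G'.card := by
    have h0 : 0 < (G.card : ℝ) := by exact_mod_cast hGne
    have : 0 < (G'.card : ℝ) := by linarith
    exact_mod_cast this
  have hQ1 : (1 : ℝ) ≤ Q := by exact_mod_cast hQ
  have hrψ : κ * ψ0 / Q ≤ ψ0 := by
    rw [div_le_iff₀ hQ0]
    calc κ * ψ0 ≤ 1 * ψ0 := mul_le_mul_of_nonneg_right hκ1 hψpos.le
      _ = ψ0 * 1 := by ring
      _ ≤ ψ0 * Q := mul_le_mul_of_nonneg_left hQ1 hψpos.le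
  have hr0 : 0 < κ * ψ0 / Q := by positivity
  have hLQ : L ≤ Q * R / 8 := by linarith
  have hu : ∀ v ∈ G, (27 / 32 : ℝ) * Q ≤ ((W + v).1 : ℝ) ∧ ((W + v).1 : ℝ) ≤ 3 * Q ∧
      ∀ i, |((W + v).2 i : ℝ) + θ i - ((W + v).1 : ℝ) * x0 i| ≤ 7 / 16 * (Q * R) :=
    fun v hv => elem_bounds A x0 θ R ψ0 L T Θ Q X W v hR hx0 hX1 hX2 hX3 hW hTQ32 h16 hLQ hT
      hgrid (hGmem v hv)
  let em : Fin G'.card ≃ G' := G'.equivFin.symm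
  have hcnt : ∀ g : Fin G'.card, ∀ k ≤ kmax,
      ((univ.filter (fun j : Fin G'.card => ∀ i, |pt (W + (em j : ZP d)) θ i -
        pt (W + (em g : ZP d)) θ i| ≤ R / 2 ^ k)).card : ℝ) *
        (2 : ℝ) ^ ((k : ℝ) * s2) ≤ 4 * B * (G'.card : ℕ) := by
    intro g k hkk
    have h1 := hG' (em g : ZP d) (em g).2 k hkk
    have h2 : (univ.filter (fun j : Fin G'.card => ∀ i, |pt (W + (em j : ZP d)) θ i -
        pt (W + (em g : ZP d)) θ i| ≤ R / 2 ^ k)).card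
        ≤ (G.filter (fun v => ∀ i, |pt (W + v) θ i - pt (W + (em g : ZP d)) θ i| ≤
          R / 2 ^ k)).card := by
      apply Finset.card_le_card_of_injOn (fun j => (em j : ZP d))
      · intro j hj
        have hj' := (Finset.mem_filter.mp hj).2
        exact Finset.mem_coe.mpr (Finset.mem_filter.mpr ⟨hG'sub (em j).2, hj'⟩)
      · intro j _ j' _ hjj
        exact em.injective (Subtype.ext hjj)
    have h3 : ((univ.filter (fun j : Fin G'.card => ∀ i, |pt (W + (em j : ZP d)) θ i -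
        pt (W + (em g : ZP d)) θ i| ≤ R / 2 ^ k)).card : ℝ) ≤
        ((G.filter (fun v => ∀ i, |pt (W + v) θ i -
          pt (W + (em g : ZP d)) θ i| ≤ R / 2 ^ k)).card : ℝ) := by exact_mod_cast h2
    have h4 : 0 < (2 : ℝ) ^ ((k : ℝ) * s2) := by positivity
    have h5 : 2 * B * (G.card : ℝ) ≤ 4 * B * (G'.card : ℝ) := by
      have : 2 * B * (G.card : ℝ) ≤ 2 * B * (2 * (G'.card : ℝ)) :=
        mul_le_mul_of_nonneg_left hG'card (by positivity)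
      linarith
    exact (mul_le_mul_of_nonneg_right h3 h4.le).trans (h1.trans h5)
  have h4r : 4 * (κ * ψ0 / Q) < R := by linarith
  obtain ⟨hf1, hf2⟩ := ball_counts s s2 B R κ (κ * ψ0 / Q) ψ0 Cs Q kmax G'.card
    (fun j => pt (W + (em j : ZP d)) θ) hs hs2 hB hR hκ hκ1 hψpos hQ rfl hCs4 hCsB h4r hrs hk hcnt
  refine ⟨Q, ψ0, κ * ψ0 / Q, θ, W, G'.card, fun j => W + (em j : ZP d), hQ, hψpos, hψε, rfl,
    hrψ.trans hψε, by linarith, hcost, hG'pos, fun i => (hθ i).trans hδ1b,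
    near_base A θ θ0 W W0 δ δ1 hWN hδ1 hθ hδ1c, ?_, hf1, hf2⟩
  intro j
  have hj : (em j : ZP d) ∈ G := hG'sub (em j).2
  obtain ⟨h1, h2, h3⟩ := hu _ hj
  refine ⟨?_, h2, ?_, ?_⟩
  · refine le_trans ?_ h1
    have h0 : 0 < 1 / ε := by positivity
    have h5 : (Q : ℝ) * R ≤ Q * 1 := mul_le_mul_of_nonneg_left hR1 hQ0.le
    linarith
  · obtain ⟨k, hk'⟩ := (hGmem _ hj).2
    refine ⟨k, fun l => ?_⟩
    have h5 := hk' l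
    have h6 := lam_diff A θ W (em j : ZP d) l
    simp only at h6 ⊢
    rw [h6]; exact h5
  · intro i
    exact pt_bound _ θ x0 Q R hQ0 hR h1 i (h3 i)

end Q91.JC
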