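import Pool.Agent.Q91.JC.On4

namespace Q91.JC

open MeasureTheory Finset

open scoped Classical in
/-- the middle part: from a good scale to the conclusion -/
theorem on_mid (hXC : S_XC) (hEXT : S_EXT) (d m : ℕ) (A : Matrix (Fin (d + 1)) (Fin m) ℝ)
    (s s2 s' e κ CA B S1 Cs : ℝ)
    (x0 : Fin d → ℝ) (R : ℝ) (W0 : ZP d) (θ0 : Fin d → ℝ) (δ δ1 ε L T Θ ψ0 : ℝ)
    (Q kmax N : ℕ) (U : ZP d → ZP d)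
    (hAVG : ∀ (A : Matrix (Fin (d + 1)) (Fin m) ℝ) (x0 θ0 : Fin d → ℝ) (R ψ0 L T Θ δ : ℝ)
    (kmax N Q : ℕ) (Wf : ZP d → ZP d) (Xs G : Finset (ZP d)),
  0 < R → R ≤ 1 → (∀ i, |x0 i| ≤ 1) → 0 < ψ0 → 0 < L → 1 ≤ T → 0 ≤ Θ → 0 < δ → δ ≤ 1 →
  N = 2 ^ kmax → 1 ≤ Q → 8 * L / R ≤ Q → (Q : ℝ) ≤ 16 * L / R → 16 * (2 * T + Θ) ≤ Q * R →
  (∀ u, u ∈ G ↔ u ∈ GG A x0 R L ψ0) →
  (∀ j ≤ kmax, ((GG A x0 R (L / 2 ^ j) ψ0).ncard : ℝ) ≤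
      (2 : ℝ) ^ (-((j : ℝ) * s')) * (G.card : ℝ)) →
  (∀ X, X ∈ Xs ↔ ((Q : ℤ) ≤ X.1 ∧ X.1 < 2 * Q ∧ ∀ i, |(X.2 i : ℝ) - X.1 * x0 i| ≤ Q * R / 4)) →
  (∀ X ∈ Xs, |((Wf X).1 : ℝ) - X.1| ≤ T ∧ ∀ i, |((Wf X).2 i : ℝ) - X.2 i| ≤ T) →
  (∀ (κ : Fin d → Fin N) (i : Fin d), |grid θ0 δ N κ i| ≤ Θ) →
  ∀ k ≤ kmax,
    ∑ z ∈ Xs ×ˢ (Finset.univ : Finset (Fin d → Fin N)), ∑ u1 ∈ G,
      ((G.filter (fun u => ∀ i, |pt (Wf z.1 + u) (grid θ0 δ N z.2) i -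
        pt (Wf z.1 + u1) (grid θ0 δ N z.2) i| ≤ R / 2 ^ k)).card : ℝ) ≤
    CA * (if 2 ^ k * (4 * T + Θ + 1) ≤ Q * R then 1 else ((4 * T + Θ + 1) / δ) ^ d) *
      (2 : ℝ) ^ (-((k : ℝ) * s')) * ((Xs.card : ℝ) * (N : ℝ) ^ d) * (G.card : ℝ) ^ 2)
    (hs : 0 < s) (hs2 : s < s2) (hs2s' : s' - s2 = 2 * e) (he0 : 0 < e)
    (hds : 0 < (d : ℝ) + 1 - s) (hκ : 0 < κ) (hκ1 : κ ≤ 1)
    (hS1 : S1 = 1 / (1 - (2 : ℝ) ^ (-e))) (hS10 : 0 < S1) (hB' : B = CA * S1) (hB : 0 < B)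
    (hCs4 : (4 : ℝ) ^ s ≤ Cs) (hCsB : 4 * B * (16 / κ) ^ s2 ≤ Cs)
    (hx0 : ∀ i, |x0 i| ≤ 1) (hR : 0 < R) (hε : 0 < ε)
    (hδ1 : 0 < δ1) (hδ1a : δ1 ≤ 1) (hδ1b : δ1 ≤ δ)
    (hδ1c : (1 + ∑ j, ∑ i, |A i j|) * δ1 ≤ δ / 2) (hΘ : 0 ≤ Θ)
    (hgrid : ∀ (N : ℕ) (κ : Fin d → Fin N) (i : Fin d), |grid θ0 δ1 N κ i| ≤ Θ)
    (hψpos : 0 < ψ0) (hψε : ψ0 ≤ ε) (hψR : ψ0 ≤ R / 8)
    (hrs : Cs * (κ * ψ0 / Q / R) ^ (s2 - s) ≤ 1)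
    (hQ : 1 ≤ Q) (hQ1 : 8 * L / R ≤ Q) (hQ2 : (Q : ℝ) ≤ 16 * L / R)
    (hLε : 1 / ε ≤ L) (hL0 : 0 < L) (hR1 : R ≤ 1)
    (hT : 1 ≤ T) (h16 : 16 * (2 * T + Θ) ≤ Q * R)
    (hK : ((4 * T + Θ + 1) / δ1) ^ d * ((4 * T + Θ + 1) / (Q * R)) ^ e ≤ 1)
    (hcost : ψ0 ^ ((m : ℝ) + s) * (3 * Q : ℝ) ^ ((d : ℝ) + 1 - s) ≤ ε)
    (hN : N = 2 ^ kmax)
    (hLk : L / 2 ^ kmax ≤ ψ0)
    (hLj : ∀ j ≤ kmax, ((GG A x0 R (L / 2 ^ j) ψ0).ncard : ℝ) ≤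
      (2 : ℝ) ^ (-((j : ℝ) * s')) * ((GG A x0 R L ψ0).ncard : ℝ))
    (hU1 : ∀ v, Near (δ / 2) (lamz A (U v))) (hU2 : ∀ v, |((U v).1 : ℝ) - v.1| ≤ T)
    (hU3 : ∀ v, ∀ i, |((U v).2 i : ℝ) - v.2 i| ≤ T) :
    ∃ (Q : ℕ) (ψ0 r : ℝ) (θ : Fin d → ℝ) (W : ZP d) (n : ℕ) (u : Fin n → ZP d),
      1 ≤ Q ∧ 0 < ψ0 ∧ ψ0 ≤ ε ∧ r = κ * ψ0 / Q ∧ r ≤ ε ∧ r ≤ R / 3 ∧
      ψ0 ^ ((m : ℝ) + s) * (3 * Q : ℝ) ^ ((d : ℝ) + 1 - s) ≤ ε ∧ 0 < n ∧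
      (∀ i, |θ i - θ0 i| ≤ δ) ∧
      Near δ (fun j => lam A W.1 (fun i => (W.2 i : ℝ) + θ i) j -
        lam A W0.1 (fun i => (W0.2 i : ℝ) + θ0 i) j) ∧
      (∀ j, 1 / ε ≤ ((u j).1 : ℝ) ∧ ((u j).1 : ℝ) ≤ 3 * Q ∧
        Near ψ0 (fun l => lam A (u j).1 (fun i => ((u j).2 i : ℝ) + θ i) l -
          lam A W.1 (fun i => (W.2 i : ℝ) + θ i) l) ∧
        ∀ i, |pt (u j) θ i - x0 i| ≤ 2 / 3 * R) ∧
      (∀ (x : Fin d → ℝ) (ρ : ℝ), r ≤ ρ →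
        ((Finset.univ.filter (fun j : Fin n => ∀ i, |pt (u j) θ i - x i| ≤ 2 * ρ)).card : ℝ) ≤
          Cs * (ρ / R) ^ s * n) ∧
      (∀ x : Fin d → ℝ,
        ((Finset.univ.filter (fun j : Fin n => ∀ i, |pt (u j) θ i - x i| ≤ 2 * r)).card : ℝ) ≤
          (r / R) ^ s * n) := by
  have hQ0 : 0 < (Q : ℝ) := by exact_mod_cast hQ
  have hQR : 8 * L ≤ Q * R := by rwa [div_le_iff₀ hR] at hQ1
  have hQR2 : Q * R ≤ 16 * L := by rwa [le_div_iff₀ hR] at hQ2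
  have hQRpos : 0 < (Q : ℝ) * R := mul_pos hQ0 hR
  have hQRQ : (Q : ℝ) * R ≤ Q := by
    calc (Q : ℝ) * R ≤ Q * 1 := mul_le_mul_of_nonneg_left hR1 hQ0.le
      _ = Q := mul_one _
  have hTQ32 : 32 * T ≤ Q := by linarith
  have h4QR : 4 ≤ Q * R := by linarith
  -- G, Xs
  have hGfin := GG_finite A x0 R L ψ0 hR
  obtain ⟨G, hG⟩ : ∃ G : Finset (ZP d), G = hGfin.toFinset := ⟨_, rfl⟩
  have hGmem : ∀ u, u ∈ G ↔ u ∈ GG A x0 R L ψ0 := fun u => by rw [hG]; exact hGfin.mem_toFinset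
  have hGcard : (GG A x0 R L ψ0).ncard = G.card := by
    rw [hG]; exact Set.ncard_eq_toFinset_card _ hGfin
  obtain ⟨hXfin, hXcard⟩ := hXC d Q x0 R hQ h4QR
  obtain ⟨Xs, hXs⟩ : ∃ Xs : Finset (ZP d), Xs = hXfin.toFinset := ⟨_, rfl⟩
  have hXmem : ∀ X, X ∈ Xs ↔ ((Q : ℤ) ≤ X.1 ∧ X.1 < 2 * Q ∧
      ∀ i, |(X.2 i : ℝ) - X.1 * x0 i| ≤ Q * R / 4) := fun X => by
    rw [hXs]; exact hXfin.mem_toFinset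
  have hXne : Xs.Nonempty := by
    rw [← Finset.card_pos]
    have h1 : (0 : ℝ) < (Q : ℝ) * (Q * R / 4) ^ d := by positivity
    have h2 := h1.trans_le hXcard
    rw [Set.ncard_eq_toFinset_card _ hXfin, ← hXs] at h2
    exact_mod_cast h2
  obtain ⟨Wf, hWf⟩ : ∃ Wf : ZP d → ZP d, Wf = fun X => W0 + U (X - W0) := ⟨_, rfl⟩
  have hWfX : ∀ X ∈ Xs, |((Wf X).1 : ℝ) - X.1| ≤ T ∧ ∀ i, |((Wf X).2 i : ℝ) - X.2 i| ≤ T := by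
    intro X _
    have h1 := hU2 (X - W0)
    have h2 := hU3 (X - W0)
    refine ⟨?_, fun i => ?_⟩
    · simp only [hWf, Prod.fst_add, Int.cast_add]
      simp only [Prod.fst_sub, Int.cast_sub] at h1
      rw [show ((W0.1 : ℝ) + ((U (X - W0)).1 : ℝ) - X.1) =
        ((U (X - W0)).1 : ℝ) - ((X.1 : ℝ) - W0.1) by ring]
      exact h1
    · simp only [hWf, Prod.snd_add, Pi.add_apply, Int.cast_add]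
      have h3 := h2 i
      simp only [Prod.snd_sub, Pi.sub_apply, Int.cast_sub] at h3
      rw [show ((W0.2 i : ℝ) + ((U (X - W0)).2 i : ℝ) - X.2 i) =
        ((U (X - W0)).2 i : ℝ) - ((X.2 i : ℝ) - W0.2 i) by ring]
      exact h3
  have havg := hAVG A x0 θ0 R ψ0 L T Θ δ1 kmax N Q Wf Xs G hR hR1 hx0 hψpos hL0 hT hΘ
    hδ1 hδ1a hN hQ hQ1 hQ2 h16 hGmem (by rw [← hGcard]; exact hLj) hXmem hWfX (hgrid N)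
  have hNpos : 0 < N := by rw [hN]; positivity
  have hNe : Nonempty (Fin N) := ⟨⟨0, hNpos⟩⟩
  have hGne : G.Nonempty := ⟨0, (hGmem 0).mpr (zero_mem_GG A x0 R L ψ0 hL0.le hψpos.le)⟩
  have hOscard : ((Xs ×ˢ (Finset.univ : Finset (Fin d → Fin N))).card : ℝ) =
      (Xs.card : ℝ) * (N : ℝ) ^ d := by
    rw [Finset.card_product, Finset.card_univ, Fintype.card_fun, Fintype.card_fin,
      Fintype.card_fin]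
    push_cast; ring
  have hab := sum_ab d kmax e s' s2 T Θ δ1 (Q * R) S1 he0 hs2s' hS1 hS10 (by linarith) hδ1 hQRpos hK
  obtain ⟨ω, hω, G', hG'sub, hG'card, hG'⟩ := hEXT (ZP d × (Fin d → Fin N)) (ZP d)
    (Xs ×ˢ (Finset.univ : Finset (Fin d → Fin N))) G kmax
    (fun k z u1 => ((G.filter (fun u => ∀ i, |pt (Wf z.1 + u) (grid θ0 δ1 N z.2) i -
        pt (Wf z.1 + u1) (grid θ0 δ1 N z.2) i| ≤ R / 2 ^ k)).card : ℝ))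
    (fun k => (if 2 ^ k * (4 * T + Θ + 1) ≤ Q * R then 1
      else ((4 * T + Θ + 1) / δ1) ^ d) * (2 : ℝ) ^ (-((k : ℝ) * s')) / S1)
    (fun k => (2 : ℝ) ^ ((k : ℝ) * s2)) B
    (hXne.product Finset.univ_nonempty) hGne (fun k ω g => Nat.cast_nonneg _)
    (fun k => by positivity) hB (by
      intro k hk
      have h1 := havg k hk
      rw [hOscard]
      refine h1.trans (le_of_eq ?_)
      rw [hB']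
      field_simp) hab
  have hω1 : ω.1 ∈ Xs := (Finset.mem_product.mp hω).1
  have hX := (hXmem ω.1).mp hω1
  have hW := hWfX ω.1 hω1
  have hk : (1 / (2 : ℝ) ^ kmax) ≤ 16 * ψ0 / (Q * R) := by
    rw [div_le_iff₀ (by positivity)] at hLk
    rw [div_le_div_iff₀ (by positivity) (by positivity)]
    linarith
  have hWN : Near (δ / 2) (lamz A (Wf ω.1 - W0)) := by
    have h1 := hU1 (ω.1 - W0)
    have h2 : Wf ω.1 - W0 = U (ω.1 - W0) := by rw [hWf]; simp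
    rw [h2]; exact h1
  exact on_last d m A s s2 κ B Cs x0 R W0 (Wf ω.1) ω.1 θ0 (grid θ0 δ1 N ω.2) δ δ1 ε L T Θ ψ0
    Q kmax G G' hs hs2 hds hκ hκ1 hB hCs4 hCsB hx0 hR hε hδ1.le hδ1b hδ1c
    (fun i => grid_close θ0 δ1 hδ1.le N ω.2 i) (hgrid N ω.2) hψpos hψε hψR hrs hQ hQR hLε hR1
    (by linarith) hTQ32 h16 hcost hX.1 hX.2.1 hX.2.2 hW hWN (fun u hu => (hGmem u).mp hu) hG'sub
    hGne.card_pos hG'card hk hG'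

end Q91.JC
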