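import Pool.Agent.Q91.JC.On5

namespace Q91.JC

open MeasureTheory Finset

theorem on (hSYN : S_SYN) (hSC : S_SC) (hXC : S_XC) (hEXT : S_EXT) (hAVG : S_AVG) : S_ON := by
  intro d m A γ s s' κ hd hγ hs hss' hs'd hγs hHyp hκ hκ1
  have hs' : 0 < s' := hs.trans hss'
  obtain ⟨CA, hCA, hAVG⟩ := hAVG d m s' hd hs' hs'd
  obtain ⟨e, he⟩ : ∃ e : ℝ, e = (s' - s) / 4 := ⟨_, rfl⟩
  have he0 : 0 < e := by rw [he]; linarith
  obtain ⟨s2, hs2⟩ : ∃ s2 : ℝ, s2 = s + 2 * e := ⟨_, rfl⟩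
  have hs20 : 0 < s2 := by linarith
  have hss2 : s < s2 := by linarith
  have hs2s' : s' - s2 = 2 * e := by rw [hs2, he]; ring
  have h2e : (2 : ℝ) ^ (-e) < 1 := by
    rw [Real.rpow_neg (by norm_num)]
    exact inv_lt_one_of_one_lt₀ (Real.one_lt_rpow (by norm_num) he0)
  obtain ⟨S1, hS1⟩ : ∃ S1 : ℝ, S1 = 1 / (1 - (2 : ℝ) ^ (-e)) := ⟨_, rfl⟩
  have hS10 : 0 < S1 := by rw [hS1]; apply div_pos one_pos; linarith
  obtain ⟨B, hB⟩ : ∃ B : ℝ, B = CA * S1 := ⟨_, rfl⟩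
  have hB0 : 0 < B := by rw [hB]; exact mul_pos hCA hS10
  have hp1 : 0 < 4 * B * (16 / κ) ^ s2 := by positivity
  have hp2 : 0 < (4 : ℝ) ^ s := by positivity
  obtain ⟨Cs, hCs⟩ : ∃ Cs : ℝ, Cs = 1 + 4 ^ s + 4 * B * (16 / κ) ^ s2 := ⟨_, rfl⟩
  have hCs4 : (4 : ℝ) ^ s ≤ Cs := by linarith
  have hCsB : 4 * B * (16 / κ) ^ s2 ≤ Cs := by linarith
  have hCs1 : 1 ≤ Cs := by linarith
  refine ⟨Cs, hCs1, ?_⟩
  intro x0 R W0 θ0 δ ε hx0 hR hR1 hδ hε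
  obtain ⟨CL, hCL⟩ : ∃ CL : ℝ, CL = 1 + ∑ j, ∑ i, |A i j| := ⟨_, rfl⟩
  have hCL1 : 1 ≤ CL := by
    have : 0 ≤ ∑ j, ∑ i, |A i j| :=
      Finset.sum_nonneg fun j _ => Finset.sum_nonneg fun i _ => abs_nonneg _
    linarith
  obtain ⟨δ1, hδ1⟩ : ∃ δ1 : ℝ, δ1 = min (min 1 δ) (δ / (2 * CL)) := ⟨_, rfl⟩
  have hδ10 : 0 < δ1 := by
    rw [hδ1]; exact lt_min (lt_min one_pos hδ) (by positivity)
  have hδ1a : δ1 ≤ 1 := by rw [hδ1]; exact (min_le_left _ _).trans (min_le_left _ _)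
  have hδ1b : δ1 ≤ δ := by rw [hδ1]; exact (min_le_left _ _).trans (min_le_right _ _)
  have hδ1c : CL * δ1 ≤ δ / 2 := by
    have : δ1 ≤ δ / (2 * CL) := by rw [hδ1]; exact min_le_right _ _
    rw [le_div_iff₀ (by positivity)] at this; linarith
  obtain ⟨T, hT1, hT⟩ := hSYN d m A (δ / 2) (by positivity)
  obtain ⟨Θ, hΘ⟩ : ∃ Θ : ℝ, Θ = 1 + ∑ i, |θ0 i| := ⟨_, rfl⟩
  have hΘ1 : 1 ≤ Θ := by
    have : 0 ≤ ∑ i, |θ0 i| := Finset.sum_nonneg fun j _ => abs_nonneg _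
    linarith
  have hgrid : ∀ (N : ℕ) (κ : Fin d → Fin N) (i : Fin d), |grid θ0 δ1 N κ i| ≤ Θ := by
    intro N κ i
    have h1 := grid_close θ0 δ1 hδ10.le N κ i
    have h2 : |θ0 i| ≤ ∑ i, |θ0 i| :=
      Finset.single_le_sum (f := fun i => |θ0 i|) (fun i _ => abs_nonneg _) (Finset.mem_univ i)
    have h3 := abs_add_le (grid θ0 δ1 N κ i - θ0 i) (θ0 i)
    rw [sub_add_cancel] at h3
    linarith
  have hT'1 : 1 ≤ 4 * T + Θ + 1 := by linarith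
  obtain ⟨x1, hx1, hx1'⟩ := rpow_small (((4 * T + Θ + 1) / δ1) ^ d) e he0
  obtain ⟨x2, hx2, hx2'⟩ := rpow_small Cs (2 * e) (by linarith)
  have hTx : 0 < (4 * T + Θ + 1) / x1 := by positivity
  have h1ε : 0 < 1 / ε := by positivity
  obtain ⟨M, hM⟩ : ∃ M : ℝ, M = (4 * T + Θ + 1) / x1 + 2 * (2 * T + Θ) + 1 / ε + 1 := ⟨_, rfl⟩
  have hM1 : 1 ≤ M := by rw [hM]; linarith
  obtain ⟨C, hC⟩ := hSC d m A γ s' x0 R M hγ hs' hR hR1 hx0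
  have hds : 0 < (d : ℝ) + 1 - s := by linarith
  obtain ⟨V0, hV0⟩ := choose_V γ ((d : ℝ) + 1 - s) (γ * (m + s)) R ε (min ε (min (R / 8) (x2 * R)))
    hγ hγs hR hε (lt_min hε (lt_min (by positivity) (by positivity)))
  obtain ⟨V, hVV0, hV1, hVC⟩ := hHyp C V0
  obtain ⟨hVa, hVb⟩ := hV0 V hV1 hVV0
  obtain ⟨L, kmax, hML, hL0, hLV, hLk, -, hLj⟩ := hC V hV1 hVC
  have hVpos : 0 < V := by linarith
  have hψpos : 0 < V ^ (-γ) := Real.rpow_pos_of_pos hVpos _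
  have hψε : V ^ (-γ) ≤ ε := hVa.trans (min_le_left _ _)
  have hψR : V ^ (-γ) ≤ R / 8 := hVa.trans ((min_le_right _ _).trans (min_le_left _ _))
  have hψx : V ^ (-γ) ≤ x2 * R := hVa.trans ((min_le_right _ _).trans (min_le_right _ _))
  obtain ⟨ψ0, hψ0⟩ : ∃ ψ0 : ℝ, ψ0 = V ^ (-γ) := ⟨_, rfl⟩
  rw [← hψ0] at hψpos hψε hψR hψx hLk hLj
  -- Q
  obtain ⟨Q, hQ⟩ : ∃ Q : ℕ, Q = ⌈8 * L / R⌉₊ := ⟨_, rfl⟩
  have hL1 : 1 ≤ L := hM1.trans hML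
  have hQ1 : 8 * L / R ≤ Q := by rw [hQ]; exact Nat.le_ceil _
  have h8LR : 8 ≤ 8 * L / R := by
    rw [le_div_iff₀ hR]; linarith
  have hQ2 : (Q : ℝ) ≤ 16 * L / R := by
    have h1 : (Q : ℝ) < 8 * L / R + 1 := by rw [hQ]; exact Nat.ceil_lt_add_one (by positivity)
    have h2 : 16 * L / R = 8 * L / R + 8 * L / R := by ring
    linarith
  have hQ8 : (8 : ℝ) ≤ Q := h8LR.trans hQ1
  have hQ0 : 0 < (Q : ℝ) := by linarith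
  have hQnat : 1 ≤ Q := by
    have : (1 : ℝ) ≤ Q := by linarith
    exact_mod_cast this
  have hQR : 8 * L ≤ Q * R := by rwa [div_le_iff₀ hR] at hQ1
  have hQR2 : Q * R ≤ 16 * L := by rwa [le_div_iff₀ hR] at hQ2
  have h16 : 16 * (2 * T + Θ) ≤ Q * R := by linarith
  have hx1Q : (4 * T + Θ + 1) / (Q * R) ≤ x1 := by
    have h1 : (4 * T + Θ + 1) / x1 ≤ Q * R := by linarith
    rw [div_le_iff₀ hx1] at h1
    rw [div_le_iff₀ (by positivity)]; linarith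
  have hK : ((4 * T + Θ + 1) / δ1) ^ d * ((4 * T + Θ + 1) / (Q * R)) ^ e ≤ 1 :=
    hx1' _ (by positivity) hx1Q
  have hLε : 1 / ε ≤ L := by linarith
  have hcost : ψ0 ^ ((m : ℝ) + s) * (3 * Q : ℝ) ^ ((d : ℝ) + 1 - s) ≤ ε := by
    have h1 : ψ0 ^ ((m : ℝ) + s) = V ^ (-(γ * (m + s))) := by
      rw [hψ0, ← Real.rpow_mul hVpos.le]; congr 1; ring
    rw [h1]
    refine le_trans ?_ hVb
    apply mul_le_mul_of_nonneg_left _ (by positivity)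
    apply Real.rpow_le_rpow (by positivity) _ hds.le
    rw [le_div_iff₀ hR]; linarith
  have hrs : Cs * (κ * ψ0 / Q / R) ^ (s2 - s) ≤ 1 := by
    have h1 : s2 - s = 2 * e := by rw [hs2]; ring
    rw [h1]
    apply hx2' _ (by positivity)
    have h2 : κ * ψ0 / Q ≤ ψ0 := by
      rw [div_le_iff₀ hQ0]
      calc κ * ψ0 ≤ 1 * ψ0 := mul_le_mul_of_nonneg_right hκ1 hψpos.le
        _ = ψ0 * 1 := by ring
        _ ≤ ψ0 * Q := mul_le_mul_of_nonneg_left (by linarith) hψpos.le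
    rw [div_le_iff₀ hR]; linarith
  choose U hU1 hU2 hU3 using hT
  exact on_mid hXC hEXT d m A s s2 s' e κ CA B S1 Cs x0 R W0 θ0 δ δ1 ε L T Θ ψ0 Q kmax (2 ^ kmax) U
    hAVG hs hss2 hs2s' he0 hds hκ hκ1 hS1 hS10 hB hB0 hCs4 hCsB hx0 hR hε hδ10 hδ1a hδ1b
    (by rw [← hCL]; exact hδ1c) (by linarith) hgrid hψpos hψε hψR hrs hQnat hQ1 hQ2 hLε hL0 hR1 hT1
    h16 hK hcost rfl hLk hLj hU1 hU2 hU3

end Q91.JC
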