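import Pool.Agent.Q91.JC.On3

namespace Q91.JC

open MeasureTheory Finset

variable {d m : ℕ}

/-- a state of the construction -/
structure St (A : Matrix (Fin (d + 1)) (Fin m) ℝ) where
  W : ZP d
  θ : Fin d → ℝ
  z : Fin m → ℝ
  δ : ℝ
  hδ : 0 < δ
  hz : ∃ k : Fin m → ℤ, ∀ l, z l - lam A W.1 (fun i => (W.2 i : ℝ) + θ i) l = k l

variable {A : Matrix (Fin (d + 1)) (Fin m) ℝ}

/-- refinement of states -/
def Le (σ' σ : St A) : Prop := (∀ i, |σ'.θ i - σ.θ i| ≤ σ.δ - σ'.δ) ∧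
  (∀ l, |σ'.z l - σ.z l| ≤ σ.δ - σ'.δ) ∧ σ'.δ ≤ σ.δ

/-- the box of a state -/
def InBox (σ : St A) (θ1 : Fin d → ℝ) (z1 : Fin m → ℝ) : Prop :=
  (∀ i, |θ1 i - σ.θ i| ≤ σ.δ) ∧ (∀ l, |z1 l - σ.z l| ≤ σ.δ)

theorem Le.trans {σ1 σ2 σ3 : St A} (h1 : Le σ1 σ2) (h2 : Le σ2 σ3) : Le σ1 σ3 := by
  refine ⟨fun i => ?_, fun l => ?_, h1.2.2.trans h2.2.2⟩
  · have := abs_sub_le (σ1.θ i) (σ2.θ i) (σ3.θ i)
    linarith [h1.1 i, h2.1 i]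
  · have := abs_sub_le (σ1.z l) (σ2.z l) (σ3.z l)
    linarith [h1.2.1 l, h2.2.1 l]

theorem Le.refl (σ : St A) : Le σ σ := by
  refine ⟨fun i => ?_, fun l => ?_, le_rfl⟩ <;> simp

theorem InBox.mono {σ' σ : St A} (h : Le σ' σ) {θ1 : Fin d → ℝ} {z1 : Fin m → ℝ}
    (h1 : InBox σ' θ1 z1) : InBox σ θ1 z1 := by
  refine ⟨fun i => ?_, fun l => ?_⟩
  · have := abs_sub_le (θ1 i) (σ'.θ i) (σ.θ i)
    linarith [h.1 i, h1.1 i]
  · have := abs_sub_le (z1 l) (σ'.z l) (σ.z l)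
    linarith [h.2.1 l, h1.2 l]

/-- the approximation property at a point -/
def Hit (s : ℝ) (n : ℕ) (x : Fin d → ℝ) (σ : St A) (v : ℕ → ℝ) : Prop :=
  ∃ (q : ℕ) (p : Fin d → ℤ), n ≤ q ∧ 1 ≤ q ∧ ∀ θ1 z1, InBox σ θ1 z1 → ∀ t : ℝ, 0 < t →
    v q ≤ t ^ ((m : ℝ) + s) → (∀ i, |(q : ℝ) * x i - p i - θ1 i| < t) ∧
      ∃ k : Fin m → ℤ, ∀ l, |lam A q (fun i => (q : ℝ) * x i) l - z1 l - k l| < t

theorem Hit.mono {s : ℝ} {n : ℕ} {x : Fin d → ℝ} {σ' σ : St A} {v v' : ℕ → ℝ}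
    (h : Hit s n x σ v) (hσ : Le σ' σ) (hv : ∀ q, v q ≤ v' q) : Hit s n x σ' v' := by
  obtain ⟨q, p, h1, h2, h3⟩ := h
  exact ⟨q, p, h1, h2, fun θ1 z1 hb t ht hvt => h3 θ1 z1 (hb.mono hσ) t ht ((hv q).trans hvt)⟩

/-- children data -/
structure Ch (d : ℕ) where
  k : ℕ
  c : Fin k → (Fin d → ℝ)
  r : ℝ

open scoped Classical in
/-- the properties of the children of a ball -/
def Good (s C : ℝ) (n : ℕ) (b : (Fin d → ℝ) × ℝ) (ch : Ch d) (σ : St A) (v : ℕ → ℝ) : Prop :=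
  0 < ch.k ∧ 0 < ch.r ∧ ch.r ≤ 1 / (n + 1) ∧ (∀ j i, |ch.c j i - b.1 i| ≤ b.2 - ch.r) ∧
    (∀ (x : Fin d → ℝ) (ρ : ℝ), ch.r ≤ ρ →
      ((Finset.univ.filter (fun j : Fin ch.k => ∀ i, |ch.c j i - x i| ≤ 2 * ρ)).card : ℝ) ≤
        C * (ρ / b.2) ^ s * ch.k) ∧
    (∀ x : Fin d → ℝ,
      ((Finset.univ.filter (fun j : Fin ch.k => ∀ i, |ch.c j i - x i| ≤ 2 * ch.r)).card : ℝ) ≤
        (ch.r / b.2) ^ s * ch.k) ∧
    (∀ j, ∀ x : Fin d → ℝ, (∀ i, |x i - ch.c j i| ≤ ch.r) → Hit s n x σ v)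

theorem Good.mono {s C : ℝ} {n : ℕ} {b : (Fin d → ℝ) × ℝ} {ch : Ch d} {σ' σ : St A} {v v' : ℕ → ℝ}
    (h : Good s C n b ch σ v) (hσ : Le σ' σ) (hv : ∀ q, v q ≤ v' q) : Good s C n b ch σ' v' := by
  obtain ⟨h1, h2, h3, h4, h5, h6, h7⟩ := h
  exact ⟨h1, h2, h3, h4, h5, h6, fun j x hx => (h7 j x hx).mono hσ hv⟩

/-- all partial sums of the weighted series are at most `ε` -/
def Cost (d : ℕ) (s : ℝ) (v : ℕ → ℝ) (ε : ℝ) : Prop :=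
  ∀ F : Finset ℕ, ∑ q ∈ F, v q * (q : ℝ) ^ ((d : ℝ) - s) ≤ ε

theorem Cost.add {s : ℝ} {v v' : ℕ → ℝ} {ε ε' : ℝ} (h : Cost d s v ε) (h' : Cost d s v' ε') :
    Cost d s (fun q => v q + v' q) (ε + ε') := by
  intro F
  have h1 := h F
  have h2 := h' F
  have h3 : ∑ q ∈ F, (v q + v' q) * (q : ℝ) ^ ((d : ℝ) - s) =
      ∑ q ∈ F, v q * (q : ℝ) ^ ((d : ℝ) - s) + ∑ q ∈ F, v' q * (q : ℝ) ^ ((d : ℝ) - s) := by
    rw [← Finset.sum_add_distrib]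
    exact Finset.sum_congr rfl fun q _ => by ring
  rw [h3]; linarith

/-- valid balls -/
def Valid (b : (Fin d → ℝ) × ℝ) : Prop := 0 < b.2 ∧ b.2 ≤ 1 ∧ ∀ i, |b.1 i| ≤ 1 - b.2

/-- the cost of one block -/
theorem block_cost (s ψ0 : ℝ) (Q : ℕ) (m : ℕ) (hs : s < d) (hQ : 1 ≤ Q) (hψ : 0 < ψ0) (ε : ℝ)
    (h : ψ0 ^ ((m : ℝ) + s) * (3 * Q : ℝ) ^ ((d : ℝ) + 1 - s) ≤ ε) :
    Cost d s (fun q : ℕ => if q ≤ 3 * Q then (4 * ψ0) ^ ((m : ℝ) + s) else 0)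
      (2 * 4 ^ ((m : ℝ) + s) * ε) := by
  intro F
  have hQ0 : 0 < (Q : ℝ) := by exact_mod_cast hQ
  have hds : 0 ≤ (d : ℝ) - s := by linarith
  have h3Q : (0 : ℝ) < 3 * Q := by positivity
  have h1 : ∀ q ∈ F, (if q ≤ 3 * Q then (4 * ψ0) ^ ((m : ℝ) + s) else 0) * (q : ℝ) ^ ((d : ℝ) - s) ≤
      (if q ∈ Finset.range (3 * Q + 1) then (4 * ψ0) ^ ((m : ℝ) + s) * (3 * Q : ℝ) ^ ((d : ℝ) - s) else 0) := by
    intro q _
    by_cases hq : q ≤ 3 * Q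
    · rw [if_pos hq, if_pos (Finset.mem_range.mpr (by omega))]
      apply mul_le_mul_of_nonneg_left _ (by positivity)
      apply Real.rpow_le_rpow (by positivity) _ hds
      exact_mod_cast hq
    · rw [if_neg hq, zero_mul]
      split_ifs
      · positivity
      · exact le_rfl
  refine (Finset.sum_le_sum h1).trans ?_
  rw [← Finset.sum_filter, Finset.sum_const, nsmul_eq_mul]
  have h2 : ((F.filter (fun q => q ∈ Finset.range (3 * Q + 1))).card : ℝ) ≤ 2 * (3 * Q) := by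
    have h3 : (F.filter (fun q => q ∈ Finset.range (3 * Q + 1))).card ≤ (Finset.range (3 * Q + 1)).card :=
      Finset.card_le_card (fun q hq => (Finset.mem_filter.mp hq).2)
    rw [Finset.card_range] at h3
    have h4 : ((F.filter (fun q => q ∈ Finset.range (3 * Q + 1))).card : ℝ) ≤ ((3 * Q + 1 : ℕ) : ℝ) := by
      exact_mod_cast h3
    push_cast at h4
    have h5 : (1 : ℝ) ≤ Q := by exact_mod_cast hQ
    linarith
  have h3 : 0 ≤ (4 * ψ0) ^ ((m : ℝ) + s) * (3 * Q : ℝ) ^ ((d : ℝ) - s) := by positivity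
  calc ((F.filter (fun q => q ∈ Finset.range (3 * Q + 1))).card : ℝ) *
      ((4 * ψ0) ^ ((m : ℝ) + s) * (3 * Q : ℝ) ^ ((d : ℝ) - s))
      ≤ 2 * (3 * Q) * ((4 * ψ0) ^ ((m : ℝ) + s) * (3 * Q : ℝ) ^ ((d : ℝ) - s)) :=
        mul_le_mul_of_nonneg_right h2 h3
    _ = 2 * 4 ^ ((m : ℝ) + s) * (ψ0 ^ ((m : ℝ) + s) * (3 * Q : ℝ) ^ ((d : ℝ) + 1 - s)) := by
        have e1 : (3 * Q : ℝ) ^ ((d : ℝ) + 1 - s) = (3 * Q : ℝ) * (3 * Q : ℝ) ^ ((d : ℝ) - s) := by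
          rw [show (d : ℝ) + 1 - s = 1 + ((d : ℝ) - s) by ring, Real.rpow_add h3Q, Real.rpow_one]
        rw [e1, Real.mul_rpow (by norm_num) hψ.le]; ring
    _ ≤ 2 * 4 ^ ((m : ℝ) + s) * ε := mul_le_mul_of_nonneg_left h (by positivity)

/-- the hit property for an element of a cluster -/
theorem hit_of (s κ ψ0 : ℝ) (n Q : ℕ) (σ' : St A) (w : ZP d) (hs : 0 < s)
    (hκ : κ = 1 / (6 * (1 + ∑ j, ∑ i, |A i j|))) (hψ : 0 < ψ0) (hQ : 1 ≤ Q)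
    (hδ : σ'.δ ≤ κ * ψ0)
    (hw1 : (n : ℝ) + 1 ≤ (w.1 : ℝ)) (hw2 : (w.1 : ℝ) ≤ 3 * Q)
    (hw3 : Near ψ0 (fun l => lam A w.1 (fun i => (w.2 i : ℝ) + σ'.θ i) l - σ'.z l))
    (x : Fin d → ℝ) (hx : ∀ i, |x i - pt w σ'.θ i| ≤ κ * ψ0 / Q) :
    Hit s n x σ' (fun q : ℕ => if q ≤ 3 * Q then (4 * ψ0) ^ ((m : ℝ) + s) else 0) := by
  have hS0 : 0 ≤ ∑ j, ∑ i, |A i j| :=
    Finset.sum_nonneg fun j _ => Finset.sum_nonneg fun i _ => abs_nonneg _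
  obtain ⟨CL, hCL⟩ : ∃ CL : ℝ, CL = 1 + ∑ j, ∑ i, |A i j| := ⟨_, rfl⟩
  have hCL1 : 1 ≤ CL := by linarith
  rw [← hCL] at hκ
  have hκ0 : 0 < κ := by rw [hκ]; positivity
  have hκC : κ * CL = 1 / 6 := by rw [hκ]; field_simp
  have hκ6 : κ ≤ 1 / 6 := by
    calc κ = κ * 1 := (mul_one κ).symm
      _ ≤ κ * CL := mul_le_mul_of_nonneg_left hCL1 hκ0.le
      _ = 1 / 6 := hκC
  have hQ0 : 0 < (Q : ℝ) := by exact_mod_cast hQ
  have hn0 : 0 ≤ (n : ℝ) := Nat.cast_nonneg n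
  have hw0 : 0 < (w.1 : ℝ) := by linarith
  have hwZ : 0 < w.1 := by exact_mod_cast hw0
  have hq : ((w.1.toNat : ℕ) : ℝ) = (w.1 : ℝ) := by
    have : ((w.1.toNat : ℕ) : ℤ) = w.1 := Int.toNat_of_nonneg hwZ.le
    exact_mod_cast congrArg (fun z : ℤ => (z : ℝ)) this
  -- closeness
  have hx1 : ∀ i, |(w.1 : ℝ) * x i - ((w.2 i : ℝ) + σ'.θ i)| ≤ 3 * (κ * ψ0) := by
    intro i
    have e1 : (w.1 : ℝ) * x i - ((w.2 i : ℝ) + σ'.θ i) = (w.1 : ℝ) * (x i - pt w σ'.θ i) := by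
      unfold pt; field_simp
    rw [e1, abs_mul, abs_of_pos hw0]
    calc (w.1 : ℝ) * |x i - pt w σ'.θ i| ≤ 3 * Q * (κ * ψ0 / Q) :=
          mul_le_mul hw2 (hx i) (abs_nonneg _) (by positivity)
      _ = 3 * (κ * ψ0) := by field_simp
  refine ⟨w.1.toNat, w.2, ?_, ?_, ?_⟩
  · have : (n : ℝ) ≤ ((w.1.toNat : ℕ) : ℝ) := by rw [hq]; linarith
    exact_mod_cast this
  · have : (1 : ℝ) ≤ ((w.1.toNat : ℕ) : ℝ) := by rw [hq]; linarith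
    exact_mod_cast this
  · intro θ1 z1 hbox t ht hvt
    have hle : w.1.toNat ≤ 3 * Q := by
      have : ((w.1.toNat : ℕ) : ℝ) ≤ ((3 * Q : ℕ) : ℝ) := by rw [hq]; push_cast; exact hw2
      exact_mod_cast this
    simp only [if_pos hle] at hvt
    have hms : 0 < (m : ℝ) + s := by positivity
    have h4t : 4 * ψ0 ≤ t := by
      by_contra hcon
      push Not at hcon
      exact absurd (Real.rpow_lt_rpow ht.le hcon hms) (not_lt.mpr hvt)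
    have hκψ : κ * ψ0 ≤ 1 / 6 * ψ0 := mul_le_mul_of_nonneg_right hκ6 hψ.le
    rw [hq]
    constructor
    · intro i
      have e1 := abs_le.mp (hx1 i)
      have e2 := abs_le.mp (hbox.1 i)
      rw [abs_lt]
      constructor <;> linarith [e1.1, e1.2, e2.1, e2.2]
    · obtain ⟨k, hk⟩ := hw3
      refine ⟨k, fun l => ?_⟩
      have e1 := hk l
      have e2 := lam_zero_bound A (fun i => (w.1 : ℝ) * x i - ((w.2 i : ℝ) + σ'.θ i))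
        (3 * (κ * ψ0)) hx1 (by positivity) l
      rw [← hCL] at e2
      have e3 : CL * (3 * (κ * ψ0)) = 1 / 2 * ψ0 := by
        calc CL * (3 * (κ * ψ0)) = 3 * (κ * CL) * ψ0 := by ring
          _ = 1 / 2 * ψ0 := by rw [hκC]; ring
      rw [e3] at e2
      have e4 := hbox.2 l
      have e5 : lam A (w.1 : ℝ) (fun i => (w.1 : ℝ) * x i) l =
          lam A (w.1 : ℝ) (fun i => (w.2 i : ℝ) + σ'.θ i) l +
          lam A 0 (fun i => (w.1 : ℝ) * x i - ((w.2 i : ℝ) + σ'.θ i)) l := by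
        rw [← lam_add]
        congr 1
        · ring
        · ext i; ring
      rw [e5]
      have g1 := abs_le.mp e1
      have g2 := abs_le.mp e2
      have g4 := abs_le.mp e4
      rw [abs_lt]
      constructor <;> linarith [g1.1, g1.2, g2.1, g2.2, g4.1, g4.2]

end Q91.JC
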