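import Pool.Agent.Q91.JC.Seq1

namespace Q91.JC

open MeasureTheory Finset

variable {d m : ℕ} {A : Matrix (Fin (d + 1)) (Fin m) ℝ}

open scoped Classical in
/-- the conclusion of `S_ON` for fixed parameters -/
def OnProp (A : Matrix (Fin (d + 1)) (Fin m) ℝ) (s κ Cs : ℝ) : Prop :=
  ∀ (x0 : Fin d → ℝ) (R : ℝ) (W0 : ZP d) (θ0 : Fin d → ℝ) (δ ε : ℝ),
    (∀ i, |x0 i| ≤ 1) → 0 < R → R ≤ 1 → 0 < δ → 0 < ε →
    ∃ (Q : ℕ) (ψ0 r : ℝ) (θ : Fin d → ℝ) (W : ZP d) (n : ℕ) (u : Fin n → ZP d),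
      1 ≤ Q ∧ 0 < ψ0 ∧ ψ0 ≤ ε ∧ r = κ * ψ0 / Q ∧ r ≤ ε ∧ r ≤ R / 3 ∧
      ψ0 ^ ((m : ℝ) + s) * (3 * Q : ℝ) ^ ((d : ℝ) + 1 - s) ≤ ε ∧ 0 < n ∧
      (∀ i, |θ i - θ0 i| ≤ δ) ∧
      Near δ (fun j => lam A W.1 (fun i => (W.2 i : ℝ) + θ i) j -
        lam A W0.1 (fun i => (W0.2 i : ℝ) + θ0 i) j) ∧
      (∀ j, 1 / ε ≤ ((u j).1 : ℝ) ∧ ((u j).1 : ℝ) ≤ 3 * Q ∧
        Near ψ0 (fun l => lam A (u j).1 (fun i => ((u j).2 i : ℝ) + θ i) l -
          lam A W.1 (fun i => (W.2 i : ℝ) + θ i) l) ∧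
        ∀ i, |pt (u j) θ i - x0 i| ≤ 2 / 3 * R) ∧
      (∀ (x : Fin d → ℝ) (ρ : ℝ), r ≤ ρ →
        ((Finset.univ.filter (fun j : Fin n => ∀ i, |pt (u j) θ i - x i| ≤ 2 * ρ)).card : ℝ) ≤
          Cs * (ρ / R) ^ s * n) ∧
      (∀ x : Fin d → ℝ,
        ((Finset.univ.filter (fun j : Fin n => ∀ i, |pt (u j) θ i - x i| ≤ 2 * r)).card : ℝ) ≤
          (r / R) ^ s * n)

theorem one_node (s κ Cs : ℝ) (hs : 0 < s) (hsd : s < d)
    (hκ : κ = 1 / (6 * (1 + ∑ j, ∑ i, |A i j|))) (hN : OnProp A s κ Cs)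
    (σ : St A) (b : (Fin d → ℝ) × ℝ) (hb : Valid b) (n : ℕ) (ε : ℝ) (hε : 0 < ε) :
    ∃ (σ' : St A) (ch : Ch d) (v : ℕ → ℝ), Le σ' σ ∧ σ'.δ ≤ σ.δ / 2 ∧ (∀ q, 0 ≤ v q) ∧
      Antitone v ∧ Cost d s v ε ∧ Good s Cs n b ch σ' v := by
  have hS0 : 0 ≤ ∑ j, ∑ i, |A i j| :=
    Finset.sum_nonneg fun j _ => Finset.sum_nonneg fun i _ => abs_nonneg _
  have hκ0 : 0 < κ := by rw [hκ]; positivity
  obtain ⟨ε1, hε1⟩ : ∃ ε1 : ℝ, ε1 = min (1 / (n + 1 : ℝ)) (ε / (2 * 4 ^ ((m : ℝ) + s))) := ⟨_, rfl⟩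
  have hn0 : 0 ≤ (n : ℝ) := Nat.cast_nonneg n
  have hε10 : 0 < ε1 := by rw [hε1]; exact lt_min (by positivity) (by positivity)
  have hε1a : ε1 ≤ 1 / (n + 1 : ℝ) := by rw [hε1]; exact min_le_left _ _
  have hε1b : 2 * 4 ^ ((m : ℝ) + s) * ε1 ≤ ε := by
    have : ε1 ≤ ε / (2 * 4 ^ ((m : ℝ) + s)) := by rw [hε1]; exact min_le_right _ _
    rw [le_div_iff₀ (by positivity)] at this; linarith
  have hσ := σ.hδ
  obtain ⟨Q, ψ0, r, θ, W, k, u, h1, h2, h3, h4, h5, h6, h7, h8, h9, h10, h11, h12, h13⟩ :=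
    hN b.1 b.2 σ.W σ.θ (σ.δ / 2) ε1 (fun i => (hb.2.2 i).trans (by linarith [hb.1])) hb.1 hb.2.1
      (by positivity) hε10
  have hQ0 : 0 < (Q : ℝ) := by exact_mod_cast h1
  obtain ⟨K, hK⟩ := h10
  obtain ⟨k0, hk0⟩ := σ.hz
  let σ' : St A := {
    W := W
    θ := θ
    z := fun l => σ.z l + (lam A W.1 (fun i => (W.2 i : ℝ) + θ i) l -
        lam A σ.W.1 (fun i => (σ.W.2 i : ℝ) + σ.θ i) l - K l)
    δ := min (σ.δ / 2) (κ * ψ0)
    hδ := lt_min (by positivity) (by positivity)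
    hz := ⟨fun l => k0 l - K l, fun l => by
      have := hk0 l
      push_cast
      linarith⟩ }
  have hδ2 : σ'.δ ≤ σ.δ / 2 := min_le_left _ _
  have hδκ : σ'.δ ≤ κ * ψ0 := min_le_right _ _
  refine ⟨σ', ⟨k, fun j => pt (u j) θ, r⟩,
    fun q : ℕ => if q ≤ 3 * Q then (4 * ψ0) ^ ((m : ℝ) + s) else 0, ?_, hδ2, ?_, ?_, ?_, ?_⟩
  · refine ⟨fun i => ?_, fun l => ?_, by linarith⟩
    · have := h9 i
      have e1 : |σ'.θ i - σ.θ i| ≤ σ.δ / 2 := this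
      linarith
    · have e1 : |σ'.z l - σ.z l| ≤ σ.δ / 2 := by
        have e2 : σ'.z l - σ.z l = (lam A W.1 (fun i => (W.2 i : ℝ) + θ i) l -
          lam A σ.W.1 (fun i => (σ.W.2 i : ℝ) + σ.θ i) l) - K l := by
          simp only [σ']; ring
        rw [e2]; exact hK l
      linarith
  · intro q
    simp only
    split_ifs
    · positivity
    · exact le_rfl
  · intro q q' hqq
    simp only
    by_cases h' : q' ≤ 3 * Q
    · rw [if_pos h', if_pos (hqq.trans h')]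
    · rw [if_neg h']
      split_ifs
      · positivity
      · exact le_rfl
  · intro F
    exact (block_cost s ψ0 Q m hsd h1 h2 ε1 h7 F).trans hε1b
  · have hr0 : 0 < r := by rw [h4]; positivity
    refine ⟨h8, hr0, h5.trans hε1a, fun j i => ?_, h12, h13, fun j x hx => ?_⟩
    · have e1 := (h11 j).2.2.2 i
      simp only
      linarith
    · obtain ⟨g1, g2, g3, g4⟩ := h11 j
      apply hit_of s κ ψ0 n Q σ' (u j) hs hκ h2 h1 hδκ _ g2 _ x (fun i => by rw [← h4]; exact hx i)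
      · refine le_trans ?_ g1
        rw [le_div_iff₀ hε10]
        rw [le_div_iff₀ (by positivity)] at hε1a
        linarith
      · obtain ⟨K', hK'⟩ := g3
        refine ⟨fun l => K' l + K l - k0 l, fun l => ?_⟩
        have e1 := hK' l
        have e2 := hk0 l
        simp only [σ'] at e1 ⊢
        push_cast
        refine le_trans (le_of_eq ?_) e1
        congr 1
        linarith

theorem one_level (s κ Cs : ℝ) (hs : 0 < s) (hsd : s < d)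
    (hκ : κ = 1 / (6 * (1 + ∑ j, ∑ i, |A i j|))) (hN : OnProp A s κ Cs) (n : ℕ)
    (L : Finset ((Fin d → ℝ) × ℝ)) :
    (∀ b ∈ L, Valid b) → ∀ (σ : St A) (ε : ℝ), 0 < ε →
    ∃ (σ' : St A) (chf : ((Fin d → ℝ) × ℝ) → Ch d) (v : ℕ → ℝ), Le σ' σ ∧ σ'.δ ≤ σ.δ / 2 ∧
      (∀ q, 0 ≤ v q) ∧ Antitone v ∧ Cost d s v ε ∧ ∀ b ∈ L, Good s Cs n b (chf b) σ' v := by
  classical
  induction L using Finset.induction_on with
  | empty =>
    intro _ σ ε hε
    have hσ := σ.hδ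
    refine ⟨{ σ with δ := σ.δ / 2, hδ := by positivity }, fun _ => ⟨0, fun _ _ => 0, 0⟩,
      fun _ => 0, ⟨fun i => ?_, fun l => ?_, ?_⟩, le_rfl, fun _ => le_rfl, fun _ _ _ => le_rfl,
      fun F => ?_, fun b hb => absurd hb (Finset.notMem_empty b)⟩
    · simp only [sub_self, abs_zero]; linarith
    · simp only [sub_self, abs_zero]; linarith
    · simp only; linarith
    · simp only [zero_mul, Finset.sum_const_zero]; exact hε.le
  | insert b L hbL ih =>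
    intro hval σ ε hε
    obtain ⟨σ1, chf, v1, g1, g2, g3, g4, g5, g6⟩ :=
      ih (fun b' hb' => hval b' (Finset.mem_insert_of_mem hb')) σ (ε / 2) (by positivity)
    obtain ⟨σ2, ch, v2, k1, k2, k3, k4, k5, k6⟩ :=
      one_node s κ Cs hs hsd hκ hN σ1 b (hval b (Finset.mem_insert_self b L)) n (ε / 2)
        (by positivity)
    have hσ1 := σ1.hδ
    refine ⟨σ2, Function.update chf b ch, fun q => v1 q + v2 q, k1.trans g1, by linarith,
      fun q => add_nonneg (g3 q) (k3 q), fun q q' h => add_le_add (g4 h) (k4 h), ?_, ?_⟩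
    · have := g5.add k5
      rwa [add_halves] at this
    · intro b' hb'
      rcases Finset.mem_insert.mp hb' with rfl | h
      · rw [Function.update_self]
        exact k6.mono (Le.refl _) (fun q => by linarith [g3 q])
      · have hne : b' ≠ b := by rintro rfl; exact hbL h
        rw [Function.update_of_ne hne]
        exact (g6 b' h).mono k1 (fun q => by linarith [k3 q])

end Q91.JC
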