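import Pool.Agent.Q91.JC.Seq2

namespace Q91.JC

open MeasureTheory Finset Filter Topology

variable {d m : ℕ} {A : Matrix (Fin (d + 1)) (Fin m) ℝ}

/-- a level: a state and a finite set of valid balls -/
structure Lev (A : Matrix (Fin (d + 1)) (Fin m) ℝ) where
  σ : St A
  L : Finset ((Fin d → ℝ) × ℝ)
  hL : ∀ b ∈ L, Valid b

/-- relation between consecutive levels -/
def Rel (s Cs : ℝ) (n : ℕ) (P P' : Lev A) (v : ℕ → ℝ) : Prop :=
  Le P'.σ P.σ ∧ P'.σ.δ ≤ P.σ.δ / 2 ∧ (∀ q, 0 ≤ v q) ∧ Antitone v ∧ Cost d s v ((1 / 2 : ℝ) ^ n) ∧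
    (∀ b ∈ P.L, ∃ ch : Ch d, Good s Cs n b ch P'.σ v ∧ ∀ j, (ch.c j, ch.r) ∈ P'.L) ∧
    (∀ c ∈ P'.L, ∃ b ∈ P.L, ∃ ch : Ch d, Good s Cs n b ch P'.σ v ∧ ∃ j, c = (ch.c j, ch.r))

theorem exists_next (s κ Cs : ℝ) (hs : 0 < s) (hsd : s < d)
    (hκ : κ = 1 / (6 * (1 + ∑ j, ∑ i, |A i j|))) (hN : OnProp A s κ Cs) (n : ℕ) (P : Lev A) :
    ∃ (P' : Lev A) (v : ℕ → ℝ), Rel s Cs n P P' v := by
  classical
  obtain ⟨σ', chf, v, h1, h2, h3, h4, h5, h6⟩ :=
    one_level s κ Cs hs hsd hκ hN n P.L P.hL P.σ ((1 / 2 : ℝ) ^ n) (by positivity)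
  have hn0 : 0 ≤ (n : ℝ) := Nat.cast_nonneg n
  refine ⟨⟨σ', P.L.biUnion (fun b => Finset.univ.image (fun j => ((chf b).c j, (chf b).r))), ?_⟩,
    v, h1, h2, h3, h4, h5, ?_, ?_⟩
  · intro c hc
    obtain ⟨b, hb, hc'⟩ := Finset.mem_biUnion.mp hc
    obtain ⟨j, -, rfl⟩ := Finset.mem_image.mp hc'
    obtain ⟨g1, g2, g3, g4, -, -, -⟩ := h6 b hb
    have hv := P.hL b hb
    refine ⟨g2, g3.trans ?_, fun i => ?_⟩
    · rw [div_le_one (by positivity)]; linarith
    · have e1 := abs_le.mp (g4 j i)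
      have e2 := abs_le.mp (hv.2.2 i)
      simp only
      rw [abs_le]
      constructor <;> linarith [e1.1, e1.2, e2.1, e2.2]
  · intro b hb
    exact ⟨chf b, h6 b hb, fun j => Finset.mem_biUnion.mpr
      ⟨b, hb, Finset.mem_image.mpr ⟨j, Finset.mem_univ _, rfl⟩⟩⟩
  · intro c hc
    obtain ⟨b, hb, hc'⟩ := Finset.mem_biUnion.mp hc
    obtain ⟨j, -, rfl⟩ := Finset.mem_image.mp hc'
    exact ⟨b, hb, chf b, h6 b hb, j, rfl⟩

/-- the limit of the states -/
theorem exists_limit (P : ℕ → Lev A) (h1 : ∀ n, Le (P (n + 1)).σ (P n).σ)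
    (h2 : ∀ n, (P (n + 1)).σ.δ ≤ (P n).σ.δ / 2) :
    ∃ (θ1 : Fin d → ℝ) (z1 : Fin m → ℝ), ∀ n, InBox (P n).σ θ1 z1 := by
  have hδ : ∀ n, (P n).σ.δ ≤ (P 0).σ.δ * (1 / 2) ^ n := by
    intro n
    induction n with
    | zero => simp
    | succ n ih =>
      have := h2 n
      rw [pow_succ]
      linarith
  have hle : ∀ n k, Le (P (n + k)).σ (P n).σ := by
    intro n k
    induction k with
    | zero => exact Le.refl _
    | succ k ih => exact (h1 (n + k)).trans ih
  have hθ : ∀ i, ∃ t : ℝ, Tendsto (fun n => (P n).σ.θ i) atTop (𝓝 t) := by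
    intro i
    apply cauchySeq_tendsto_of_complete
    apply cauchySeq_of_le_geometric (1 / 2) ((P 0).σ.δ) (by norm_num)
    intro n
    rw [dist_comm, Real.dist_eq]
    have e1 := (h1 n).1 i
    have e2 := (P (n + 1)).σ.hδ
    linarith [hδ n]
  have hz : ∀ l, ∃ t : ℝ, Tendsto (fun n => (P n).σ.z l) atTop (𝓝 t) := by
    intro l
    apply cauchySeq_tendsto_of_complete
    apply cauchySeq_of_le_geometric (1 / 2) ((P 0).σ.δ) (by norm_num)
    intro n
    rw [dist_comm, Real.dist_eq]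
    have e1 := (h1 n).2.1 l
    have e2 := (P (n + 1)).σ.hδ
    linarith [hδ n]
  choose θ1 hθ1 using hθ
  choose z1 hz1 using hz
  refine ⟨θ1, z1, fun n => ⟨fun i => ?_, fun l => ?_⟩⟩
  · have e1 : Tendsto (fun k => |(P k).σ.θ i - (P n).σ.θ i|) atTop (𝓝 |θ1 i - (P n).σ.θ i|) :=
      ((hθ1 i).sub_const _).abs
    apply le_of_tendsto e1
    filter_upwards [eventually_ge_atTop n] with k hk
    obtain ⟨l, rfl⟩ := Nat.exists_eq_add_of_le hk
    have e2 := (hle n l).1 i
    have e3 := (P (n + l)).σ.hδ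
    linarith
  · have e1 : Tendsto (fun k => |(P k).σ.z l - (P n).σ.z l|) atTop (𝓝 |z1 l - (P n).σ.z l|) :=
      ((hz1 l).sub_const _).abs
    apply le_of_tendsto e1
    filter_upwards [eventually_ge_atTop n] with k hk
    obtain ⟨k', rfl⟩ := Nat.exists_eq_add_of_le hk
    have e2 := (hle n k').2.1 l
    have e3 := (P (n + k')).σ.hδ
    linarith

/-- the function `ψ` -/
theorem exists_psi (s : ℝ) (hs : 0 < s) (hsd : s < d) (v : ℕ → ℕ → ℝ) (h0 : ∀ n q, 0 ≤ v n q)
    (h1 : ∀ n, Antitone (v n)) (h2 : ∀ n, Cost d s (v n) ((1 / 2 : ℝ) ^ n)) (m : ℕ) :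
    ∃ ψ : ℕ → ℝ, (∀ q, 0 < ψ q) ∧ StrictAnti ψ ∧
      Summable (fun q : ℕ => ψ q ^ ((m : ℝ) + s) * (q : ℝ) ^ ((d : ℝ) - s)) ∧
      ∀ n q, 1 ≤ q → v n q ≤ ψ q ^ ((m : ℝ) + s) := by
  have hds : 0 < (d : ℝ) - s := by linarith
  have hms : 0 < (m : ℝ) + s := by positivity
  have hb : ∀ n q, 1 ≤ q → v n q ≤ (1 / 2 : ℝ) ^ n := by
    intro n q hq
    have e1 := h2 n {q}
    rw [Finset.sum_singleton] at e1
    have e2 : 1 ≤ (q : ℝ) ^ ((d : ℝ) - s) := by
      apply Real.one_le_rpow _ hds.le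
      exact_mod_cast hq
    have e3 := h0 n q
    nlinarith
  have hgeo : Summable (fun n : ℕ => (1 / 2 : ℝ) ^ n) := summable_geometric_of_lt_one (by norm_num) (by norm_num)
  have hsum : ∀ q : ℕ, Summable (fun n => v n (max q 1)) := fun q =>
    Summable.of_nonneg_of_le (fun n => h0 n _) (fun n => hb n _ (le_max_right _ _)) hgeo
  let f : ℕ → ℝ := fun q => ∑' n, v n (max q 1)
  have hf0 : ∀ q, 0 ≤ f q := fun q => tsum_nonneg fun n => h0 n _
  have hfanti : Antitone f := by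
    intro q q' hqq
    exact Summable.tsum_le_tsum (fun n => h1 n (max_le_max hqq le_rfl)) (hsum q') (hsum q)
  have hfv : ∀ n q, 1 ≤ q → v n q ≤ f q := by
    intro n q hq
    have e1 := (hsum q).le_tsum n (fun k _ => h0 k _)
    simp only [f]
    rw [max_eq_left hq] at e1 ⊢
    exact e1
  let g : ℕ → ℝ := fun q => (((q : ℝ) + 1) ^ (d + 2))⁻¹
  have hg0 : ∀ q, 0 < g q := fun q => by simp only [g]; positivity
  have hganti : StrictAnti g := by
    intro q q' hqq
    simp only [g]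
    apply inv_strictAnti₀ (by positivity)
    apply pow_lt_pow_left₀ _ (by positivity) (by omega)
    have : (q : ℝ) < q' := by exact_mod_cast hqq
    linarith
  refine ⟨fun q => (f q + g q) ^ (1 / ((m : ℝ) + s)), ?_, ?_, ?_, ?_⟩
  · intro q
    have := hf0 q
    have := hg0 q
    positivity
  · intro q q' hqq
    apply Real.rpow_lt_rpow _ _ (by positivity)
    · have := hf0 q'
      have := hg0 q'
      positivity
    · have e1 := hfanti hqq.le
      have e2 := hganti hqq
      linarith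
  · have e1 : ∀ q : ℕ, ((f q + g q) ^ (1 / ((m : ℝ) + s))) ^ ((m : ℝ) + s) = f q + g q := by
      intro q
      have := hf0 q
      have := hg0 q
      rw [← Real.rpow_mul (by positivity), one_div_mul_cancel hms.ne', Real.rpow_one]
    simp only [e1, add_mul]
    apply Summable.add
    · apply summable_of_sum_le (c := 2)
      · intro q
        exact mul_nonneg (hf0 q) (by positivity)
      · intro F
        have e2 : ∑ q ∈ F, f q * (q : ℝ) ^ ((d : ℝ) - s) =
            ∑' n, ∑ q ∈ F, v n (max q 1) * (q : ℝ) ^ ((d : ℝ) - s) := by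
          rw [Summable.tsum_finsetSum (fun q _ => (hsum q).mul_right _)]
          apply Finset.sum_congr rfl
          intro q _
          simp only [f]
          rw [tsum_mul_right]
        rw [e2]
        have e3 : ∀ n, ∑ q ∈ F, v n (max q 1) * (q : ℝ) ^ ((d : ℝ) - s) ≤ (1 / 2 : ℝ) ^ n := by
          intro n
          refine le_trans ?_ (h2 n F)
          apply Finset.sum_le_sum
          intro q _
          rcases Nat.eq_zero_or_pos q with rfl | hq
          · rw [Nat.cast_zero, Real.zero_rpow hds.ne', mul_zero, mul_zero]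
          · rw [max_eq_left hq]
        calc ∑' n, ∑ q ∈ F, v n (max q 1) * (q : ℝ) ^ ((d : ℝ) - s)
            ≤ ∑' n : ℕ, (1 / 2 : ℝ) ^ n := by
              apply Summable.tsum_le_tsum e3 _ hgeo
              exact summable_sum fun q _ => (hsum q).mul_right _
          _ = 2 := by rw [tsum_geometric_of_lt_one (by norm_num) (by norm_num)]; norm_num
    · have e2 : Summable (fun q : ℕ => (((q : ℝ) + 1) ^ 2)⁻¹) := by
        have := (summable_nat_add_iff 1).mpr (Real.summable_nat_pow_inv.mpr (one_lt_two))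
        simpa using this
      apply Summable.of_nonneg_of_le _ _ e2
      · intro q
        exact mul_nonneg (hg0 q).le (by positivity)
      · intro q
        have e3 : (q : ℝ) ^ ((d : ℝ) - s) ≤ ((q : ℝ) + 1) ^ d := by
          calc (q : ℝ) ^ ((d : ℝ) - s) ≤ ((q : ℝ) + 1) ^ ((d : ℝ) - s) :=
                Real.rpow_le_rpow (by positivity) (by linarith) hds.le
            _ ≤ ((q : ℝ) + 1) ^ (d : ℝ) := by
                apply Real.rpow_le_rpow_of_exponent_le _ (by linarith)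
                have : (0 : ℝ) ≤ q := Nat.cast_nonneg q
                linarith
            _ = _ := Real.rpow_natCast _ _
        calc g q * (q : ℝ) ^ ((d : ℝ) - s) ≤ g q * ((q : ℝ) + 1) ^ d :=
              mul_le_mul_of_nonneg_left e3 (hg0 q).le
          _ = (((q : ℝ) + 1) ^ 2)⁻¹ := by
              simp only [g]
              rw [pow_add]
              field_simp
  · intro n q hq
    have := hf0 q
    have := hg0 q
    rw [← Real.rpow_mul (by positivity), one_div_mul_cancel hms.ne', Real.rpow_one]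
    linarith [hfv n q hq]

/-- projection to the first coordinates -/
theorem proj_lip (d m : ℕ) :
    LipschitzWith 1 (fun (y : EuclideanSpace ℝ (Fin (d + m))) (i : Fin d) => y (Fin.castAdd m i)) := by
  apply LipschitzWith.of_dist_le_mul
  intro y y'
  rw [NNReal.coe_one, one_mul, dist_pi_le_iff dist_nonneg]
  intro i
  rw [dist_eq_norm, dist_eq_norm]
  exact PiLp.norm_apply_le (y - y') (Fin.castAdd m i)

/-- positive measure from a subset of the projection -/
theorem pos_of_proj (d m : ℕ) (s : ℝ) (hs : 0 ≤ s) (K : Set (Fin d → ℝ))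
    (S : Set (EuclideanSpace ℝ (Fin (d + m)))) (hK : 0 < μH[s] K)
    (h : ∀ x ∈ K, ∃ y ∈ S, ∀ i, y (Fin.castAdd m i) = x i) : 0 < μH[s] S := by
  have h1 := (proj_lip d m).hausdorffMeasure_image_le hs S
  rw [ENNReal.coe_one, ENNReal.one_rpow, one_mul] at h1
  refine lt_of_lt_of_le hK (le_trans (measure_mono ?_) h1)
  intro x hx
  obtain ⟨y, hy, hyx⟩ := h x hx
  exact ⟨y, hy, funext hyx⟩

end Q91.JC
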