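import Pool.Agent.Q91.JC.Basic

/-!
# Project JC (helper91): full answer of MP_9bea5e_nt

Lemma jobs.  Each `S_...` below is a statement with a complete proof in its docstring.  A job is
`theorem ... : S_...` in a file of your own.  Elementary facts (finiteness of the sets, additivity
of `lamz`, `Near`, `BN`) are in `Basic.lean`.
-/

namespace Q91.JC

open MeasureTheory

open scoped Classical in
/-- **JOB GP** (pigeonhole near a closed subgroup of the torus).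

Let `i0` be the index with `|h i0| = H`.  For `v ∈ S` write `f j = fract (y v j)`,
`n j = floor (y v j)`; with `K` from the hypothesis put `Kv = K - ∑ n j * h j`, an integer, so
`|∑ f j * h j - Kv| ≤ H ψ / 4`, hence `|Kv| ≤ n H + H/4 ≤ (n+1) H`.  The cell of `v` is
`(floor (f j * 2n/ψ))_{j ≠ i0}` (each entry in `0 .. floor (2n/ψ)`: at most `2n/ψ + 1 ≤ 3n/ψ`
values) together with `Kv` (an integer in `[-(n+1)H, (n+1)H]`: at most `2(n+1)H + 1 ≤ (2n+3)H`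
values).  So there are at most `(3n/ψ)^(n-1) * ((2n+3) H)` cells and some cell holds a set
`S'` of at least `#S / #cells` elements (take the largest fibre).  Two elements of one cell:
`|f j - f' j| ≤ ψ/(2n)` for `j ≠ i0`, and
`H |f i0 - f' i0| ≤ 2 * (H ψ/4) + (n-1) H ψ/(2n) ≤ H ψ`, so all fractional parts differ by at
most `ψ`. -/
def S_GP : Prop := ∀ (n : ℕ) (ι : Type) (S : Finset ι) (y : ι → Fin n → ℝ) (h : Fin n → ℤ)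
  (H ψ : ℝ), 1 ≤ n → 0 < ψ → ψ ≤ 1 → 1 ≤ H → (∀ i, |(h i : ℝ)| ≤ H) → (∃ i, |(h i : ℝ)| = H) →
  (∀ v ∈ S, ∃ K : ℤ, |(∑ i, y v i * (h i : ℝ)) - K| ≤ H * ψ / 4) →
  ∃ S' ⊆ S, (S.card : ℝ) ≤ (S'.card : ℝ) * ((3 * n / ψ) ^ (n - 1) * ((2 * n + 3) * H)) ∧
    ∀ v ∈ S', ∀ w ∈ S', Near ψ (fun i => y v i - y w i)

/-- **JOB PIG** (`S_GP` may be assumed: prove `theorem pig (hGP : S_GP) : S_PIG`).

Given `C, V0`.  The given infinite set of integer vectors contains `q0` with `N = ‖q0‖` as large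
as we want (only finitely many integer vectors have norm `≤ B`).  Put `V = N^ω'`, `ψ = V^(-γ)`.
There is `k : Fin (d+1) → ℤ` with `|(A q0) a - k a| < N^(-ω)` for all `a` (unfold `nearInt`,
`exists_lt_of_csInf_lt`).  Let `S` be the set of `v : ZP d` with all coordinates in `0 .. floor V`
(`≥ V^(d+1)` elements).  For `v ∈ S`:
`∑ j, lamz A v j * q0 j = v.1 * (A q0) 0 + ∑ i, v.2 i * (A q0) i.succ` is within
`(d+1) V N^(-ω)` of an integer, and `(d+1) V N^(-ω) ≤ N ψ/4` for large `N` because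
`ω' - ω + ω' γ < 1`.  Apply `S_GP` with `n = m`, `h = q0`, `H = N`.  It gives `S' ⊆ S` with
`#S' ≥ V^(d+1) / ((3m/ψ)^(m-1) (2m+3) N)`; fix `v0 ∈ S'`; the differences `v - v0`, `v ∈ S'`,
are distinct elements of `GV A V ψ`.  So
`#GV ≥ c V^(d+1) ψ^(m-1) / N = c V^(d+1 - γ(m-1) - 1/ω') ≥ C V^((1+γ) s')` for large `N`, since
`d + 1 - γ(m-1) - 1/ω' - (1+γ)s' > 0`. -/
def S_PIG : Prop := ∀ (d m : ℕ) (A : Matrix (Fin (d + 1)) (Fin m) ℝ) (ω ω' γ s' : ℝ),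
  1 ≤ d → 1 ≤ m → 0 < ω' → 0 < γ → 0 < s' → ω' * (1 + γ) < ω + 1 →
  1 / ω' < (d : ℝ) + 1 - s' - γ * ((m : ℝ) - 1 + s') →
  {q : Fin m → ℤ | nearInt (A.mulVec (fun j => (q j : ℝ))) < ‖(fun j => (q j : ℝ))‖ ^ (-ω)}.Infinite →
  Hyp A γ s'

/-- **JOB SD** (the case `s = d`; `S_GP` may be assumed: `theorem sd (hGP : S_GP) : S_SD`).

Put `n = d + m`.  Choose `ω' > n` and `γ > 1/n` with `ω' (1+γ) < ω + 1` and
`γ (n-1) + 1/ω' < 1` (possible: at `ω' = n`, `γ = 1/n` these read `n + 1 < ω + 1` and `1 ≤ 1`;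
first choose `ω'` slightly larger than `n`, then `γ` slightly larger than `1/n`), and
`1/n < γ' < γ`.  Put `ψ q = (q+1)^(-γ')`, `θ = 0`.  Then `ψ` is positive, strictly decreasing and
`∑ ψ q ^ (m + d) q^(d - d) < ∞`.
Claim: for every `x` with `|x i| ≤ 1` the point `y = Fin.append x (lam A 1 x)` lies in `SS ψ 0`.
Let `q0, k, N, V = N^ω'` be as in the docstring of `S_PIG`, `N` large.  The integer vector
`h = Fin.append (fun i => -k i.succ) q0` satisfies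
`q y · h = q * k 0 + error`, `|error| ≤ (d+1) V N^(-ω)` for `0 ≤ q ≤ V`.  Its sup norm `H` is
`≥ N ≥ 1` and `≤ C_A N` (`|k a| ≤ |(A q0) a| + 1`).  Apply `S_GP` with `S = {0, ..., floor V}`,
`ψ = V^(-γ)`: if `floor V + 1 > (3n/ψ)^(n-1) (2n+3) H` (true for large `N` since
`1 > γ (n-1) + 1/ω'`) then `#S' ≥ 2`, so there is `1 ≤ q ≤ V` with `‖q y‖ ≤ V^(-γ)`, which is
`< (V+1)^(-γ') ≤ (q+1)^(-γ')` for large `V`.  If the set of good `q` were finite, one `q` would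
serve for arbitrarily large `V`, so `‖q y‖ = 0` and then all multiples of `q` are good.
Finally the projection of `SS ψ 0 ∩ LA A` to the first `d` coordinates contains the cube
`[-1,1]^d`, the projection `EuclideanSpace ℝ (Fin (d+m)) → (Fin d → ℝ)` is 1-Lipschitz
(sup norm on the target), and `μH[d]` of the cube is its volume
(`MeasureTheory.hausdorffMeasure_pi_real`), which is positive
(`LipschitzWith.hausdorffMeasure_image_le`). -/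
def S_SD : Prop := ∀ (d m : ℕ) (A : Matrix (Fin (d + 1)) (Fin m) ℝ) (ω : ℝ), 1 ≤ d → 1 ≤ m →
  (d : ℝ) + m < ω →
  {q : Fin m → ℤ | nearInt (A.mulVec (fun j => (q j : ℝ))) < ‖(fun j => (q j : ℝ))‖ ^ (-ω)}.Infinite →
  ∃ (ψ : ℕ → ℝ) (θ : Fin (d + m) → ℝ), (∀ q, 0 < ψ q) ∧ StrictAnti ψ ∧
    Summable (fun q : ℕ => ψ q ^ ((m : ℝ) + d) * (q : ℝ) ^ ((d : ℝ) - d)) ∧
    0 < μH[(d : ℝ)] (SS ψ θ ∩ LA A)

/-- **JOB SYN** (Bohr sets are relatively dense).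

Cut `[0,1)^m` into the finitely many cells `(floor (fract (y j) / δ))_j`.  For each cell which
contains `lamz A v` for some integer point `v` fix one such `v`; let `T` bound the coordinates of
these finitely many representatives.  For given `v` let `v'` be the representative of its cell;
`u = v - v'` works: the fractional parts of `lamz A v` and `lamz A v'` differ by at most `δ`. -/
def S_SYN : Prop := ∀ (d m : ℕ) (A : Matrix (Fin (d + 1)) (Fin m) ℝ) (δ : ℝ), 0 < δ →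
  ∃ T : ℝ, 1 ≤ T ∧ ∀ v : ZP d, ∃ u : ZP d, Near δ (lamz A u) ∧ |(u.1 : ℝ) - v.1| ≤ T ∧
    ∀ i, |(u.2 i : ℝ) - v.2 i| ≤ T

/-- **JOB DB** (doubling).

For `u ∈ GG (2t) (2c)` choose `k` with `|lamz A u j - k j| ≤ 2c`.  The cell of `u` is
`(floor (R u.1 / t), (floor ((u.2 i - u.1 x0 i)/t))_i, (floor ((lamz A u j - k j)/c))_j)`, all
entries in `{-2,...,2}`: at most `5^(1+d+m)` cells.  Two points of a cell have difference in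
`GG t c`, so a cell has at most `#(GG t c)` points (fix one point `u'` of the cell and use the
injective map `u ↦ u - u'`).  All sets are finite (`GG_finite`). -/
def S_DB : Prop := ∀ (d m : ℕ) (A : Matrix (Fin (d + 1)) (Fin m) ℝ) (x0 : Fin d → ℝ)
  (R t c : ℝ), 0 < R → 0 < t → 0 < c →
  (GG A x0 R (2 * t) (2 * c)).ncard ≤ 5 ^ (1 + d + m) * (GG A x0 R t c).ncard

/-- **JOB SC** (choice of the scale).

Put `ψ = V^(-γ)`, `D i = #GG A x0 R (2V/2^i) ψ`, and let `I` be the least natural number with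
`2V/2^I ≤ ψ` (so `2V/2^I > ψ/2`; `I ≥ 1` as `V ≥ 1`).  Choose `i0 ≤ I` which maximises
`D i * 2^(i s')` over `i ≤ I`, `L = 2V/2^i0`, `kmax = I - i0`.  The last property is the
maximality at `i0 + j`.  `M ≤ L`: since `GV A V ψ ⊆ GG A x0 R (2V) ψ` (`|x0 i| ≤ 1`, `R ≤ 1`) we
have `C V^((1+γ)s') ≤ D 0 ≤ D i0 * 2^(i0 s')`, and `2^i0 ≤ 2^I < 4V/ψ = 4 V^(1+γ)`, so
`C ≤ 4^s' * D i0`.  If `L < M` then `D i0 ≤ #{u | BN x0 R M u} =: B` (finite), so it suffices to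
take `C = 4^s' * B + 1`. -/
def S_SC : Prop := ∀ (d m : ℕ) (A : Matrix (Fin (d + 1)) (Fin m) ℝ) (γ s' : ℝ) (x0 : Fin d → ℝ)
  (R M : ℝ), 0 < γ → 0 < s' → 0 < R → R ≤ 1 → (∀ i, |x0 i| ≤ 1) →
  ∃ C : ℝ, ∀ V : ℝ, 1 ≤ V → C * V ^ ((1 + γ) * s') ≤ ((GV A V (V ^ (-γ))).ncard : ℝ) →
  ∃ (L : ℝ) (kmax : ℕ), M ≤ L ∧ 0 < L ∧ L ≤ 2 * V ∧ L / 2 ^ kmax ≤ V ^ (-γ) ∧
    V ^ (-γ) < 2 * (L / 2 ^ kmax) ∧
    ∀ j ≤ kmax, ((GG A x0 R (L / 2 ^ j) (V ^ (-γ))).ncard : ℝ) ≤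
      (2 : ℝ) ^ (-((j : ℝ) * s')) * ((GG A x0 R L (V ^ (-γ))).ncard : ℝ)

/-- **JOB XC** (number of integer points in a region).

For each of the `Q` integers `X.1` in `[Q, 2Q)` and each coordinate `i` the number of integers in
`[X.1 * x0 i - Q R/4, X.1 * x0 i + Q R/4]` is at least `Q R/2 - 1 ≥ Q R/4`. -/
def S_XC : Prop := ∀ (d Q : ℕ) (x0 : Fin d → ℝ) (R : ℝ), 1 ≤ Q → 4 ≤ Q * R →
  {X : ZP d | (Q : ℤ) ≤ X.1 ∧ X.1 < 2 * Q ∧ ∀ i, |(X.2 i : ℝ) - X.1 * x0 i| ≤ Q * R / 4}.Finite ∧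
  (Q : ℝ) * (Q * R / 4) ^ d ≤ ({X : ZP d | (Q : ℤ) ≤ X.1 ∧ X.1 < 2 * Q ∧
    ∀ i, |(X.2 i : ℝ) - X.1 * x0 i| ≤ Q * R / 4}.ncard : ℝ)

open scoped Classical in
/-- **JOB CL** (counting).

Write `g = grid θ0 δ N κ`.  If `(X, κ)` is counted then for every `i`
`|X.2 i + u1.2 i - (X.1 + u1.1) y i| ≤ 3Qh + T + Θ + 3T = 3Qh + 4T + Θ`,
so for each of the `Q` values of `X.1` every `X.2 i` lies in an interval of length
`2(3Qh + 4T + Θ)` and has at most `6Qh + 8T + 2Θ + 1` values.  This gives the first bound (there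
are `N^d` values of `κ`).  For the second bound: for fixed `X` and `i` the number `κ i` satisfies
`|c + δ κ_i / N| ≤ 3Qh` with `c` independent of `κ`, so it has at most
`6QhN/δ + 1 ≤ 12QhN/δ` values. -/
def S_CL : Prop := ∀ (d Q N : ℕ) (Xs : Finset (ZP d)) (Wf : ZP d → ZP d) (u1 : ZP d)
  (θ0 y : Fin d → ℝ) (δ T Θ h : ℝ), 1 ≤ Q → 1 ≤ N → 0 < δ → 0 ≤ T → 0 ≤ Θ → 0 < h →
  (∀ X ∈ Xs, (Q : ℤ) ≤ X.1 ∧ X.1 < 2 * Q) →
  (∀ X ∈ Xs, |((Wf X).1 : ℝ) - X.1| ≤ T ∧ ∀ i, |((Wf X).2 i : ℝ) - X.2 i| ≤ T) →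
  (∀ (κ : Fin d → Fin N) (i : Fin d), |grid θ0 δ N κ i| ≤ Θ) → (∀ i, |y i| ≤ 3) →
  ((((Xs ×ˢ (Finset.univ : Finset (Fin d → Fin N))).filter (fun z => ∀ i,
      |((Wf z.1).2 i : ℝ) + u1.2 i + grid θ0 δ N z.2 i - (((Wf z.1).1 : ℝ) + u1.1) * y i| ≤
        3 * Q * h)).card : ℕ) : ℝ) ≤ Q * (6 * Q * h + 8 * T + 2 * Θ + 1) ^ d * (N : ℝ) ^ d ∧
  (δ ≤ 6 * Q * h * N →
    ((((Xs ×ˢ (Finset.univ : Finset (Fin d → Fin N))).filter (fun z => ∀ i,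
      |((Wf z.1).2 i : ℝ) + u1.2 i + grid θ0 δ N z.2 i - (((Wf z.1).1 : ℝ) + u1.1) * y i| ≤
        3 * Q * h)).card : ℕ) : ℝ) ≤ Q * (6 * Q * h + 8 * T + 2 * Θ + 1) ^ d *
          (12 * Q * h / δ * N) ^ d)

/-- **JOB EXT** (choice by averaging).

`∑ ω, ∑ g, ∑ k ≤ K, b k * E k ω g ≤ B #Os #Gs^2` by `hab`, so some `ω ∈ Os` has
`∑ g ∈ Gs, ∑ k ≤ K, b k * E k ω g ≤ B #Gs^2`.  Let `G'` be the set of `g ∈ Gs` with
`∑ k ≤ K, b k * E k ω g ≤ 2 B #Gs`.  The others number at most `#Gs/2`. -/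
def S_EXT : Prop := ∀ (Ω G : Type) (Os : Finset Ω) (Gs : Finset G) (K : ℕ) (E : ℕ → Ω → G → ℝ)
  (a b : ℕ → ℝ) (B : ℝ), Os.Nonempty → Gs.Nonempty → (∀ k ω g, 0 ≤ E k ω g) → (∀ k, 0 ≤ b k) →
  0 < B →
  (∀ k ≤ K, ∑ ω ∈ Os, ∑ g ∈ Gs, E k ω g ≤ B * a k * (Os.card : ℝ) * (Gs.card : ℝ) ^ 2) →
  (∑ k ∈ Finset.range (K + 1), a k * b k ≤ 1) →
  ∃ ω ∈ Os, ∃ G' ⊆ Gs, (Gs.card : ℝ) ≤ 2 * (G'.card : ℝ) ∧
    ∀ g ∈ G', ∀ k ≤ K, E k ω g * b k ≤ 2 * B * (Gs.card : ℝ)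

open scoped Classical in
/-- **JOB AVG** (the average number of close pairs; `S_DB`, `S_XC`, `S_CL` may be assumed:
`theorem avg (hDB : S_DB) (hXC : S_XC) (hCL : S_CL) : S_AVG`).

Write `T' = 4T + Θ + 1`, `θ = grid θ0 δ N κ`, `ρ = R/2^k`, `CD = 5^(1+d+m)`.
Facts for `X ∈ Xs`, `u ∈ G`: `L ≤ Q R/8`, `T ≤ Q/32` (from `h16`, `R ≤ 1`), hence
`(27/32) Q ≤ (Wf X).1 + u.1 ≤ 3 Q`, and
`|(Wf X).2 i + u.2 i + θ i - ((Wf X).1 + u.1) x0 i| ≤ QR/4 + 2T + L + Θ ≤ (7/16) Q R`, so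
`a := pt (Wf X + u) θ` satisfies `|a i - x0 i| ≤ (14/27) R ≤ R`.
Let `(u1, u)` be a counted pair, `a = pt (Wf X + u1) θ`, `w = u - u1`.  Then
`((Wf X).1 + u.1) (pt (Wf X + u) θ i - a i) = w.2 i - w.1 a i`, so `|w.2 i - w.1 a i| ≤ 3Qρ`, and
`w ∈ GG A x0 R (2L) (2ψ0)`.
So the sum is at most `∑ u1 ∈ G, ∑ w ∈ GG (2L) (2ψ0), n(u1, w)` with `n(u1, w)` the number of
`(X, κ)` for which `|w.2 i - w.1 a i| ≤ 3Qρ` for all `i`.
*Large w.*  Let `j` be a natural number with `j + 7 ≤ k` and suppose `w` is not in `BN (L/2^j)`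
(and `n(u1,w) > 0`).  `Q ≤ 16 L/R` gives `6Qρ ≤ L/2^j`.  As
`|w.2 i - w.1 x0 i| ≤ 3Qρ + R |w.1|` we get `R |w.1| > L/2^(j+1)`; with `y = w.2/w.1` and
`h = 96 * R * 2^j/2^k` we have `|a i - y i| ≤ 3Qρ/|w.1| ≤ 6RQρ 2^j/L ≤ h ≤ 3/4` for counted
`(X, κ)`, so `|y i| ≤ 3` and
`|(Wf X).2 i + u1.2 i + θ i - ((Wf X).1 + u1.1) y i| ≤ 3Qh`.  By `S_CL` (with `S_XC`:
`#Xs ≥ Q (QR/4)^d`)
`n(u1, w) ≤ #Xs N^d (32 h/R)^d` if `Q h ≥ T'`, and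
`n(u1, w) ≤ #Xs N^d (384 T' h/(δ R))^d` if `Q h < T'` (here `δ ≤ 1 ≤ 6QhN` as `N = 2^kmax`,
`h ≥ R/2^kmax`, `QR ≥ 16`).  If `2^k T' ≤ Q R` the second case does not occur.  So in all cases
`n(u1, w) ≤ #Xs N^d Kk * (384 * 96 * 2^j/2^k)^d`.
*Sum.*  The elements `w` of `GG (2L) (2ψ0)` are distributed to the shells
`w ∈ BN (2 L/2^j)`, not in `BN (L/2^j)` (`0 ≤ j`, `j + 7 ≤ k`) and the core
`BN (2 L/2^(k-6))` (if `k < 7` everything is core with `j = 0`); by `S_DB` and `hD` the shell `j`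
has at most `CD 2^(-j s') #G` elements and the core at most `CD 2^(-(k-6) s') #G` (resp.
`CD #G`) elements, for which we use `n(u1, w) ≤ #Xs N^d`.  Since `s' < d`,
`∑ j ≤ k, 2^(-j s') 2^((j-k) d) ≤ 2^(-k s')/(1 - 2^(-(d - s')))`.  So
`CA = CD * ((384*96)^d/(1 - 2^(-(d-s'))) + 2^(6 s'))` works. -/
def S_AVG : Prop := ∀ (d m : ℕ) (s' : ℝ), 1 ≤ d → 0 < s' → s' < d → ∃ CA : ℝ, 0 < CA ∧
  ∀ (A : Matrix (Fin (d + 1)) (Fin m) ℝ) (x0 θ0 : Fin d → ℝ) (R ψ0 L T Θ δ : ℝ)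
    (kmax N Q : ℕ) (Wf : ZP d → ZP d) (Xs G : Finset (ZP d)),
  0 < R → R ≤ 1 → (∀ i, |x0 i| ≤ 1) → 0 < ψ0 → 0 < L → 1 ≤ T → 0 ≤ Θ → 0 < δ → δ ≤ 1 →
  N = 2 ^ kmax → 1 ≤ Q → 8 * L / R ≤ Q → (Q : ℝ) ≤ 16 * L / R → 16 * (2 * T + Θ) ≤ Q * R →
  (∀ u, u ∈ G ↔ u ∈ GG A x0 R L ψ0) →
  (∀ j ≤ kmax, ((GG A x0 R (L / 2 ^ j) ψ0).ncard : ℝ) ≤
      (2 : ℝ) ^ (-((j : ℝ) * s')) * (G.card : ℝ)) →
  (∀ X, X ∈ Xs ↔ ((Q : ℤ) ≤ X.1 ∧ X.1 < 2 * Q ∧ ∀ i, |(X.2 i : ℝ) - X.1 * x0 i| ≤ Q * R / 4)) →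
  (∀ X ∈ Xs, |((Wf X).1 : ℝ) - X.1| ≤ T ∧ ∀ i, |((Wf X).2 i : ℝ) - X.2 i| ≤ T) →
  (∀ (κ : Fin d → Fin N) (i : Fin d), |grid θ0 δ N κ i| ≤ Θ) →
  ∀ k ≤ kmax,
    ∑ z ∈ Xs ×ˢ (Finset.univ : Finset (Fin d → Fin N)), ∑ u1 ∈ G,
      ((G.filter (fun u => ∀ i, |pt (Wf z.1 + u) (grid θ0 δ N z.2) i -
        pt (Wf z.1 + u1) (grid θ0 δ N z.2) i| ≤ R / 2 ^ k)).card : ℝ) ≤
    CA * (if 2 ^ k * (4 * T + Θ + 1) ≤ Q * R then 1 else ((4 * T + Θ + 1) / δ) ^ d) *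
      (2 : ℝ) ^ (-((k : ℝ) * s')) * ((Xs.card : ℝ) * (N : ℝ) ^ d) * (G.card : ℝ) ^ 2

open scoped Classical in
/-- **JOB TREE** (positive Hausdorff measure of a tree-like set; the metric on `Fin d → ℝ` is the
sup metric).  Tool: `Q91.JC.pos_of_good` (file `Haus.lean`): if `K` is compact and for every
`η > 0` every finite cover of `K` by open balls with radii `≥ η` has `∑ radius^s ≥ c > 0` then
`0 < μH[s] K`.

Let `K n = {x | ∃ b ∈ L n, ∀ i, |x i - b.1 i| ≤ b.2}`: compact (finite union of closed balls),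
decreasing in `n` (last hypothesis), `K = ⋂ K n`.  Let finitely many open balls `B(x_p, ρ_p)`,
`ρ_p ≥ η`, cover `K`.  The union `U` is open, so `K n ⊆ U` for some `n` (compactness), and we may
take `n` so large that all `b ∈ L n` have `b.2 ≤ η`.  For a ball `b` put
`φ_p b = min 1 (C (ρ_p/b.2)^s)` if `B(x_p, ρ_p)` meets the closed ball `b`, else `0`.
Claim: for all `l ≤ n` and `b ∈ L l`: `1 ≤ ∑ p, φ_p b`; downward induction on `l`.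
`l = n`: the centre of `b` is in `K n`, so it lies in some `B(x_p, ρ_p)`, and
`C (ρ_p/b.2)^s ≥ 1` as `ρ_p ≥ η ≥ b.2`, `C ≥ 1`.
`l < n`: with the children `c j` (radius `r`, `k` of them) of `b`:
`k ≤ ∑ j, ∑ p, φ_p (c j, r) = ∑ p, ∑ j, φ_p (c j, r)`, and for each `p`
`∑ j, φ_p (c j, r) ≤ k φ_p b`: if `B(x_p, ρ_p)` meets no child the left side is `0`; otherwise it
meets `b` (each child is contained in `b`), and a child met by `B(x_p, ρ_p)` has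
`|c j i - x_p i| ≤ ρ_p + r`.  If `ρ_p ≥ r` this is `≤ 2ρ_p`, so the number of such `j` is at most
`C (ρ_p/b.2)^s k`, and it is at most `k`, each term is `≤ 1`.  If `ρ_p < r` the number is at most
`(r/b.2)^s k` (and at most `k`), and each term is `≤ C (ρ_p/r)^s` (and `≤ 1`); the product of
the bounds is `≤ C (ρ_p/b.2)^s k`, and `≤ k`.
At the root: `1 ≤ ∑ p, C (ρ_p/R0)^s`, i.e. `∑ ρ_p^s ≥ R0^s/C`. -/
def S_TREE : Prop := ∀ (d : ℕ) (s C : ℝ) (L : ℕ → Finset ((Fin d → ℝ) × ℝ)) (x0 : Fin d → ℝ)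
  (R0 : ℝ), 0 < s → 1 ≤ C → 0 < R0 → L 0 = {(x0, R0)} → (∀ n, ∀ b ∈ L n, 0 < b.2) →
  (∀ ε : ℝ, 0 < ε → ∃ n, ∀ l ≥ n, ∀ b ∈ L l, b.2 ≤ ε) →
  (∀ n, ∀ b ∈ L n, ∃ (k : ℕ) (c : Fin k → (Fin d → ℝ)) (r : ℝ), 0 < k ∧ 0 < r ∧
    (∀ j, (c j, r) ∈ L (n + 1)) ∧ (∀ j i, |c j i - b.1 i| ≤ b.2 - r) ∧
    (∀ (x : Fin d → ℝ) (ρ : ℝ), r ≤ ρ →
      ((Finset.univ.filter (fun j : Fin k => ∀ i, |c j i - x i| ≤ 2 * ρ)).card : ℝ) ≤
        C * (ρ / b.2) ^ s * k) ∧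
    (∀ x : Fin d → ℝ,
      ((Finset.univ.filter (fun j : Fin k => ∀ i, |c j i - x i| ≤ 2 * r)).card : ℝ) ≤
        (r / b.2) ^ s * k)) →
  (∀ n, ∀ c ∈ L (n + 1), ∃ b ∈ L n, ∀ i, |c.1 i - b.1 i| ≤ b.2 - c.2) →
  0 < μH[s] {x : Fin d → ℝ | ∀ n, ∃ b ∈ L n, ∀ i, |x i - b.1 i| ≤ b.2}

open scoped Classical in
/-- **ON** (one node; helper91 does this one).  The cluster inside the ball `(x0, R)`. -/
def S_ON : Prop := ∀ (d m : ℕ) (A : Matrix (Fin (d + 1)) (Fin m) ℝ) (γ s s' κ : ℝ), 1 ≤ d →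
  0 < γ → 0 < s → s < s' → s' < d → (d : ℝ) + 1 - s < γ * (m + s) → Hyp A γ s' → 0 < κ → κ ≤ 1 →
  ∃ Cs : ℝ, 1 ≤ Cs ∧ ∀ (x0 : Fin d → ℝ) (R : ℝ) (W0 : ZP d) (θ0 : Fin d → ℝ) (δ ε : ℝ),
    (∀ i, |x0 i| ≤ 1) → 0 < R → R ≤ 1 → 0 < δ → 0 < ε →
    ∃ (Q : ℕ) (ψ0 r : ℝ) (θ : Fin d → ℝ) (W : ZP d) (n : ℕ) (u : Fin n → ZP d),
      1 ≤ Q ∧ 0 < ψ0 ∧ ψ0 ≤ ε ∧ r = κ * ψ0 / Q ∧ r ≤ ε ∧ r ≤ R / 3 ∧
      ψ0 ^ ((m : ℝ) + s) * (3 * Q : ℝ) ^ ((d : ℝ) + 1 - s) ≤ ε ∧ 0 < n ∧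
      (∀ i, |θ i - θ0 i| ≤ δ) ∧
      Near δ (fun j => lam A W.1 (fun i => (W.2 i : ℝ) + θ i) j -
        lam A W0.1 (fun i => (W0.2 i : ℝ) + θ0 i) j) ∧
      (∀ j, 1 / ε ≤ ((u j).1 : ℝ) ∧ ((u j).1 : ℝ) ≤ 3 * Q ∧
        Near ψ0 (fun l => lam A (u j).1 (fun i => ((u j).2 i : ℝ) + θ i) l -
          lam A W.1 (fun i => (W.2 i : ℝ) + θ i) l) ∧
        ∀ i, |pt (u j) θ i - x0 i| ≤ 2 / 3 * R) ∧
      (∀ (x : Fin d → ℝ) (ρ : ℝ), r ≤ ρ →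
        ((Finset.univ.filter (fun j : Fin n => ∀ i, |pt (u j) θ i - x i| ≤ 2 * ρ)).card : ℝ) ≤
          Cs * (ρ / R) ^ s * n) ∧
      (∀ x : Fin d → ℝ,
        ((Finset.univ.filter (fun j : Fin n => ∀ i, |pt (u j) θ i - x i| ≤ 2 * r)).card : ℝ) ≤
          (r / R) ^ s * n)

/-- **JOB SEQ** (construction of the tree; `S_ON` and `S_TREE` may be assumed:
`theorem seq (hON : S_ON) (hTREE : S_TREE) : S_SEQ`).

Let `CA = 1 + ∑ j, ∑ i, |A i j|` (so `|lam A 0 w l| ≤ CA * c` if all `|w i| ≤ c`),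
`κ = 1/(6 CA)`, `Cs` from `S_ON`.
*States.*  A state is `σ = (W, θ, z, δ)` with `W : ZP d`, `θ : Fin d → ℝ`, `z : Fin m → ℝ`,
`0 < δ`, and `z - lam A W.1 (W.2 + θ)` an integer vector.  `σ' ≤ σ` means
`|θ' i - θ i| ≤ δ - δ'` and `|z' l - z l| ≤ δ - δ'` for all `i, l` (transitive; so the box of
radius `δ'` around `(θ', z')` is contained in the box of radius `δ` around `(θ, z)`).
*Hit.*  `Hit n x σ v` (for `v : ℕ → ℝ`, `n : ℕ`): there are `q : ℕ`, `p : Fin d → ℤ` with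
`n ≤ q`, `1 ≤ q`, such that for all `θ1, z1` in the box of `σ` and all `t > 0` with
`v q ≤ t ^ (m+s)`: `|q * x i - p i - θ1 i| < t` for all `i`, and there is `k : Fin m → ℤ` with
`|lam A q (q x) l - z1 l - k l| < t` for all `l`.  `Hit` is monotone: it stays true if `σ` is
replaced by `σ' ≤ σ` and `v` by a larger function.
*Good.*  `Good n b (k, c, r) σ v` for a ball `b`: `0 < k`, `0 < r ≤ 1/(n+1)`,
`|c j i - b.1 i| ≤ b.2 - r`, the two counting properties of `S_TREE` with `C = Cs`, and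
`Hit n x σ v` for every `x` in one of the closed balls `(c j, r)`.
*One node.*  For every state `σ`, ball `b` with `0 < b.2 ≤ 1`, `|b.1 i| ≤ 1`, `n` and `ε > 0`
there are `σ' ≤ σ`, `(k, c, r)` and an antitone `v ≥ 0`, zero for large `q`, with
`∑ q, v q * q^(d-s) ≤ ε` and `Good n b (k, c, r) σ' v`: apply `S_ON` to
`x0 = b.1, R = b.2, W0 = W, θ0 = θ`, `δ/2` and a small `ε1 ≤ 1/(n+1)`.  With its output put
`z' = z + (integer shift of lam A W' (..) - lam A W (..))` so that `|z' - z| ≤ δ/2`,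
`δ' = min (δ/2) (κ ψ0)`, `c j = pt (u j) θ'`, `v q = (4ψ0)^(m+s)` for `q ≤ 3Q` and `0`
otherwise: `∑ q ≤ 3Q, (4ψ0)^(m+s) q^(d-s) ≤ (3Q+1) (3Q)^(d-s) (4ψ0)^(m+s) ≤ 2 * 4^(m+s) ε1 ≤ ε`.
`Hit`: `q = (u j).1`, `p = (u j).2`; for `x` in the ball `|q x - p - θ'| ≤ q r ≤ 3κψ0`, so
`|q x - p - θ1| ≤ 4κψ0 < 4ψ0`, and `lam A q (q x) - z1 = lam A q (p + θ') - z' +
lam A 0 (q x - p - θ') + (z' - z1)` is within `ψ0 + 3κCAψ0 + κψ0 < 4ψ0` of an integer vector;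
`v q ≤ t^(m+s)` gives `t ≥ 4ψ0`.
*One level.*  The same for all balls `b` of a finite set `L` simultaneously (with one `σ'`, one
`v = ` sum of the `v`'s, a function `b ↦ (k, c, r)`): induction on the finite set, using the
monotonicity of `Good`; total cost `≤ ε`.
*Sequence.*  Start with `L 0 = {(0, 1/2)}` and any state.  Recursively `σ (n+1) ≤ σ n`,
`L (n+1) =` all children balls of the balls of `L n` (choose with `ε = 2^(-n)`), `v n`.  All balls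
lie in the ball `(0, 1/2)`; radii at level `n+1` are `≤ 1/(n+1)`.
*Limit.*  `θ (σ n), z (σ n)` are Cauchy (make `δ (n+1) ≤ δ n / 2`; this is so if `L n` is
nonempty) with limits `θ∞, z∞` in the box of every `σ n`.  Put
`ψ q = ((∑' n, v n (max q 1)) + ((q+1)^(d+2))⁻¹)^(1/(m+s))`.  (`∑' n, v n q` converges for
`q ≥ 1` since `v n q ≤ 2^(-n)`.)  `ψ` is positive, strictly decreasing, and
`∑ q, ψ q ^(m+s) q^(d-s) ≤ ∑ n, ∑ q, v n q * q^(d-s) + ∑ q, (q+1)^(-2) < ∞`.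
If `x` lies in the set `K` of `S_TREE` then `Hit n x (σ (n+1)) (v n)` for all `n`, and with
`t = ψ q` one gets infinitely many `q` with `nearInt (q y - θ) < ψ q` for
`y = Fin.append x (lam A 1 x)`, `θ = Fin.append θ∞ z∞` (note `lam A q (q x) = q * lam A 1 x`).
So the projection of `SS ψ θ ∩ LA A` to the first `d` coordinates contains `K`; the projection
`EuclideanSpace ℝ (Fin (d+m)) → (Fin d → ℝ)` is 1-Lipschitz, and `0 < μH[s] K`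
(`LipschitzWith.hausdorffMeasure_image_le`). -/
def S_SEQ : Prop := ∀ (d m : ℕ) (A : Matrix (Fin (d + 1)) (Fin m) ℝ) (γ s s' : ℝ), 1 ≤ d →
  0 < γ → 0 < s → s < s' → s' < d → (d : ℝ) + 1 - s < γ * (m + s) → Hyp A γ s' →
  ∃ (ψ : ℕ → ℝ) (θ : Fin (d + m) → ℝ), (∀ q, 0 < ψ q) ∧ StrictAnti ψ ∧
    Summable (fun q : ℕ => ψ q ^ ((m : ℝ) + s) * (q : ℝ) ^ ((d : ℝ) - s)) ∧
    0 < μH[s] (SS ψ θ ∩ LA A)

end Q91.JC
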